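import Mathlib
import Pool.Agent.Work.MP_4329d7_ag_uni.Defs
import Pool.Agent.Work.MP_4329d7_ag_uni.FormsDet

/-!
Theorem U+: abelian covers of products of projective spaces branched along simple normal crossing
divisors.  Definitions (helper44).

* `Co I n` = the homogeneous coordinates of all factors; `hom x s` (in `FormsDet`) their values at
  the general point (`hom x ⟨i, 0⟩ = 1`);
* `E` = the branch divisors, `F e` a form of multidegree `d e`, `z ^ N = ∏ F_e(1, x) ^ c_e`;
* the abstract root system has the points `Pt F` = the monomials of all `F e`, one more point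
  `none` (the product over the blocks) for every `e`, and the coordinates; its factors are
  `E ⊕ I`; the relation `e` is `F_e (c_s ∏ (X - s_k)) = F_e (c) ∏ (X - t_k) ^ (b_k e)`.
-/

namespace Pool.Agent.Work.Snc

open MvPolynomial Pool.Agent.Work.Uni

/-- the homogeneous coordinates -/
abbrev Co (I : Type) (n : I → ℕ) : Type := Σ i, Fin (n i + 1)

/-- the weight of the factor `i` -/
def wt {I : Type} [DecidableEq I] {n : I → ℕ} (i : I) : Co I n → ℕ :=
  fun s => if s.1 = i then 1 else 0

/-- a point of the product of the projective spaces (homogeneous coordinates) -/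
def IsPoint {I : Type} {n : I → ℕ} {k : Type} [Zero k] (P : Co I n → k) : Prop :=
  ∀ i, ∃ j, P ⟨i, j⟩ ≠ 0

/-- The data of an abelian cover of a product of projective spaces branched along the simple
normal crossing divisor `⋃ {F e = 0}`. -/
structure SncData (K : Type) [Field K] [Algebra ℂ K] (I : Type) [Fintype I] [DecidableEq I]
    (n : I → ℕ) (E : Type) [Fintype E] (F : E → MvPolynomial (Co I n) ℂ) (d : E → I → ℕ)
    (N : ℕ) (x : (i : I) → Fin (n i) → K) (S : Set (K × (E → ℕ))) : Prop where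
  N_pos : 0 < N
  n_pos : ∀ i, 0 < n i
  hom : ∀ e i, (F e).IsWeightedHomogeneous (wt i) (d e i)
  snc : ∀ P : Co I n → ℂ, IsPoint P →
    LinearIndependent ℂ (fun e : {e // eval P (F e) = 0} => fun s => eval P (pderiv s (F e.1)))
  nonempty : ∀ e, ∃ P : Co I n → ℂ, IsPoint P ∧ eval P (F e) = 0
  alg_indep : AlgebraicIndependent ℂ (fun p : Σ i, Fin (n i) => x p.1 p.2)
  rad : ∀ z c, (z, c) ∈ S → z ^ N = ∏ e, aeval (Uni.hom x) (F e) ^ c e
  deg : ∀ z c, (z, c) ∈ S → ∀ i, N ∣ ∑ e, c e * d e i
  gen : IntermediateField.adjoin ℂ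
    (Set.range (fun p : Σ i, Fin (n i) => x p.1 p.2) ∪ {z | ∃ c, (z, c) ∈ S}) = ⊤
  branch : ∀ e, ∃ z c, (z, c) ∈ S ∧ ¬ N ∣ c e

/-- the blocks of a cover: the possible vectors of the orders of the `F e` along divisors -/
def SBlock {K I : Type} {n : I → ℕ} {E : Type} [Fintype E]
    (F : E → MvPolynomial (Co I n) ℂ) (N : ℕ) (S : Set (K × (E → ℕ))) (b : E → ℕ) : Prop :=
  b ≠ 0 ∧ (∀ z c, (z, c) ∈ S → N ∣ ∑ e, b e * c e) ∧
    ∃ P : Co I n → ℂ, IsPoint P ∧ ∀ e, b e ≠ 0 → eval P (F e) = 0

section abstract_system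

/-- all rational curves given by roots in `k` are constant, for an arbitrary set of blocks -/
def StarP {Pt Q I k : Type} [Fintype Pt] [Field k] (Blk : (Pt → ℕ) → Prop) (f : Pt → I)
    (a : Q → Pt → k) : Prop :=
  ∀ (ι : Type) [Fintype ι] (β : ι → Pt → ℕ) (m : I → ℕ), (∀ i, Blk (β i)) →
    (∀ p, ∑ i, β i p = m (f p)) → ∀ t : ι → k,
      IsSol a β t → ∀ p p', f p = f p' → rootPoly β t p = rootPoly β t p'

/-- the conclusion of the Bezout count, for an arbitrary set of blocks -/
def CritP {Pt Q I : Type} [Fintype Pt] [Fintype Q] (Blk : (Pt → ℕ) → Prop) (f : Pt → I)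
    (g : Q → I) : Prop :=
  ∀ (Ty : Type) [Fintype Ty] (b : Ty → Pt → ℕ) (lam : Ty → ℕ) (m : I → ℕ),
    (∀ t, Blk (b t)) → IsExt f b lam m →
      (∑ t, lam t ≤ ∑ q, m (g q) + 1) ∧
      (∑ t, lam t = ∑ q, m (g q) + 1 →
        ∀ J, 1 ≤ J → ∑ t, min (lam t) J = ∑ q, min (m (g q)) J + 1)

variable {I : Type} {n : I → ℕ} {E : Type} (F : E → MvPolynomial (Co I n) ℂ)

/-- the points of the abstract system -/
abbrev Pt : Type := (Σ e : E, Option (F e).support) ⊕ Co I n

/-- the factors of the points -/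
def fac : Pt F → E ⊕ I := Sum.elim (fun p => Sum.inl p.1) (fun s => Sum.inr s.1)

/-- a vector on `E` as a vector on the points -/
def liftB (b : E → ℕ) : Pt F → ℕ :=
  Sum.elim (fun p => p.2.elim (b p.1) fun _ => 0) (fun _ => 0)

/-- the vector of a root of the coordinate `s` -/
def liftC [DecidableEq I] (s : Co I n) : Pt F → ℕ :=
  Sum.elim (fun p => p.2.elim 0 fun μ => μ.1 s) (fun s' => if s' = s then 1 else 0)

/-- the types of the abstract system: blocks and coordinates -/
def BlkP [DecidableEq I] [Fintype E] {K : Type} (N : ℕ) (S : Set (K × (E → ℕ)))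
    (β : Pt F → ℕ) : Prop :=
  (∃ b, SBlock F N S b ∧ β = liftB F b) ∨ ∃ s, β = liftC F s

/-- the coefficients of the abstract system at the point `c` -/
noncomputable def coefP [DecidableEq E] {k : Type} [Field k] [Algebra ℂ k] (c : Co I n → k)
    (e : E) : Pt F → k :=
  Sum.elim (fun p => if p.1 = e then p.2.elim (- aeval c (F e))
    (fun μ => algebraMap ℂ k (coeff μ.1 (F e)) * μ.1.prod fun s j => c s ^ j) else 0) (fun _ => 0)

end abstract_system

end Pool.Agent.Work.Snc
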