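import Mathlib
import Pool.Agent.Work.MP_4329d7_ag_snc.Defs
import Pool.Agent.Work.MP_4329d7_ag_uni.CurveAlg
import Pool.Agent.Work.MP_4329d7_ag_uni.CurveExt

/-!
If `K` is not uniruled then all rational curves given by roots are constant (`StarP`), for covers
branched along simple normal crossing divisors (helper44, after helper82).
-/

namespace Pool.Agent.Work.Snc

open Polynomial Pool.Agent.Work.Uni Pool.Agent.Work.MP_4329d7_ag.FF

section multihom

variable {I : Type} [Fintype I] [DecidableEq I] {n : I → ℕ}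

theorem sum_monomial {Fe : MvPolynomial (Co I n) ℂ} {di : ℕ} {i : I}
    (h : Fe.IsWeightedHomogeneous (wt i) di) {μ : Co I n →₀ ℕ} (hμ : μ ∈ Fe.support) :
    ∑ j, μ ⟨i, j⟩ = di := by
  have h1 := h (MvPolynomial.mem_support_iff.1 hμ)
  rw [Finsupp.weight_apply, Finsupp.sum_fintype _ _ (fun _ => by simp), Fintype.sum_sigma,
    Finset.sum_eq_single i] at h1
  · simpa [wt] using h1
  · intro i' _ hi'
    refine Finset.sum_eq_zero fun j _ => ?_
    simp [wt, hi']
  · intro h
    exact absurd (Finset.mem_univ i) h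

theorem multihom_scale {R : Type} [CommRing R] [Algebra ℂ R] {Fe : MvPolynomial (Co I n) ℂ}
    {d : I → ℕ} (h : ∀ i, Fe.IsWeightedHomogeneous (wt i) (d i)) (lam : I → R) (X : Co I n → R) :
    MvPolynomial.aeval (fun s => lam s.1 * X s) Fe =
      (∏ i, lam i ^ d i) * MvPolynomial.aeval X Fe := by
  rw [MvPolynomial.aeval_def, MvPolynomial.aeval_def, MvPolynomial.eval₂_eq',
    MvPolynomial.eval₂_eq', Finset.mul_sum]
  refine Finset.sum_congr rfl fun μ hμ => ?_
  have h1 : ∏ s : Co I n, lam s.1 ^ μ s = ∏ i, lam i ^ d i := by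
    rw [Fintype.prod_sigma]
    refine Finset.prod_congr rfl fun i _ => ?_
    change ∏ j, lam i ^ μ ⟨i, j⟩ = _
    rw [Finset.prod_pow_eq_pow_sum, sum_monomial (h i) hμ]
  simp only [mul_pow, Finset.prod_mul_distrib, h1]
  ring

/-- homogeneous coordinates in a polynomial ring -/
noncomputable def homX (s : Co I n) : MvPolynomial (Σ i, Fin (n i)) ℂ :=
  Fin.cases (motive := fun _ => MvPolynomial (Σ i, Fin (n i)) ℂ) 1
    (fun j => MvPolynomial.X ⟨s.1, j⟩) s.2

omit [Fintype I] [DecidableEq I] in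
theorem aeval_homX {K : Type} [Field K] [Algebra ℂ K] (x : (Σ i, Fin (n i)) → K)
    (Fe : MvPolynomial (Co I n) ℂ) :
    MvPolynomial.aeval x (MvPolynomial.aeval homX Fe) =
      MvPolynomial.aeval (Uni.hom fun i j => x ⟨i, j⟩) Fe := by
  have h1 : (MvPolynomial.aeval x).comp (MvPolynomial.aeval homX) =
      (MvPolynomial.aeval (Uni.hom fun i j => x ⟨i, j⟩) : MvPolynomial (Co I n) ℂ →ₐ[ℂ] K) := by
    refine MvPolynomial.algHom_ext fun s => ?_
    rw [AlgHom.comp_apply, MvPolynomial.aeval_X, MvPolynomial.aeval_X]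
    obtain ⟨i, j⟩ := s
    refine Fin.cases ?_ (fun j => ?_) j
    · simp [homX, Uni.hom]
    · simp [homX, Uni.hom]
  exact congrArg (fun f => f Fe) h1

/-- a multihomogeneous polynomial is determined by its dehomogenization -/
theorem aeval_homX_ne_zero {Fe : MvPolynomial (Co I n) ℂ} {d : I → ℕ}
    (h : ∀ i, Fe.IsWeightedHomogeneous (wt i) (d i)) (h0 : Fe ≠ 0) :
    MvPolynomial.aeval homX Fe ≠ 0 := by
  intro hz
  apply h0
  let A := MvPolynomial (Co I n) ℂ
  let Q := FractionRing A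
  let ι : A →ₐ[ℂ] Q := IsScalarTower.toAlgHom ℂ A Q
  have hι : Function.Injective ι := IsFractionRing.injective A Q
  let X' : Co I n → Q := fun s => ι (MvPolynomial.X s)
  have hX' : ∀ s, X' s ≠ 0 := fun s => (map_ne_zero_iff _ hι).2 (MvPolynomial.X_ne_zero s)
  have h1 := aeval_homX (K := Q) (fun p : Σ i, Fin (n i) => X' ⟨p.1, p.2.succ⟩ / X' ⟨p.1, 0⟩) Fe
  rw [hz, map_zero] at h1
  have h2 := multihom_scale h (fun i => X' ⟨i, 0⟩)
    (Uni.hom fun i j => X' ⟨i, j.succ⟩ / X' ⟨i, 0⟩)
  rw [← h1, mul_zero] at h2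
  have h3 : (fun s : Co I n => X' ⟨s.1, 0⟩ *
      Uni.hom (fun i j => X' ⟨i, j.succ⟩ / X' ⟨i, 0⟩) s) = X' := by
    funext s
    obtain ⟨i, j⟩ := s
    refine Fin.cases ?_ (fun j => ?_) j
    · simp [Uni.hom]
    · simp only [Uni.hom, Fin.cons_succ]
      exact mul_div_cancel₀ _ (hX' _)
  rw [h3] at h2
  have h4 : MvPolynomial.aeval X' Fe = ι Fe := by
    have h5 : (MvPolynomial.aeval X' : A →ₐ[ℂ] Q) = ι := by
      refine MvPolynomial.algHom_ext fun s => ?_
      rw [MvPolynomial.aeval_X]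
    rw [h5]
  rw [h4] at h2
  exact hι (by rw [h2, map_zero])

end multihom

section nonzero

variable {K : Type} [Field K] [Algebra ℂ K] {I : Type} [Fintype I] [DecidableEq I]
  {n : I → ℕ} {E : Type} [Fintype E] {F : E → MvPolynomial (Co I n) ℂ} {d : E → I → ℕ}
  {N : ℕ} {x : (i : I) → Fin (n i) → K} {S : Set (K × (E → ℕ))}

theorem SncData.ne_zero (D : SncData K I n E F d N x S) (e : E) : F e ≠ 0 := by
  intro h0
  obtain ⟨P, hP, hPe⟩ := D.nonempty e
  have h1 := (D.snc P hP).ne_zero ⟨e, hPe⟩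
  apply h1
  funext s
  simp [h0]

theorem SncData.aeval_ne_zero (D : SncData K I n E F d N x S) (e : E) :
    MvPolynomial.aeval (Uni.hom x) (F e) ≠ 0 := by
  intro h0
  have h1 := aeval_homX (fun p : Σ i, Fin (n i) => x p.1 p.2) (F e)
  rw [show (Uni.hom fun i j => x i j) = Uni.hom x from rfl] at h1
  rw [h0] at h1
  exact aeval_homX_ne_zero (D.hom e) (D.ne_zero e)
    ((injective_iff_map_eq_zero _).1 D.alg_indep _ h1)

end nonzero

section main

variable {K : Type} [Field K] [Algebra ℂ K] {I : Type} [Fintype I] [DecidableEq I]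
  {n : I → ℕ} {E : Type} [Fintype E] {F : E → MvPolynomial (Co I n) ℂ} {d : E → I → ℕ}
  {N : ℕ} {x : (i : I) → Fin (n i) → K} {S : Set (K × (E → ℕ))}

/-- the curve -/
theorem curve_constS [Algebra.EssFiniteType ℂ K] (N_pos : 0 < N)
    (hom : ∀ e i, (F e).IsWeightedHomogeneous (wt i) (d e i))
    (alg_indep : AlgebraicIndependent ℂ (fun p : Σ i, Fin (n i) => x p.1 p.2))
    (rad : ∀ z c, (z, c) ∈ S → z ^ N = ∏ e, MvPolynomial.aeval (Uni.hom x) (F e) ^ c e)
    (deg : ∀ z c, (z, c) ∈ S → ∀ i, N ∣ ∑ e, c e * d e i)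
    (gen : IntermediateField.adjoin ℂ
      (Set.range (fun p : Σ i, Fin (n i) => x p.1 p.2) ∪ {z | ∃ c, (z, c) ∈ S}) = ⊤)
    (hK : ¬ Uniruled K) {k : Type} [Field k] [Algebra ℂ k] (h : K →ₐ[ℂ] k)
    {ι : Type} [Fintype ι] (β : ι → E → ℕ) (t : ι → k)
    (hβ : ∀ l z c, (z, c) ∈ S → N ∣ ∑ e, β l e * c e)
    (Y : Co I n → k[X]) (hY0 : ∀ s, (Y s).eval 0 = h (Uni.hom x s))
    (hY : ∀ e, MvPolynomial.aeval Y (F e) =
      C (h (MvPolynomial.aeval (Uni.hom x) (F e))) * revPoly β t e) :
    ∀ s, Y s = C (h (Uni.hom x s)) * Y ⟨s.1, 0⟩ := by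
  classical
  have hx0 : ∀ i, Uni.hom x ⟨i, 0⟩ = 1 := fun i => by simp [Uni.hom]
  have hY00 : ∀ i, (Y ⟨i, 0⟩).eval 0 = 1 := fun i => by rw [hY0, hx0, map_one]
  have hYne : ∀ i, Y ⟨i, 0⟩ ≠ 0 := by
    intro i h0
    have := hY00 i
    rw [h0, eval_zero] at this
    exact zero_ne_one this
  set am : k[X] →+* RatFunc k := algebraMap k[X] (RatFunc k) with ham
  have hinj : Function.Injective am := IsFractionRing.injective k[X] (RatFunc k)
  have hane : ∀ i, am (Y ⟨i, 0⟩) ≠ 0 := by
    intro i h0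
    exact hYne i (hinj (by rw [h0, map_zero]))
  let y : (Σ i, Fin (n i)) → RatFunc k := fun p => am (Y ⟨p.1, p.2.succ⟩) / am (Y ⟨p.1, 0⟩)
  have hx' : AlgebraicIndependent ℂ (fun p : Σ i, Fin (n i) => h (x p.1 p.2)) :=
    alg_indep.map' (f := h) h.injective
  have hpl : ∀ p : Σ i, Fin (n i), Pl (y p) (h (x p.1 p.2)) := by
    intro p
    refine ⟨Y ⟨p.1, p.2.succ⟩, Y ⟨p.1, 0⟩, ?_, ?_, ?_⟩
    · rw [hY00]; exact one_ne_zero
    · exact div_mul_cancel₀ _ (hane p.1)
    · rw [hY0, hY00, mul_one]; simp [Uni.hom]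
  have hy : AlgebraicIndependent ℂ y := algebraicIndependent_of_pl hx' hpl
  have hcA : ∀ c : ℂ, algebraMap ℂ (RatFunc k) c = am (C (algebraMap ℂ k c)) := by
    intro c
    rw [MP_4329d7_ag_sq.algebraMap_ratFunc, ← RatFunc.algebraMap_C]
  let amA : k[X] →ₐ[ℂ] RatFunc k := { am with
    commutes' := fun c => by
      change am (algebraMap ℂ k[X] c) = _
      rw [hcA, Polynomial.algebraMap_apply] }
  have hamA : ∀ p, amA p = am p := fun _ => rfl
  -- the forms on the curve
  let G : E → MvPolynomial (Σ i, Fin (n i)) ℂ := fun e => MvPolynomial.aeval homX (F e)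
  have hGx : ∀ e, MvPolynomial.aeval (fun p : Σ i, Fin (n i) => x p.1 p.2) (G e) =
      MvPolynomial.aeval (Uni.hom x) (F e) := fun e => aeval_homX _ _
  have hGy : ∀ e, (∏ i, am (Y ⟨i, 0⟩) ^ d e i) * MvPolynomial.aeval y (G e) =
      am (C (h (MvPolynomial.aeval (Uni.hom x) (F e))) * revPoly β t e) := by
    intro e
    rw [← hY e, aeval_homX, ← multihom_scale (hom e) (fun i => am (Y ⟨i, 0⟩))]
    have h1 : (fun s : Co I n => am (Y ⟨s.1, 0⟩) * Uni.hom (fun i j => y ⟨i, j⟩) s) =
        fun s => amA (Y s) := by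
      funext s
      obtain ⟨i, j⟩ := s
      refine Fin.cases ?_ (fun j => ?_) j
      · simp [Uni.hom, hamA]
      · simp only [Uni.hom, Fin.cons_succ, hamA, y]
        exact mul_div_cancel₀ _ (hane i)
    rw [h1, ← hamA]
    have h2 : (MvPolynomial.aeval fun s => amA (Y s)) =
        amA.comp (MvPolynomial.aeval Y : MvPolynomial (Co I n) ℂ →ₐ[ℂ] k[X]) := by
      refine MvPolynomial.algHom_ext fun s => ?_
      rw [AlgHom.comp_apply, MvPolynomial.aeval_X, MvPolynomial.aeval_X]
    rw [h2, AlgHom.comp_apply]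
  obtain ⟨φ, hφ⟩ := exists_ext_kummer (R := RatFunc k) (N := N) alg_indep hy
    {z | ∃ c, (z, c) ∈ S} N_pos (by
      rintro z ⟨c, hzc⟩
      refine ⟨∏ e, G e ^ c e, ?_, ?_⟩
      · rw [rad z c hzc]
        simp only [map_prod, map_pow, hGx]
      -- the N-th root
      choose dd hdd using fun l => hβ l z c hzc
      choose m hm using deg z c hzc
      refine ⟨am (C (h z) * ∏ l, (1 - C (t l) * X) ^ dd l) / ∏ i, am (Y ⟨i, 0⟩) ^ m i, ?_⟩
      have hne : ∏ i, am (Y ⟨i, 0⟩) ^ m i ≠ 0 :=
        Finset.prod_ne_zero_iff.2 fun i _ => pow_ne_zero _ (hane i)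
      rw [div_pow, div_eq_iff (pow_ne_zero _ hne), ← Finset.prod_pow]
      have h1 : ∏ i, (am (Y ⟨i, 0⟩) ^ m i) ^ N = ∏ e, (∏ i, am (Y ⟨i, 0⟩) ^ d e i) ^ c e := by
        simp only [← Finset.prod_pow]
        rw [Finset.prod_comm]
        refine Finset.prod_congr rfl fun i _ => ?_
        simp only [← pow_mul]
        rw [Finset.prod_pow_eq_pow_sum]
        congr 1
        rw [mul_comm (m i) N, ← hm i]
        exact Finset.sum_congr rfl fun e _ => mul_comm _ _
      rw [h1]
      simp only [map_prod, map_pow]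
      rw [← Finset.prod_mul_distrib]
      have h2 : ∀ e, MvPolynomial.aeval y (G e) ^ c e * (∏ i, am (Y ⟨i, 0⟩) ^ d e i) ^ c e =
          am (C (h (MvPolynomial.aeval (Uni.hom x) (F e))) * revPoly β t e) ^ c e := by
        intro e
        rw [← mul_pow, mul_comm (MvPolynomial.aeval y (G e)), hGy e]
      simp only [h2]
      simp only [← map_pow, ← map_prod]
      congr 1
      simp only [mul_pow, Finset.prod_mul_distrib]
      congr 1
      · rw [← C_pow, ← map_pow, rad z c hzc]
        simp only [map_prod, map_pow]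
      · rw [← Finset.prod_pow]
        have h3 : ∀ l, ((1 - C (t l) * X) ^ dd l) ^ N =
            ∏ e, ((1 - C (t l) * X) ^ β l e) ^ c e := by
          intro l
          rw [← pow_mul, mul_comm (dd l) N, ← hdd l, ← Finset.prod_pow_eq_pow_sum]
          exact Finset.prod_congr rfl fun p _ => by rw [pow_mul]
        simp only [h3]
        rw [Finset.prod_comm]
        refine Finset.prod_congr rfl fun e _ => ?_
        rw [Finset.prod_pow]
        rfl) gen
  -- `K` is not uniruled: all values are constant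
  have hconst : ∀ w : K, ∃ e : k, φ w = RatFunc.C e := by
    by_contra hcon
    push Not at hcon
    obtain ⟨w, hw⟩ := hcon
    exact hK (uniruled_of_hom φ w hw)
  rintro ⟨i, j⟩
  refine Fin.cases ?_ (fun j => ?_) j
  · rw [hx0, map_one, C_1, one_mul]
  · obtain ⟨e, he⟩ := hconst (x i j)
    have h1 := hφ ⟨i, j⟩
    simp only at h1
    rw [he] at h1
    have h2 : am (Y ⟨i, j.succ⟩) = am (C e * Y ⟨i, 0⟩) := by
      rw [map_mul, ham, RatFunc.algebraMap_C, h1]
      exact (div_mul_cancel₀ _ (hane i)).symm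
    have h3 := hinj h2
    have h4 := congrArg (fun p => p.eval 0) h3
    simp only [eval_mul, eval_C, hY00, mul_one] at h4
    rw [h3, ← h4, hY0]

end main

/-- the relations for the reversed polynomials -/
theorem rev_of_isSol {ι Pt Q k : Type} [Fintype ι] [Fintype Pt] [Field k] {a : Q → Pt → k}
    {β : ι → Pt → ℕ} {t : ι → k} (h : IsSol a β t) (q : Q) (m : ℕ)
    (hm : ∀ p, a q p ≠ 0 → ∑ i, β i p = m) : ∑ p, C (a q p) * revPoly β t p = 0 := by
  have h1 := congrArg (reflect m) (h q)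
  rw [reflect_sum', reflect_zero] at h1
  rw [← h1]
  refine Finset.sum_congr rfl fun p _ => ?_
  rw [reflect_C_mul]
  by_cases h0 : a q p = 0
  · rw [h0, C_0, zero_mul, zero_mul]
  · rw [← hm p h0, reflect_rootPoly]

section star

variable {K : Type} [Field K] [Algebra ℂ K] {I : Type} [Fintype I] [DecidableEq I]
  {n : I → ℕ} {E : Type} [Fintype E] [DecidableEq E] {F : E → MvPolynomial (Co I n) ℂ}
  {d : E → I → ℕ} {N : ℕ} {x : (i : I) → Fin (n i) → K} {S : Set (K × (E → ℕ))}

/-- sums over the points -/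
theorem sum_pt {M : Type} [AddCommMonoid M] (f : Pt F → M) :
    ∑ p, f p = ∑ e, (f (Sum.inl ⟨e, none⟩) + ∑ μ : (F e).support, f (Sum.inl ⟨e, some μ⟩)) +
      ∑ s, f (Sum.inr s) := by
  rw [Fintype.sum_sum_type, Fintype.sum_sigma]
  simp only [Fintype.sum_option]

theorem coefP_sum {k : Type} [Field k] [Algebra ℂ k] (c : Co I n → k) (e : E) :
    ∑ p, coefP F c e p = 0 := by
  rw [sum_pt, Finset.sum_eq_single e]
  · simp only [coefP, Sum.elim_inl, Sum.elim_inr, if_true, Option.elim_none, Option.elim_some,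
      Finset.sum_const_zero, add_zero]
    rw [Finset.sum_coe_sort (F e).support (fun μ => algebraMap ℂ k (MvPolynomial.coeff μ (F e)) *
      μ.prod fun s j => c s ^ j), MvPolynomial.aeval_def, MvPolynomial.eval₂_eq]
    simp only [Finsupp.prod]
    ring
  · intro e' _ he'
    simp [coefP, he']
  · intro h
    exact absurd (Finset.mem_univ e) h

theorem coefP_coef {k : Type} [Field k] [Algebra ℂ k] (c : Co I n → k) :
    Coef (fac F) (Sum.inl : E → E ⊕ I) (coefP F c) := by
  refine ⟨fun e p hp => ?_, coefP_sum c⟩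
  rcases p with ⟨e', o⟩ | s
  · by_cases h : e' = e
    · subst h; rfl
    · exact absurd (by simp [coefP, h]) hp
  · exact absurd rfl hp

/-- if `K` is not uniruled then all rational curves given by roots are constant -/
theorem starP_of_not_uniruled [Algebra.EssFiniteType ℂ K] (D : SncData K I n E F d N x S)
    (hK : ¬ Uniruled K) {k : Type} [Field k] [Algebra ℂ k] (h : K →ₐ[ℂ] k) :
    StarP (BlkP F N S) (fac F) (coefP F fun s => h (Uni.hom x s)) := by
  classical
  intro ι _ β m hβ hpack t hsol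
  set c : Co I n → k := fun s => h (Uni.hom x s) with hc
  -- the values of the types
  have hmon : ∀ l e (μ : (F e).support), β l (Sum.inl ⟨e, some μ⟩) =
      ∑ s, μ.1 s * β l (Sum.inr s) := by
    intro l e μ
    rcases hβ l with ⟨b, _, hb⟩ | ⟨s, hs⟩
    · rw [hb]
      simp [liftB]
    · rw [hs]
      simp [liftC]
  let R : Co I n → k[X] := fun s => revPoly β t (Sum.inr s)
  have hRμ : ∀ e (μ : (F e).support), revPoly β t (Sum.inl ⟨e, some μ⟩) = ∏ s, R s ^ μ.1 s := by
    intro e μ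
    simp only [R, revPoly, ← Finset.prod_pow]
    rw [Finset.prod_comm]
    refine Finset.prod_congr rfl fun l _ => ?_
    rw [hmon, ← Finset.prod_pow_eq_pow_sum]
    refine Finset.prod_congr rfl fun s _ => ?_
    rw [← pow_mul, mul_comm (β l (Sum.inr s))]
  let Y : Co I n → k[X] := fun s => C (c s) * R s
  have hFY : ∀ e, MvPolynomial.aeval Y (F e) = C (h (MvPolynomial.aeval (Uni.hom x) (F e))) *
      revPoly β t (Sum.inl ⟨e, none⟩) := by
    intro e
    have h1 := rev_of_isSol hsol e (m (Sum.inl e)) (fun p hp => by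
      rw [hpack p, (coefP_coef c).fac e p hp])
    rw [sum_pt, Finset.sum_eq_single e] at h1
    · simp only [coefP, Sum.elim_inl, Sum.elim_inr, if_true, Option.elim_none, Option.elim_some,
        C_0, zero_mul, Finset.sum_const_zero, add_zero, hRμ] at h1
      rw [Finset.sum_coe_sort (F e).support (fun μ => C (algebraMap ℂ k
        (MvPolynomial.coeff μ (F e)) * μ.prod fun s j => c s ^ j) * ∏ s, R s ^ μ s)] at h1
      have h2 : MvPolynomial.aeval Y (F e) = ∑ μ ∈ (F e).support, C (algebraMap ℂ k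
          (MvPolynomial.coeff μ (F e)) * μ.prod fun s j => c s ^ j) * ∏ s, R s ^ μ s := by
        rw [MvPolynomial.aeval_def, MvPolynomial.eval₂_eq']
        refine Finset.sum_congr rfl fun μ _ => ?_
        rw [Finsupp.prod_fintype _ _ (fun _ => pow_zero _)]
        simp only [Y, mul_pow, Finset.prod_mul_distrib, C_mul, map_prod, map_pow,
          Polynomial.algebraMap_apply]
        ring
      have h3 : MvPolynomial.aeval c (F e) = h (MvPolynomial.aeval (Uni.hom x) (F e)) := by
        have h4 : (MvPolynomial.aeval c : MvPolynomial (Co I n) ℂ →ₐ[ℂ] k) =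
            h.comp (MvPolynomial.aeval (Uni.hom x)) := by
          refine MvPolynomial.algHom_ext fun s => ?_
          rw [AlgHom.comp_apply, MvPolynomial.aeval_X, MvPolynomial.aeval_X]
        rw [h4, AlgHom.comp_apply]
      rw [← h2, h3] at h1
      rw [C_neg] at h1
      linear_combination h1
    · intro e' _ he'
      simp [coefP, he']
    · intro h
      exact absurd (Finset.mem_univ e) h
  have hcurve := curve_constS D.N_pos D.hom D.alg_indep D.rad D.deg D.gen hK h
    (fun l e => β l (Sum.inl ⟨e, none⟩)) t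
    (by
      intro l z c' hz
      rcases hβ l with ⟨b, hb, hbl⟩ | ⟨s, hs⟩
      · rw [hbl]
        exact hb.2.1 z c' hz
      · rw [hs]
        simp [liftC])
    Y (fun s => by
      simp only [Y, R, eval_mul, eval_C]
      rw [eval_revPoly, mul_one]) hFY
  -- `R s` depends only on the factor
  have hc0 : ∀ s, c s ≠ 0 := by
    intro s
    refine (_root_.map_ne_zero h).2 ?_
    obtain ⟨i, j⟩ := s
    refine Fin.cases ?_ (fun j => ?_) j
    · simp [Uni.hom]
    · intro h0
      have h1 : x i j = 0 := by simpa [Uni.hom] using h0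
      exact D.alg_indep.ne_zero ⟨i, j⟩ h1
  have hR : ∀ s, R s = R ⟨s.1, 0⟩ := by
    intro s
    have h1 := hcurve s
    simp only [Y] at h1
    have h2 : c ⟨s.1, 0⟩ = 1 := by simp [hc, Uni.hom]
    rw [h2, C_1, one_mul] at h1
    exact mul_left_cancel₀ (C_ne_zero.2 (hc0 s)) h1
  have hnone : ∀ e, revPoly β t (Sum.inl ⟨e, none⟩) = ∏ i, R ⟨i, 0⟩ ^ d e i := by
    intro e
    have h1 := hFY e
    have h2 : Y = fun s => R ⟨s.1, 0⟩ * C (c s) := by
      funext s
      simp only [Y]
      rw [hR s, mul_comm]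
    rw [h2, multihom_scale (D.hom e) (fun i => R ⟨i, 0⟩) (fun s => C (c s))] at h1
    have h3 : MvPolynomial.aeval (fun s => (C (c s) : k[X])) (F e) =
        C (h (MvPolynomial.aeval (Uni.hom x) (F e))) := by
      have h4 : (MvPolynomial.aeval (fun s => (C (c s) : k[X])) :
          MvPolynomial (Co I n) ℂ →ₐ[ℂ] k[X]) =
          ((Polynomial.CAlgHom (R := ℂ) (A := k)).comp h).comp
            (MvPolynomial.aeval (Uni.hom x)) := by
        refine MvPolynomial.algHom_ext fun s => ?_
        rw [AlgHom.comp_apply, MvPolynomial.aeval_X, MvPolynomial.aeval_X]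
        rfl
      rw [h4]
      rfl
    rw [h3, mul_comm] at h1
    have hne : h (MvPolynomial.aeval (Uni.hom x) (F e)) ≠ 0 :=
       (_root_.map_ne_zero h).2 (D.aeval_ne_zero e)
    exact (mul_left_cancel₀ (C_ne_zero.2 hne) h1).symm
  have hsome : ∀ e (μ : (F e).support), revPoly β t (Sum.inl ⟨e, some μ⟩) =
      ∏ i, R ⟨i, 0⟩ ^ d e i := by
    intro e μ
    rw [hRμ, Fintype.prod_sigma]
    refine Finset.prod_congr rfl fun i _ => ?_
    rw [← sum_monomial (D.hom e i) μ.2, ← Finset.prod_pow_eq_pow_sum]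
    exact Finset.prod_congr rfl fun j _ => by rw [hR]
  -- the conclusion
  intro p p' hpp
  rw [← reflect_revPoly, ← reflect_revPoly, hpack, hpack, hpp]
  congr 1
  rcases p with ⟨e, o⟩ | s <;> rcases p' with ⟨e', o'⟩ | s'
  · have he : e = e' := Sum.inl.inj hpp
    subst he
    rcases o with _ | μ <;> rcases o' with _ | μ'
    · rfl
    · rw [hnone, hsome]
    · rw [hnone, hsome]
    · rw [hsome, hsome]
  · exact absurd hpp (by simp [fac])
  · exact absurd hpp (by simp [fac])
  · have hs : s.1 = s'.1 := Sum.inr.inj hpp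
    change R s = R s'
    rw [hR s, hR s', hs]

end star

end Pool.Agent.Work.Snc
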