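import Mathlib
import Pool.Agent.Work.MP_4329d7_ag_snc.Defs
import Pool.Agent.Work.MP_4329d7_ag_uni.EqCase

/-!
The equality case for an arbitrary set of blocks (helper7's proof).
-/

set_option linter.unusedSectionVars false

namespace Pool.Agent.Work.Snc

open Polynomial Pool.Agent.Work.Uni

section Key

variable {k Pt Q I : Type} [Field k] [IsAlgClosed k] [CharZero k] [Fintype Pt]
  [DecidableEq Pt] [Fintype Q] [Fintype I] [DecidableEq I]

/-- a function of the factor is in `L` -/
theorem factor_memP {L : AddSubgroup (Pt → ℤ)} {f : Pt → I}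
    (hone : ∀ i, (fun p => if f p = i then (1 : ℤ) else 0) ∈ L) (z : I → ℤ) :
    (fun p => z (f p)) ∈ L := by
  have h : (fun p => z (f p)) = ∑ i, z i • (fun p => if f p = i then (1 : ℤ) else 0) := by
    funext p
    rw [Finset.sum_apply]
    simp
  rw [h]
  exact AddSubgroup.sum_mem _ fun i _ => AddSubgroup.zsmul_mem _ (hone i) _

theorem key_injP {Blk : (Pt → ℕ) → Prop} {f : Pt → I} {g : Q → I} {a : Q → Pt → k}
    (ha : Coef f g a) (hstar : StarP Blk f a)
    {Y : Type} [Fintype Y] [DecidableEq Y] {v : Y → Pt → ℕ} {ν : Y → ℕ}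
    (hv : ∀ y, Blk (v y)) {e : Pt} {n : ℕ}
    (hE : Blk (Pi.single e n)) {μ : I → ℕ}
    (hpack : ∀ p, (if p = e then n else 0) + ∑ y, ν y * v y p = μ (f p))
    (hsum : ∑ y, ν y = ∑ q, μ (g q))
    (hcard : Fintype.card Y = Fintype.card {q // 1 ≤ μ (g q)})
    (hind : Indep f v) (x : Y → k)
    (hx : ∀ q, 1 ≤ μ (g q) → ∑ y, (∑ p, a q p * (v y p : k)) * x y = 0) : x = 0 := by
  classical
  by_contra hx0
  obtain ⟨c, hc, hcy⟩ := exists_row_dep (k := k) (Q := {q // 1 ≤ μ (g q)}) hcard
    (fun q y => ∑ p, a q.1 p * (v y p : k)) x hx0 (fun q => hx q.1 q.2)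
  let c' : Q → k := fun q => if h : 1 ≤ μ (g q) then c ⟨q, h⟩ else 0
  have hc'sum : ∀ F : Q → k, ∑ q, c' q * F q = ∑ q : {q // 1 ≤ μ (g q)}, c q * F q.1 := by
    intro F
    rw [← Finset.sum_filter_add_sum_filter_not Finset.univ (fun q => 1 ≤ μ (g q))]
    have h2 : ∑ q ∈ Finset.univ.filter (fun q => ¬ 1 ≤ μ (g q)), c' q * F q = 0 := by
      apply Finset.sum_eq_zero
      intro q hq
      simp only [c', dif_neg (Finset.mem_filter.mp hq).2, zero_mul]
    rw [h2, add_zero, ← Finset.sum_subtype_eq_sum_filter, Finset.subtype_univ]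
    apply Finset.sum_congr rfl
    intro q _
    simp only [c', dif_pos q.2]
  have hcv : ∀ y, ∑ q, c' q * ∑ p, a q p * (v y p : k) = 0 := by
    intro y
    rw [hc'sum]
    exact hcy y
  have hcE : ∑ q, c' q * ∑ p, a q p * ((Pi.single e n : Pt → ℕ) p : k) = 0 := by
    have h1 : ∀ q, ∑ p, a q p * ((Pi.single e n : Pt → ℕ) p : k)
        = - ∑ y, (ν y : k) * ∑ p, a q p * (v y p : k) := by
      intro q
      have h2 : ∑ p, a q p * (μ (f p) : k) = 0 := by
        have h3 : ∀ p, a q p * (μ (f p) : k) = (μ (g q) : k) * a q p := by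
          intro p
          by_cases h0 : a q p = 0
          · simp [h0]
          · rw [ha.fac q p h0]; ring
        simp only [h3]
        rw [← Finset.mul_sum, ha.sum q, mul_zero]
      have h4 : ∑ p, a q p * (μ (f p) : k) = ∑ p, a q p * ((Pi.single e n : Pt → ℕ) p : k)
          + ∑ y, (ν y : k) * ∑ p, a q p * (v y p : k) := by
        have h5 : ∀ p, (μ (f p) : k) = ((Pi.single e n : Pt → ℕ) p : k)
            + ∑ y, (ν y : k) * (v y p : k) := by
          intro p
          rw [← hpack p]
          push_cast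
          congr 1
          by_cases h : p = e
          · subst h; simp
          · simp [h]
        simp only [h5, mul_add, Finset.sum_add_distrib]
        congr 1
        simp only [Finset.mul_sum]
        rw [Finset.sum_comm]
        apply Finset.sum_congr rfl
        intro y _
        apply Finset.sum_congr rfl
        intro p _
        ring
      rw [h2] at h4
      linear_combination -h4
    simp only [h1, mul_neg, Finset.sum_neg_distrib, neg_eq_zero]
    simp only [Finset.mul_sum]
    rw [Finset.sum_comm]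
    apply Finset.sum_eq_zero
    intro y _
    have h6 := hcv y
    have h7 : ∑ q, ∑ p, c' q * ((ν y : k) * (a q p * (v y p : k)))
        = (ν y : k) * ∑ q, c' q * ∑ p, a q p * (v y p : k) := by
      simp only [Finset.mul_sum]
      apply Finset.sum_congr rfl
      intro q _
      apply Finset.sum_congr rfl
      intro p _
      ring
    rw [h7, h6, mul_zero]
  -- the system
  let β : Option (Σ y, Fin (ν y)) → Pt → ℕ := fun i => i.elim (Pi.single e n) (fun z => v z.1)
  have hβ0 : β none = Pi.single e n := rfl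
  have hβ1 : ∀ z, β (some z) = v z.1 := fun _ => rfl
  have hsumβ : ∀ p, ∑ i, β i p = μ (f p) := by
    intro p
    rw [Fintype.sum_option, hβ0, Fintype.sum_sigma, ← hpack p]
    congr 1
    · by_cases h : p = e
      · subst h; simp
      · simp [h]
    · apply Finset.sum_congr rfl
      intro y _
      simp [hβ1]
  have hblock : ∀ i, Blk (β i) := by
    rintro (_ | z)
    · exact hE
    · exact hv z.1
  obtain ⟨t, ht, i, j, hij⟩ := exists_nonconst_sol_of_dep a ha.sum β (fun q => μ (g q))
    (fun q p h => by rw [hsumβ p, ha.fac q p h])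
    (by rw [Fintype.card_option, Fintype.card_sigma]; simp [hsum]) c'
    (by
      by_contra hcon
      push Not at hcon
      apply hc
      funext q
      have := hcon q.1
      simp only [c', dif_pos q.2] at this
      exact this)
    (by
      intro q hq
      by_contra h
      apply hq
      simp only [c', dif_neg h])
    (by
      rintro (_ | z)
      · exact hcE
      · exact hcv z.1)
  have hconst := hstar _ β μ hblock hsumβ t ht
  have hgp := group_pack f β t hconst
  have hall : ∀ z, t (some z) = t none := by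
    intro z
    by_contra hne
    have hemp := group_empty hind (Finset.univ.filter fun z' => t (some z') = t (some z))
      (fun z' : Σ y, Fin (ν y) => z'.1) (by
        intro p p' hpp
        have h1 := hgp (t (some z)) p p' hpp
        have h2 : ∀ p, ∑ i with t i = t (some z), β i p
            = ∑ z' with t (some z') = t (some z), v z'.1 p := by
          intro p
          rw [Finset.sum_filter, Fintype.sum_option, if_neg (fun h => hne h.symm), zero_add,
            Finset.sum_filter]
          rfl
        rw [h2, h2] at h1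
        exact h1)
    have : z ∈ (∅ : Finset (Σ y, Fin (ν y))) := by
      rw [← hemp]
      simp
    exact Finset.notMem_empty _ this
  have hall' : ∀ i, t i = t none := by
    rintro (_ | z)
    · rfl
    · exact hall z
  exact hij ((hall' i).trans (hall' j).symm)

theorem keyP {Blk : (Pt → ℕ) → Prop} {L : AddSubgroup (Pt → ℤ)}
    (hBL : ∀ b, Blk b → (fun p => (b p : ℤ)) ∈ L) {f : Pt → I} {g : Q → I} {a : Q → Pt → k}
    (ha : Coef f g a) (hstar : StarP Blk f a)
    (hone : ∀ i, (fun p => if f p = i then (1 : ℤ) else 0) ∈ L)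
    {Y : Type} [Fintype Y] [DecidableEq Y] {v : Y → Pt → ℕ} {ν : Y → ℕ}
    (hv : ∀ y, Blk (v y)) {e : Pt} {n : ℕ} (hn : 2 ≤ n)
    (hE : Blk (Pi.single e n))
    (hmin : ∀ c : ℕ, (Pi.single e (c : ℤ) : Pt → ℤ) ∈ L → n ∣ c) {μ : I → ℕ}
    (hpack : ∀ p, (if p = e then n else 0) + ∑ y, ν y * v y p = μ (f p))
    (hsum : ∑ y, ν y = ∑ q, μ (g q))
    (hcard : Fintype.card Y = Fintype.card {q // 1 ≤ μ (g q)})
    (hind : Indep f v) : False := by
  classical
  have hinj := key_injP ha hstar hv hE hpack hsum hcard hind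
  have hsumβ : ∀ p, ∑ i, modBlocks v ν e n i p = μ (f p) := by
    intro p
    rw [sum_modBlocks_card, hpack]
  obtain ⟨t, ht, i, j, hij⟩ := exists_nonconst_sol a ha.sum (modBlocks v ν e n)
    (fun q => μ (g q)) (fun q p h => by rw [hsumβ p, ha.fac q p h])
    (by
      rw [Fintype.card_sum, Fintype.card_fin, Fintype.card_sigma]
      simp only [Fintype.card_fin]
      rw [hsum]
      omega)
  have hconst := eq_curve_const ha v ν e n (by omega) μ hpack hinj t ht
  have hgp := group_pack f (modBlocks v ν e n) t hconst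
  have hsplit : ∀ s p, ∑ i with t i = s, modBlocks v ν e n i p
      = (if p = e then (Finset.univ.filter fun i : Fin n => t (Sum.inl i) = s).card else 0)
        + ∑ z with t (Sum.inr z) = s, v (z : Σ y, Fin (ν y)).1 p := by
    intro s p
    rw [Finset.sum_filter, Fintype.sum_sum_type]
    congr 1
    · rw [← Finset.sum_filter]
      have : ∀ i : Fin n, modBlocks v ν e n (Sum.inl i) p = if p = e then 1 else 0 := by
        intro i
        simp only [modBlocks, Sum.elim_inl]
        by_cases h : p = e
        · subst h; simp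
        · simp [h]
      simp only [this]
      by_cases h : p = e <;> simp [h]
    · rw [← Finset.sum_filter]
      rfl
  -- the number of copies of `e` in a group is divisible by `n`
  have hdvd : ∀ s, n ∣ (Finset.univ.filter fun i : Fin n => t (Sum.inl i) = s).card := by
    intro s
    apply hmin
    obtain ⟨z, hz⟩ := exists_factor f (fun p => ∑ i with t i = s, modBlocks v ν e n i p)
      (hgp s)
    have h1 : (Pi.single e (((Finset.univ.filter fun i : Fin n => t (Sum.inl i) = s).card : ℕ)
          : ℤ) : Pt → ℤ)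
        = (fun p => (z (f p) : ℤ)) - ∑ x with t (Sum.inr x) = s,
          (fun p => (v (x : Σ y, Fin (ν y)).1 p : ℤ)) := by
      funext p
      rw [Pi.sub_apply, Finset.sum_apply, ← hz p, hsplit]
      push_cast
      by_cases h : p = e
      · subst h; simp
      · simp [h]
    rw [h1]
    apply AddSubgroup.sub_mem
    · exact factor_memP hone (fun i => (z i : ℤ))
    · exact AddSubgroup.sum_mem _ fun x _ => hBL _ (hv x.1)
  have hempty : ∀ s, (Finset.univ.filter fun i : Fin n => t (Sum.inl i) = s).card = 0 →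
      ∀ z, t (Sum.inr z) ≠ s := by
    intro s hs z hz
    have hemp := group_empty hind (Finset.univ.filter fun z' => t (Sum.inr z') = s)
      (fun z' : Σ y, Fin (ν y) => z'.1) (by
        intro p p' hpp
        have h1 := hgp s p p' hpp
        rw [hsplit, hsplit, hs] at h1
        simpa using h1)
    have : z ∈ (∅ : Finset (Σ y, Fin (ν y))) := by
      rw [← hemp]
      simp [hz]
    exact Finset.notMem_empty _ this
  obtain ⟨i0, hi0⟩ : ∃ i0 : Fin n, i0 = ⟨0, by omega⟩ := ⟨_, rfl⟩
  have hle : ∀ s, (Finset.univ.filter fun i : Fin n => t (Sum.inl i) = s).card ≤ n := by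
    intro s
    refine (Finset.card_le_univ _).trans (by simp)
  have hfull : ∀ i : Fin n, t (Sum.inl i) = t (Sum.inl i0) := by
    have h1 : 0 < (Finset.univ.filter fun i : Fin n => t (Sum.inl i) = t (Sum.inl i0)).card :=
      Finset.card_pos.mpr ⟨i0, by simp⟩
    have h2 := Nat.le_of_dvd h1 (hdvd (t (Sum.inl i0)))
    have h3 := hle (t (Sum.inl i0))
    have h4 : (Finset.univ.filter fun i : Fin n => t (Sum.inl i) = t (Sum.inl i0)).card
        = (Finset.univ : Finset (Fin n)).card := by
      rw [Finset.card_univ, Fintype.card_fin]; omega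
    have h5 := (Finset.card_eq_iff_eq_univ _).mp (h4.trans (by simp))
    intro i
    have : i ∈ (Finset.univ.filter fun i : Fin n => t (Sum.inl i) = t (Sum.inl i0)) := by
      rw [h5]; exact Finset.mem_univ _
    exact (Finset.mem_filter.mp this).2
  have hall : ∀ i, t i = t (Sum.inl i0) := by
    rintro (i | z)
    · exact hfull i
    · by_contra hne
      apply hempty (t (Sum.inr z)) _ z rfl
      rw [Finset.card_eq_zero, Finset.filter_eq_empty_iff]
      intro i _ h
      exact hne (h.symm.trans (hfull i))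
  exact hij ((hall i).trans (hall j).symm)

end Key


/-- the equality case -/
theorem eq_caseP {k Pt Q I : Type} [Field k] [IsAlgClosed k] [CharZero k] [Fintype Pt]
    [DecidableEq Pt] [Fintype Q] [Fintype I] [DecidableEq I] (Blk : (Pt → ℕ) → Prop)
    (L : AddSubgroup (Pt → ℤ)) (hBL : ∀ b, Blk b → (fun p => (b p : ℤ)) ∈ L)
    (f : Pt → I) (g : Q → I) (a : Q → Pt → k) (ha : Coef f g a) (hstar : StarP Blk f a)
    (hcrit : CritP Blk f g)
    (hone : ∀ i, (fun p => if f p = i then (1 : ℤ) else 0) ∈ L)
    (Ty : Type) [Fintype Ty] (b : Ty → Pt → ℕ) (lam : Ty → ℕ) (m : I → ℕ)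
    (hb : ∀ t, Blk (b t)) (hext : IsExt f b lam m) (heq : ∑ t, lam t = ∑ q, m (g q) + 1)
    (y0 : Ty) (hy0 : lam y0 = 1) (e : Pt) (n : ℕ) (F : Pt → ℕ) (hn2 : 2 ≤ n)
    (hE : Blk (Pi.single e n)) (hFB : Blk F)
    (hFe : ∀ p, (if p = e then n else 0) + F p = n * b y0 p)
    (hmin : ∀ c : ℕ, (Pi.single e (c : ℤ) : Pt → ℤ) ∈ L → n ∣ c) : False := by
  classical
  -- the system
  have hind : Indep f (fun y : {y // y ≠ y0} => b y) := indep_of_ext hext y0
  let X : Type := Fin n × (Σ y : {y // y ≠ y0}, Fin (lam y))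
  let τ : X → {y // y ≠ y0} := fun x => x.2.1
  let β : X ⊕ Bool → Pt → ℕ :=
    Sum.elim (fun x => b (τ x)) (fun s => if s then Pi.single e n else F)
  have hβx : ∀ x, β (Sum.inl x) = b (τ x) := fun _ => rfl
  have hβt : β (Sum.inr true) = Pi.single e n := rfl
  have hβf : β (Sum.inr false) = F := rfl
  have hsumX : ∀ G : {y // y ≠ y0} → ℕ, ∑ x : X, G (τ x)
      = n * ∑ y : {y // y ≠ y0}, lam y * G y := by
    intro G
    rw [Fintype.sum_prod_type]
    simp only [τ]
    rw [Finset.sum_const, Finset.card_univ, Fintype.card_fin, smul_eq_mul, Fintype.sum_sigma]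
    congr 1
    apply Finset.sum_congr rfl
    intro y _
    simp
  have hsumy : ∀ G : Ty → ℕ, ∑ y, lam y * G y = G y0 + ∑ y : {y // y ≠ y0}, lam y * G y := by
    intro G
    rw [← Finset.sum_filter_add_sum_filter_not Finset.univ (fun y => y ≠ y0), add_comm]
    congr 1
    · have h1 : Finset.univ.filter (fun y => ¬ y ≠ y0) = {y0} := by
        ext y; simp
      rw [h1, Finset.sum_singleton, hy0, one_mul]
    · rw [← Finset.sum_subtype_eq_sum_filter, Finset.subtype_univ]
  have hsingle : ∀ p, (Pi.single e n : Pt → ℕ) p = if p = e then n else 0 := by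
    intro p
    by_cases h : p = e
    · subst h; simp
    · simp [h]
  have hsumβ : ∀ p, ∑ i, β i p = n * m (f p) := by
    intro p
    rw [Fintype.sum_sum_type, Fintype.sum_bool, hβt, hβf, hsingle, hFe]
    simp only [hβx]
    rw [hsumX (fun y => b y p), ← hext.pack p, hsumy (fun y => b y p)]
    ring
  have hblock : ∀ i, Blk (β i) := by
    rintro (x | s)
    · exact hb _
    · cases s
      · exact hFB
      · exact hE
  have hcardX : Fintype.card X = n * ∑ q, m (g q) := by
    have h1 := hsumX (fun _ => 1)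
    simp only [Finset.sum_const, Finset.card_univ, smul_eq_mul, mul_one] at h1
    have h2 := hsumy (fun _ => 1)
    simp only [mul_one] at h2
    rw [h1]
    congr 1
    omega
  obtain ⟨t, ht, i, j, hij⟩ := exists_nonconst_sol a ha.sum β (fun q => n * m (g q))
    (fun q p h => by rw [hsumβ p, ha.fac q p h])
    (by
      rw [Fintype.card_sum, hcardX, Fintype.card_bool, Finset.mul_sum])
  have hconst := hstar _ β (fun i => n * m i) hblock hsumβ t ht
  have hgp := group_pack f β t hconst
  have hsplit : ∀ s p, ∑ i with t i = s, β i p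
      = ∑ x with t (Sum.inl x) = s, b (τ x) p
        + ((if t (Sum.inr true) = s then (if p = e then n else 0) else 0)
          + (if t (Sum.inr false) = s then F p else 0)) := by
    intro s p
    rw [Finset.sum_filter, Fintype.sum_sum_type, Fintype.sum_bool, hβt, hβf, hsingle,
      ← Finset.sum_filter]
    rfl
  obtain ⟨s1, hs1⟩ : ∃ s1, s1 = t (Sum.inr true) := ⟨_, rfl⟩
  obtain ⟨s2, hs2⟩ : ∃ s2, s2 = t (Sum.inr false) := ⟨_, rfl⟩
  simp only [← hs1, ← hs2] at hsplit
  have hX : ∀ x, t (Sum.inl x) = s1 ∨ t (Sum.inl x) = s2 := by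
    intro x
    by_contra hcon
    push Not at hcon
    have hemp := group_empty hind (Finset.univ.filter fun x' => t (Sum.inl x') = t (Sum.inl x))
      τ (by
        intro p p' hpp
        have h1 := hgp (t (Sum.inl x)) p p' hpp
        rw [hsplit, hsplit] at h1
        simpa only [if_neg (Ne.symm hcon.1), if_neg (Ne.symm hcon.2), add_zero] using h1)
    have : x ∈ (∅ : Finset X) := by
      rw [← hemp]
      simp
    exact Finset.notMem_empty _ this
  have h12 : s1 ≠ s2 := by
    intro h
    have hall : ∀ i, t i = s1 := by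
      rintro (x | s)
      · rcases hX x with h1 | h1
        · exact h1
        · exact h1.trans h.symm
      · cases s
        · exact hs2.symm.trans h.symm
        · exact hs1.symm
    exact hij ((hall i).trans (hall j).symm)
  -- the two packings
  obtain ⟨ν1, hν1⟩ : ∃ ν1 : {y // y ≠ y0} → ℕ, ν1 = fun y =>
    ((Finset.univ.filter fun x => t (Sum.inl x) = s1).filter fun x => τ x = y).card := ⟨_, rfl⟩
  obtain ⟨ν2, hν2⟩ : ∃ ν2 : {y // y ≠ y0} → ℕ, ν2 = fun y =>
    ((Finset.univ.filter fun x => t (Sum.inl x) = s2).filter fun x => τ x = y).card := ⟨_, rfl⟩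
  have hg1 : ∀ p, ∑ i with t i = s1, β i p
      = (if p = e then n else 0) + ∑ y, ν1 y * b y p := by
    intro p
    rw [hsplit, if_pos rfl, if_neg (Ne.symm h12), add_zero,
      sum_group _ τ (fun y => b y p), hν1, add_comm]
  have hg2 : ∀ p, ∑ i with t i = s2, β i p = F p + ∑ y, ν2 y * b y p := by
    intro p
    rw [hsplit, if_neg h12, if_pos rfl, zero_add,
      sum_group _ τ (fun y => b y p), hν2, add_comm]
  have hg12 : ∀ p, ((if p = e then n else 0) + ∑ y, ν1 y * b y p)
      + (F p + ∑ y, ν2 y * b y p) = n * m (f p) := by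
    intro p
    rw [← hg1, ← hg2, ← hsumβ p, ← Finset.sum_union]
    · apply Finset.sum_congr _ fun _ _ => rfl
      ext i
      simp only [Finset.mem_union, Finset.mem_filter, Finset.mem_univ, true_and, iff_true]
      rcases i with x | s
      · exact hX x
      · cases s
        · right; exact hs2.symm
        · left; exact hs1.symm
    · rw [Finset.disjoint_filter]
      intro i _ h1 h2
      exact h12 (h1.symm.trans h2)
  have hcards : ∑ y, ν1 y + ∑ y, ν2 y = n * ∑ q, m (g q) := by
    have h1 : ∑ y, ν1 y = (Finset.univ.filter fun x => t (Sum.inl x) = s1).card := by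
      have := sum_group (Finset.univ.filter fun x => t (Sum.inl x) = s1) τ (fun _ => 1)
      simp only [Finset.sum_const, smul_eq_mul, mul_one] at this
      rw [this, hν1]
    have h2 : ∑ y, ν2 y = (Finset.univ.filter fun x => t (Sum.inl x) = s2).card := by
      have := sum_group (Finset.univ.filter fun x => t (Sum.inl x) = s2) τ (fun _ => 1)
      simp only [Finset.sum_const, smul_eq_mul, mul_one] at this
      rw [this, hν2]
    rw [h1, h2, ← hcardX, ← Finset.card_union_of_disjoint, ← Finset.card_univ]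
    · congr 1
      ext x
      simp only [Finset.mem_union, Finset.mem_filter, Finset.mem_univ, true_and, iff_true]
      exact hX x
    · rw [Finset.disjoint_filter]
      intro i _ h1 h2
      exact h12 (h1.symm.trans h2)
  obtain ⟨z1, hz1⟩ := exists_factor f (fun p => ∑ i with t i = s1, β i p) (hgp s1)
  obtain ⟨z2, hz2⟩ := exists_factor f (fun p => ∑ i with t i = s2, β i p) (hgp s2)
  obtain ⟨μ1, hμ1⟩ : ∃ μ1 : I → ℕ, μ1 = fun i => if ∃ p, f p = i then z1 i else n * m i :=
    ⟨_, rfl⟩
  obtain ⟨μ2, hμ2⟩ : ∃ μ2 : I → ℕ, μ2 = fun i => if ∃ p, f p = i then z2 i else 0 :=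
    ⟨_, rfl⟩
  have hp1 : ∀ p, (if p = e then n else 0) + ∑ y, ν1 y * b y p = μ1 (f p) := by
    intro p
    have h1 : μ1 (f p) = z1 (f p) := by rw [hμ1]; exact if_pos ⟨p, rfl⟩
    rw [h1, ← hz1 p, hg1]
  have hp2 : ∀ p, F p + ∑ y, ν2 y * b y p = μ2 (f p) := by
    intro p
    have h1 : μ2 (f p) = z2 (f p) := by rw [hμ2]; exact if_pos ⟨p, rfl⟩
    rw [h1, ← hz2 p, hg2]
  have hμ12 : ∀ i, μ1 i + μ2 i = n * m i := by
    intro i
    by_cases h : ∃ p, f p = i
    · obtain ⟨p, rfl⟩ := h
      rw [← hp1, ← hp2, hg12]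
    · rw [hμ1, hμ2]
      simp only [if_neg h, add_zero]
  have hp1' : ∀ p, (Pi.single e n : Pt → ℕ) p + ∑ y, ν1 y * b y p = μ1 (f p) := by
    intro p
    rw [hsingle, hp1]
  have hext1 := ext_option hind ν1 (Pi.single e n) μ1 hp1'
  have hext2 := ext_option hind ν2 F μ2 hp2
  obtain ⟨hc1, hc1'⟩ := hcrit _ _ _ _ (by
    rintro (_ | y)
    · exact hE
    · exact hb _) hext1
  obtain ⟨hc2, -⟩ := hcrit _ _ _ _ (by
    rintro (_ | y)
    · exact hFB
    · exact hb _) hext2
  rw [Fintype.sum_option] at hc1 hc2 hc1'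
  simp only [Option.elim_none, Option.elim_some] at hc1 hc2 hc1'
  rw [sum_subtype_pos] at hc1 hc2 hc1'
  have hμs : ∑ q, μ1 (g q) + ∑ q, μ2 (g q) = n * ∑ q, m (g q) := by
    rw [← Finset.sum_add_distrib, Finset.mul_sum]
    exact Finset.sum_congr rfl fun q _ => hμ12 _
  have hsum1 : ∑ y, ν1 y = ∑ q, μ1 (g q) := by omega
  have hJ1 := hc1' (by omega) 1 le_rfl
  have hcard1 : Fintype.card {y : {y // y ≠ y0} // 1 ≤ ν1 y}
      = Fintype.card {q // 1 ≤ μ1 (g q)} := by
    rw [Fintype.sum_option] at hJ1
    simp only [Option.elim_none, Option.elim_some] at hJ1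
    have h1 : ∑ y : {y : {y // y ≠ y0} // 1 ≤ ν1 y}, min (ν1 y) 1
        = Fintype.card {y : {y // y ≠ y0} // 1 ≤ ν1 y} := by
      rw [Finset.sum_congr rfl (fun y _ => min_eq_right y.2)]
      simp
    have h2 : ∑ q, min (μ1 (g q)) 1 = Fintype.card {q // 1 ≤ μ1 (g q)} := by
      rw [Fintype.card_subtype, Finset.card_filter]
      apply Finset.sum_congr rfl
      intro q _
      split_ifs with h
      · exact min_eq_right h
      · omega
    omega
  refine keyP hBL ha hstar hone (Y := {y : {y // y ≠ y0} // 1 ≤ ν1 y}) (v := fun y => b y.1.1)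
    (ν := fun y => ν1 y.1) (fun y => hb _) hn2 hE hmin (μ := μ1) ?_ ?_ hcard1
    (hind.subtype fun y => 1 ≤ ν1 y)
  · intro p
    rw [sum_subtype_mul ν1 (fun y => b y p), hp1]
  · rw [sum_subtype_pos, hsum1]

end Pool.Agent.Work.Snc
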