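import Mathlib
import Pool.Agent.Work.MP_4329d7_ag_snc.Curve
import Pool.Agent.Work.MP_4329d7_ag_uni.FormsVal

/-!
Forms, part A: change of coordinates by multihomogeneous polynomials, logarithmic determinants
with Euler rows of arbitrary degrees (helper44).
-/

set_option linter.style.haveILetI false

open scoped WithZero

namespace Pool.Agent.Work.Snc

open Pool.Agent.Work.MP_4329d7_ag.FF Pool.Agent.Work.Uni MvPolynomial

section chain

variable {K : Type} [Field K] [Algebra ℂ K]

/-- the chain rule -/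
theorem derivation_aeval {σ : Type} [Fintype σ] (D : Derivation ℂ K K) (X : σ → K)
    (G : MvPolynomial σ ℂ) :
    D (aeval X G) = ∑ s, aeval X (pderiv s G) * D (X s) := by
  classical
  induction G using MvPolynomial.induction_on with
  | C a =>
    simp only [aeval_C, Derivation.map_algebraMap, pderiv_C, map_zero, zero_mul,
      Finset.sum_const_zero]
  | add p q hp hq => simp only [map_add, hp, hq, add_mul, Finset.sum_add_distrib]
  | mul_X p i hp =>
    rw [map_mul, Derivation.leibniz, hp, aeval_X]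
    simp only [Derivation.leibniz, map_add, smul_eq_mul, map_mul, aeval_X, add_mul,
      Finset.sum_add_distrib]
    congr 1
    · rw [Finset.sum_eq_single i]
      · simp
      · intro j _ hj
        simp [pderiv_X_of_ne hj.symm]
      · intro h
        exact absurd (Finset.mem_univ i) h
    · rw [Finset.mul_sum]
      exact Finset.sum_congr rfl fun j _ => by ring

variable {I : Type} [Fintype I] [DecidableEq I] {n : I → ℕ}

/-- Euler's identity for one factor -/
theorem euler_factor (X : Co I n → K) {G : MvPolynomial (Co I n) ℂ} {i : I} {δ : ℕ}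
    (hG : G.IsWeightedHomogeneous (wt i) δ) :
    ∑ s, (if i = s.1 then X s else 0) * aeval X (pderiv s G) = (δ : K) * aeval X G := by
  have h1 := congrArg (aeval X) hG.sum_weight_X_mul_pderiv
  rw [map_sum, map_nsmul, nsmul_eq_mul] at h1
  rw [← h1]
  refine Finset.sum_congr rfl fun s _ => ?_
  by_cases h : i = s.1
  · simp [wt, h]
  · simp [wt, h, Ne.symm h]

end chain

section det

variable {K : Type} [Field K] [Algebra ℂ K] {I : Type} [Fintype I] [DecidableEq I] {n : I → ℕ}

/-- the matrix with Euler rows of the degrees `δ` -/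
def wmD (δ : Co I n → I → ℕ) (g : Co I n → K) (D : (Σ i, Fin (n i)) → Derivation ℂ K K) :
    Matrix (Co I n) (Co I n) K :=
  Matrix.of fun r s => match rowOf r with
    | some p => D p (g s)
    | none => (δ s r.1 : K) * g s

/-- the logarithmic matrix with Euler rows of the degrees `δ` -/
def lmD (δ : Co I n → I → ℕ) (g : Co I n → K) (D : (Σ i, Fin (n i)) → Derivation ℂ K K) :
    Matrix (Co I n) (Co I n) K :=
  Matrix.of fun r s => match rowOf r with
    | some p => D p (g s) / g s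
    | none => (δ s r.1 : K)

theorem det_wmD_log (δ : Co I n → I → ℕ) (g : Co I n → K) (hg : ∀ s, g s ≠ 0)
    (D : (Σ i, Fin (n i)) → Derivation ℂ K K) :
    (wmD δ g D).det = (∏ s, g s) * (lmD δ g D).det := by
  rw [← Matrix.det_mul_row]
  congr 1
  ext r s
  obtain ⟨i0, k⟩ := r
  refine Fin.cases ?_ (fun k => ?_) k
  · simp only [wmD, lmD, Matrix.of_apply, rowOf_zero]
    ring
  · simp only [wmD, lmD, Matrix.of_apply, rowOf_succ]
    rw [mul_div_cancel₀ _ (hg s)]

/-- the Jacobian matrix -/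
noncomputable def jacM (G : Co I n → MvPolynomial (Co I n) ℂ) :
    Matrix (Co I n) (Co I n) (MvPolynomial (Co I n) ℂ) :=
  Matrix.of fun s s' => pderiv s' (G s)

/-- the chain rule for the matrices with Euler rows -/
theorem det_wmD_chain (δ : Co I n → I → ℕ) (G : Co I n → MvPolynomial (Co I n) ℂ)
    (hG : ∀ s i, (G s).IsWeightedHomogeneous (wt i) (δ s i)) (X : Co I n → K)
    (D : (Σ i, Fin (n i)) → Derivation ℂ K K) :
    (wmD δ (fun s => aeval X (G s)) D).det = (wm X D).det * aeval X (jacM G).det := by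
  have h1 : wmD δ (fun s => aeval X (G s)) D =
      wm X D * ((jacM G).map (aeval X)).transpose := by
    ext r s
    rw [Matrix.mul_apply]
    simp only [Matrix.transpose_apply, Matrix.map_apply, jacM, Matrix.of_apply]
    obtain ⟨i0, k⟩ := r
    refine Fin.cases ?_ (fun k => ?_) k
    · simp only [wmD, wm, Matrix.of_apply, rowOf_zero]
      exact (euler_factor X (hG s i0)).symm
    · simp only [wmD, wm, Matrix.of_apply, rowOf_succ]
      rw [derivation_aeval]
      exact Finset.sum_congr rfl fun s' _ => mul_comm _ _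
  rw [h1, Matrix.det_mul, Matrix.det_transpose]
  congr 1
  exact (AlgHom.map_det (aeval X) (jacM G)).symm

/-- the main formula -/
theorem det_mainD (x : (i : I) → Fin (n i) → K) (h : I → K) (hh : ∀ i, h i ≠ 0)
    (ξ : Co I n → K) (hξ : ∀ s, ξ s ≠ 0) (hxξ : ∀ s, Uni.hom x s = h s.1 * ξ s)
    (δ : Co I n → I → ℕ) (G : Co I n → MvPolynomial (Co I n) ℂ)
    (hG : ∀ s i, (G s).IsWeightedHomogeneous (wt i) (δ s i))
    (hG0 : ∀ s, aeval ξ (G s) ≠ 0) (hJ : aeval ξ (jacM G).det ≠ 0)
    (D : (Σ i, Fin (n i)) → Derivation ℂ K K) :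
    Matrix.det (Matrix.of fun p q : (Σ i, Fin (n i)) => D p (x q.1 q.2)) =
      ((∏ s : Co I n, h s.1) * (∏ s, aeval ξ (G s)) / aeval ξ (jacM G).det) *
        (lmD δ (fun s => aeval ξ (G s)) D).det := by
  rw [← det_wm_hom]
  have h0 : Uni.hom x = fun s : Co I n => h s.1 * ξ s := funext hxξ
  have h1 : (wm (Uni.hom x) D).det = (∏ s : Co I n, h s.1) * (wm ξ D).det := by
    rw [h0, det_wm_log _ (fun s => mul_ne_zero (hh _) (hξ s)), det_lm_scale h hh ξ hξ,
      det_wm_log _ hξ, Finset.prod_mul_distrib]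
    ring
  have h2 := det_wmD_chain δ G hG ξ D
  rw [det_wmD_log δ _ hG0] at h2
  rw [h1, div_mul_eq_mul_div, eq_div_iff hJ, mul_assoc, ← h2]
  ring

theorem rep_lmD_unit (v : Valuation K ℤᵐ⁰) (δ : Co I n → I → ℕ) (g : Co I n → K)
    (hg : ∀ s, v (g s) = 1) (hv : ∀ m : ℕ, v (m : K) ≤ 1) :
    Rep v (fun D : (Σ i, Fin (n i)) → Derivation ℂ K K => (lmD δ g D).det) := by
  have h := det_log_unit v (rowOf (n := n)) rowOf_unique g hg
    (fun r s => (δ s r.1 : K)) (fun r s => hv _)
  convert h using 3 with D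
  ext r s
  simp only [lmD, Matrix.of_apply]
  cases rowOf r <;> rfl

theorem rep_lmD (v : Valuation K ℤᵐ⁰) (t : K) (ht0 : t ≠ 0) (ht1 : v t < 1)
    (htmax : ∀ x, v x < 1 → v x ≤ v t) (δ : Co I n → I → ℕ) (g : Co I n → K)
    (hg : ∀ s, g s ≠ 0) (hv : ∀ m : ℕ, v (m : K) ≤ 1) :
    Rep v (fun D : (Σ i, Fin (n i)) → Derivation ℂ K K => t * (lmD δ g D).det) := by
  have h := det_log v (rowOf (n := n)) rowOf_unique t ht0 ht1 htmax g hg
    (fun r s => (δ s r.1 : K)) (fun r s => hv _)
  convert h using 4 with D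
  ext r s
  simp only [lmD, Matrix.of_apply]
  cases rowOf r <;> rfl

/-- Regularity of the form at `v` in local coordinates. -/
theorem mForm_regularAtD {L M : ℕ} (e : Fin L ≃ Fin M × (Σ i, Fin (n i))) (v : Valuation K ℤᵐ⁰)
    (hv : ∀ c : ℂ, v (algebraMap ℂ K c) ≤ 1) (x : (i : I) → Fin (n i) → K) (c : K)
    (h : I → K) (hh : ∀ i, h i ≠ 0)
    (ξ : Co I n → K) (hξ : ∀ s, ξ s ≠ 0) (hxξ : ∀ s, Uni.hom x s = h s.1 * ξ s)
    (δ : Co I n → I → ℕ) (G : Co I n → MvPolynomial (Co I n) ℂ)
    (hG : ∀ s i, (G s).IsWeightedHomogeneous (wt i) (δ s i))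
    (hG0 : ∀ s, aeval ξ (G s) ≠ 0) (hJ : v (aeval ξ (jacM G).det) = 1)
    (hreg : ((∀ s, v (aeval ξ (G s)) = 1) ∧
        v (c * ((∏ s : Co I n, h s.1) * ∏ s, aeval ξ (G s)) ^ M) ≤ 1) ∨
      ∃ t, t ≠ 0 ∧ v t < 1 ∧ (∀ x, v x < 1 → v x ≤ v t) ∧
        v (c * ((∏ s : Co I n, h s.1) * ∏ s, aeval ξ (G s)) ^ M) ≤ v t ^ M) :
    IsRegularAt v (mForm e (fun p : Σ i, Fin (n i) => x p.1 p.2) c) := by
  refine Rep.regularAt v _ ?_
  have hvn : ∀ m : ℕ, v (m : K) ≤ 1 := by
    intro m
    have := hv (m : ℂ)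
    rwa [map_natCast] at this
  set J : K := aeval ξ (jacM G).det with hJdef
  have hJ0 : J ≠ 0 := by
    intro h0
    rw [h0, map_zero] at hJ
    exact zero_ne_one hJ
  have hJi : v (J⁻¹ ^ M) ≤ 1 := by
    rw [map_pow, map_inv₀, hJ, inv_one, one_pow]
  set P : K := (∏ s : Co I n, h s.1) * ∏ s, aeval ξ (G s) with hP
  have hkey : ∀ D : Fin L → Derivation ℂ K K,
      mForm e (fun p : Σ i, Fin (n i) => x p.1 p.2) c D =
      (J⁻¹ ^ M * (c * P ^ M)) * ∏ a : Fin M,
        (lmD δ (fun s => aeval ξ (G s)) (fun p => D (e.symm (a, p)))).det := by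
    intro D
    rw [mForm_apply]
    have h1 : ∀ a : Fin M, Matrix.det (Matrix.of fun p q : (Σ i, Fin (n i)) =>
        D (e.symm (a, p)) (x q.1 q.2)) = (P / J) *
          (lmD δ (fun s => aeval ξ (G s)) (fun p => D (e.symm (a, p)))).det := fun a =>
      det_mainD x h hh ξ hξ hxξ δ G hG hG0 hJ0 (fun p => D (e.symm (a, p)))
    simp only [h1]
    rw [Finset.prod_mul_distrib, Finset.prod_const, Finset.card_univ, Fintype.card_fin]
    rw [div_pow, inv_pow]
    ring
  rcases hreg with ⟨h1, h2⟩ | ⟨t, ht0, ht1, htmax, h2⟩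
  · have h4 := (Rep.block (S := Fin M) v (T := fun _ => _)
      (fun _ => rep_lmD_unit v δ _ h1 hvn)).reindex v e.symm
    have h6 : v (J⁻¹ ^ M * (c * P ^ M)) ≤ 1 := by
      rw [map_mul]
      exact mul_le_one' hJi h2
    have h5 := Rep.smul v _ h6 h4
    convert h5 using 2 with D
    exact hkey D
  · have h4 := (Rep.block (S := Fin M) v (T := fun _ => _)
      (fun _ => rep_lmD v t ht0 ht1 htmax δ _ hG0 hvn)).reindex v e.symm
    have hvt : v t ≠ 0 := (v.ne_zero_iff).2 ht0
    have h6 : v (J⁻¹ ^ M * (c * P ^ M) / t ^ M) ≤ 1 := by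
      rw [map_div₀, map_pow, map_mul]
      refine div_le_one_of_le₀ ?_ zero_le
      exact (mul_le_of_le_one_left' hJi).trans h2
    have h5 := Rep.smul v _ h6 h4
    convert h5 using 2 with D
    rw [hkey D]
    simp only [Finset.prod_mul_distrib, Finset.prod_const, Finset.card_univ, Fintype.card_fin]
    field_simp

end det

end Pool.Agent.Work.Snc
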