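import Mathlib
import Pool.Agent.Work.MP_4329d7_ag_snc.FormsA

/-!
Forms, part B: the local coordinates at a valuation (helper44).
-/

set_option linter.style.haveILetI false

open scoped WithZero

namespace Pool.Agent.Work.Snc

open Pool.Agent.Work.MP_4329d7_ag.FF Pool.Agent.Work.Uni MvPolynomial

section spec

variable {K : Type} [Field K] [Algebra ℂ K] {σ : Type}

theorem aeval_le_one (v : Valuation K ℤᵐ⁰) (hv : ∀ c : ℂ, v (algebraMap ℂ K c) ≤ 1)
    (ξ : σ → K) (hξ : ∀ s, v (ξ s) ≤ 1) (g : MvPolynomial σ ℂ) : v (aeval ξ g) ≤ 1 := by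
  induction g using MvPolynomial.induction_on with
  | C a => simpa using hv a
  | add p q hp hq =>
    rw [map_add]
    exact (v.map_add _ _).trans (max_le hp hq)
  | mul_X p i hp =>
    rw [map_mul, aeval_X, map_mul]
    exact mul_le_one' hp (hξ i)

/-- a point in the centre of the valuation where `f` does not vanish -/
theorem spec_point [Finite σ] (v : Valuation K ℤᵐ⁰) (hv : ∀ c : ℂ, v (algebraMap ℂ K c) ≤ 1)
    (ξ : σ → K) (hξ : ∀ s, v (ξ s) ≤ 1) (f : MvPolynomial σ ℂ) (hf : v (aeval ξ f) = 1) :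
    ∃ P : σ → ℂ, (∀ g : MvPolynomial σ ℂ, v (aeval ξ g) < 1 → eval P g = 0) ∧ eval P f ≠ 0 := by
  let 𝔭 : Ideal (MvPolynomial σ ℂ) :=
    { carrier := {g | v (aeval ξ g) < 1}
      add_mem' := fun {a b} ha hb => by
        have ha' : v (aeval ξ a) < 1 := ha
        have hb' : v (aeval ξ b) < 1 := hb
        change v (aeval ξ (a + b)) < 1
        rw [map_add]
        exact (v.map_add _ _).trans_lt (max_lt ha' hb')
      zero_mem' := by
        change v (aeval ξ (0 : MvPolynomial σ ℂ)) < 1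
        rw [map_zero, map_zero]
        exact zero_lt_one
      smul_mem' := fun c x hx => by
        have hx' : v (aeval ξ x) < 1 := hx
        change v (aeval ξ (c * x)) < 1
        rw [map_mul, map_mul]
        exact lt_of_le_of_lt (mul_le_of_le_one_left' (aeval_le_one v hv ξ hξ c)) hx' }
  have hmem : ∀ g, g ∈ 𝔭 ↔ v (aeval ξ g) < 1 := fun g => Iff.rfl
  have hrad : ∀ g, g ∈ 𝔭.radical → g ∈ 𝔭 := by
    rintro g ⟨m, hm⟩
    rw [hmem, map_pow, map_pow] at hm
    rw [hmem]
    by_contra hcon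
    have h1 : v (aeval ξ g) = 1 := le_antisymm (aeval_le_one v hv ξ hξ g) (not_lt.1 hcon)
    rw [h1, one_pow] at hm
    exact lt_irrefl _ hm
  have hf' : f ∉ vanishingIdeal ℂ (zeroLocus ℂ 𝔭) := by
    rw [vanishingIdeal_zeroLocus_eq_radical]
    intro h
    have := hrad f h
    rw [hmem, hf] at this
    exact lt_irrefl _ this
  rw [mem_vanishingIdeal_iff] at hf'
  push Not at hf'
  obtain ⟨P, hP, hPf⟩ := hf'
  refine ⟨P, fun g hg => ?_, by rwa [aeval_eq_eval] at hPf⟩
  have := (mem_zeroLocus_iff.1 hP) g hg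
  rwa [aeval_eq_eval] at this

end spec

section local_coordinates

variable {K : Type} [Field K] [Algebra ℂ K] {I : Type} [Fintype I] [DecidableEq I] {n : I → ℕ}

/-- the linear form of the coordinate `s`, not zero at `P` -/
noncomputable def linF (P : Co I n → ℂ) (j : (i : I) → Fin (n i + 1)) (s : Co I n) :
    MvPolynomial (Co I n) ℂ :=
  if P s = 0 then X s + X ⟨s.1, j s.1⟩ else X s

omit [Fintype I] in
theorem linF_hom (P : Co I n → ℂ) (j : (i : I) → Fin (n i + 1)) (s : Co I n) (i : I) :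
    (linF P j s).IsWeightedHomogeneous (wt i) (if s.1 = i then 1 else 0) := by
  have h1 : (X s : MvPolynomial (Co I n) ℂ).IsWeightedHomogeneous (wt i)
      (if s.1 = i then 1 else 0) := isWeightedHomogeneous_X _ _ _
  have h2 : (X ⟨s.1, j s.1⟩ : MvPolynomial (Co I n) ℂ).IsWeightedHomogeneous (wt i)
      (if s.1 = i then 1 else 0) := isWeightedHomogeneous_X _ _ _
  unfold linF
  by_cases h : P s = 0
  · rw [if_pos h]
    exact h1.add h2
  · rw [if_neg h]
    exact h1

omit [Fintype I] [DecidableEq I] in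
theorem linF_eval (P : Co I n → ℂ) (j : (i : I) → Fin (n i + 1)) (hP : ∀ i, P ⟨i, j i⟩ ≠ 0)
    (s : Co I n) : eval P (linF P j s) ≠ 0 := by
  unfold linF
  by_cases h : P s = 0
  · rw [if_pos h, map_add, eval_X, eval_X, h, zero_add]
    exact hP _
  · rw [if_neg h, eval_X]
    exact h

omit [Fintype I] in
theorem linF_span (P : Co I n → ℂ) (j : (i : I) → Fin (n i + 1)) (hP : ∀ i, P ⟨i, j i⟩ ≠ 0)
    [Finite I] :
    Submodule.span ℂ (Set.range fun s => fun s' => eval P (pderiv s' (linF P j s))) = ⊤ := by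
  classical
  set W := Submodule.span ℂ (Set.range fun s => fun s' => eval P (pderiv s' (linF P j s))) with hW
  have h1 : ∀ s, P s ≠ 0 → (Pi.single s 1 : Co I n → ℂ) ∈ W := by
    intro s hs
    have : (Pi.single s 1 : Co I n → ℂ) = fun s' => eval P (pderiv s' (linF P j s)) := by
      funext s'
      rw [linF, if_neg hs, pderiv_X]
      by_cases h : s' = s
      · subst h; simp
      · rw [Pi.single_eq_of_ne h, Pi.single_eq_of_ne (Ne.symm h), map_zero]
    rw [this]
    exact Submodule.subset_span ⟨s, rfl⟩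
  have h2 : ∀ s, (Pi.single s 1 : Co I n → ℂ) ∈ W := by
    intro s
    by_cases hs : P s = 0
    · have h3 : (Pi.single s 1 : Co I n → ℂ) =
          (fun s' => eval P (pderiv s' (linF P j s))) - Pi.single ⟨s.1, j s.1⟩ 1 := by
        funext s'
        rw [Pi.sub_apply, linF, if_pos hs, map_add, map_add, pderiv_X, pderiv_X]
        have e1 : ∀ u : Co I n, eval P ((Pi.single s' 1 : Co I n → MvPolynomial (Co I n) ℂ) u) =
            (Pi.single u 1 : Co I n → ℂ) s' := by
          intro u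
          by_cases h : s' = u
          · subst h; simp
          · rw [Pi.single_eq_of_ne h, Pi.single_eq_of_ne (Ne.symm h), map_zero]
        rw [e1, e1]
        ring
      rw [h3]
      exact W.sub_mem (Submodule.subset_span ⟨s, rfl⟩) (h1 _ (hP _))
    · exact h1 s hs
  rw [eq_top_iff, ← (Pi.basisFun ℂ (Co I n)).span_eq, Submodule.span_le]
  rintro _ ⟨s, rfl⟩
  rw [Pi.basisFun_apply]
  exact h2 s

omit [Fintype I] [DecidableEq I] in
/-- extension to a basis -/
theorem exists_basis_ext {κ σ : Type} [Finite κ] [Fintype σ] (ψ : κ → (σ → ℂ)) (T : Set κ)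
    (hT : LinearIndepOn ℂ ψ T) (hspan : Submodule.span ℂ (Set.range ψ) = ⊤) :
    ∃ b : Set κ, T ⊆ b ∧ ∃ ε : σ ≃ b, LinearIndependent ℂ (fun s => ψ (ε s)) := by
  classical
  haveI := Fintype.ofFinite κ
  obtain ⟨b, -, hTb, hb1, hb2⟩ := exists_linearIndepOn_extension hT (Set.subset_univ T)
  refine ⟨b, hTb, ?_⟩
  have h1 : LinearIndependent ℂ (fun x : b => ψ x) := hb2
  have h2 : ⊤ ≤ Submodule.span ℂ (Set.range (fun x : b => ψ x)) := by
    have h3 : Set.range (fun x : b => ψ x) = ψ '' b := by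
      ext y
      simp
    rw [h3, ← hspan, ← Set.image_univ]
    exact Submodule.span_le.2 hb1
  let B := Module.Basis.mk h1 h2
  have h4 : Fintype.card b = Fintype.card σ := by
    rw [← Module.finrank_eq_card_basis B, Module.finrank_fintype_fun_eq_card]
  let ε : σ ≃ b := (Fintype.equivOfCardEq h4).symm
  exact ⟨ε, h1.comp ε ε.injective⟩

/-- The local coordinates at a valuation. -/
theorem exists_local (v : Valuation K ℤᵐ⁰) (hv : ∀ c : ℂ, v (algebraMap ℂ K c) ≤ 1)
    {E : Type} [Fintype E] {F : E → MvPolynomial (Co I n) ℂ} {d : E → I → ℕ}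
    (hom : ∀ e i, (F e).IsWeightedHomogeneous (wt i) (d e i))
    (snc : ∀ P : Co I n → ℂ, IsPoint P →
      LinearIndependent ℂ (fun e : {e // eval P (F e) = 0} => fun s => eval P (pderiv s (F e.1))))
    (ξ : Co I n → K) (hξ : ∀ s, v (ξ s) ≤ 1) (hpt : ∀ i, ∃ j, v (ξ ⟨i, j⟩) = 1)
    (hF : ∀ e, aeval ξ (F e) ≠ 0) :
    ∃ (G : Co I n → MvPolynomial (Co I n) ℂ) (δ : Co I n → I → ℕ),
      (∀ s i, (G s).IsWeightedHomogeneous (wt i) (δ s i)) ∧
      v (aeval ξ (jacM G).det) = 1 ∧
      (∀ s, aeval ξ (G s) ≠ 0) ∧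
      (∏ s, v (aeval ξ (G s)) = ∏ e, v (aeval ξ (F e))) ∧
      ((∀ e, v (aeval ξ (F e)) = 1) → ∀ s, v (aeval ξ (G s)) = 1) ∧
      ∃ P : Co I n → ℂ, IsPoint P ∧ ∀ e, v (aeval ξ (F e)) < 1 → eval P (F e) = 0 := by
  classical
  choose j hj using hpt
  obtain ⟨P, hP, hPf⟩ := spec_point v hv ξ hξ (∏ i, X ⟨i, j i⟩) (by
    rw [map_prod, map_prod]
    exact Finset.prod_eq_one fun i _ => by rw [aeval_X, hj])
  rw [map_prod, Finset.prod_ne_zero_iff] at hPf
  have hPj : ∀ i, P ⟨i, j i⟩ ≠ 0 := fun i => by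
    have := hPf i (Finset.mem_univ i)
    rwa [eval_X] at this
  have hPt : IsPoint P := fun i => ⟨j i, hPj i⟩
  have hunit : ∀ g : MvPolynomial (Co I n) ℂ, eval P g ≠ 0 → v (aeval ξ g) = 1 := by
    intro g hg
    refine le_antisymm (aeval_le_one v hv ξ hξ g) ?_
    by_contra hcon
    exact hg (hP g (not_le.1 hcon))
  -- all coordinates
  let GG : E ⊕ Co I n → MvPolynomial (Co I n) ℂ := Sum.elim F (linF P j)
  let δδ : E ⊕ Co I n → I → ℕ := Sum.elim d (fun s i => if s.1 = i then 1 else 0)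
  have hGGhom : ∀ y i, (GG y).IsWeightedHomogeneous (wt i) (δδ y i) := by
    rintro (e | s) i
    · exact hom e i
    · exact linF_hom P j s i
  let ψ : E ⊕ Co I n → (Co I n → ℂ) := fun y s' => eval P (pderiv s' (GG y))
  have hTind : LinearIndepOn ℂ ψ (Sum.inl '' {e | v (aeval ξ (F e)) < 1}) := by
    apply LinearIndepOn.image_of_comp
    have h1 := snc P hPt
    exact h1.comp (fun e : {e | v (aeval ξ (F e)) < 1} =>
      (⟨e.1, hP _ e.2⟩ : {e // eval P (F e) = 0}))
      (fun a b hab => Subtype.ext (congrArg (fun z : {e // eval P (F e) = 0} => z.1) hab))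
  have hspan : Submodule.span ℂ (Set.range ψ) = ⊤ := by
    rw [eq_top_iff, ← linF_span P j hPj, Submodule.span_le]
    rintro _ ⟨s, rfl⟩
    exact Submodule.subset_span ⟨Sum.inr s, rfl⟩
  obtain ⟨b, hTb, ε, hε⟩ := exists_basis_ext ψ _ hTind hspan
  have hlin : ∀ s, v (aeval ξ (linF P j s)) = 1 := fun s => hunit _ (linF_eval P j hPj s)
  have hne : ∀ y, aeval ξ (GG y) ≠ 0 := by
    rintro (e | s)
    · exact hF e
    · intro h0
      have h1 := hlin s
      rw [show linF P j s = GG (Sum.inr s) from rfl, h0, map_zero] at h1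
      exact zero_ne_one h1
  refine ⟨fun s => GG (ε s), fun s => δδ (ε s), fun s i => hGGhom _ i, ?_, fun s => hne _,
    ?_, ?_, P, hPt, fun e he => hP _ he⟩
  · apply hunit
    have h1 : eval P (jacM (fun s => GG (ε s))).det = (Matrix.of fun s s' => ψ (ε s) s').det := by
      rw [RingHom.map_det]
      rfl
    rw [h1]
    have h4 : LinearIndependent ℂ (Matrix.of fun s s' => ψ (ε s) s').row := hε
    rw [Matrix.linearIndependent_rows_iff_isUnit, Matrix.isUnit_iff_isUnit_det] at h4
    exact h4.ne_zero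
  · have h1 : ∏ s, v (aeval ξ (GG (ε s))) = ∏ y : b, v (aeval ξ (GG y)) :=
      Equiv.prod_comp ε (fun y : b => v (aeval ξ (GG y)))
    rw [h1]
    have h2 : ∏ y : b, v (aeval ξ (GG y)) = ∏ y, v (aeval ξ (GG y)) := by
      rw [Finset.prod_set_coe (s := b) (f := fun y => v (aeval ξ (GG y)))]
      refine Finset.prod_subset (Finset.subset_univ _) fun y _ hy => ?_
      rw [Set.mem_toFinset] at hy
      rcases y with e | s
      · refine le_antisymm (aeval_le_one v hv ξ hξ _) ?_
        by_contra hcon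
        exact hy (hTb ⟨e, not_le.1 hcon, rfl⟩)
      · exact hlin s
    rw [h2, Fintype.prod_sum_type]
    have h3 : ∏ s, v (aeval ξ (GG (Sum.inr s))) = 1 := Finset.prod_eq_one fun s _ => hlin s
    rw [h3, mul_one]
    rfl
  · intro h1 s
    rcases h : (ε s : E ⊕ Co I n) with e | s'
    · simp only [h]
      exact h1 e
    · simp only [h]
      exact hlin s'

end local_coordinates

end Pool.Agent.Work.Snc
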