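import Mathlib
import Pool.Agent.Work.MP_4329d7_ag_snc.FormsB
import Pool.Agent.Work.MP_4329d7_ag_uni.Plur
import Pool.Agent.Work.MP_4329d7_ag_sq.Reduce

/-!
Forms, part C: the pluricanonical form `c (dx_1 ∧ … ∧ dx_n)^{⊗ M}`, `c = ∏ F_e ^ (A_e - M)`, is
regular (helper44, after helper14).
-/

set_option linter.style.haveILetI false

open scoped WithZero

namespace Pool.Agent.Work.Snc

open Pool.Agent.Work.MP_4329d7_ag.FF Pool.Agent.Work.Uni MvPolynomial

section cover

variable {K : Type} [Field K] [Algebra ℂ K] {I : Type} [Fintype I] [DecidableEq I]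
  {n : I → ℕ} {E : Type} [Fintype E] {F : E → MvPolynomial (Co I n) ℂ} {d : E → I → ℕ}
  {N : ℕ} {x : (i : I) → Fin (n i) → K} {S : Set (K × (E → ℕ))}

theorem SncData.hom_ne_zero (D : SncData K I n E F d N x S) (s : Co I n) :
    Uni.hom x s ≠ 0 := by
  obtain ⟨i, j⟩ := s
  refine Fin.cases ?_ (fun j => ?_) j
  · simp [Uni.hom]
  · intro h0
    have h1 : x i j = 0 := by simpa [Uni.hom] using h0
    exact D.alg_indep.ne_zero ⟨i, j⟩ h1

theorem SncData.isTranscendenceBasis (D : SncData K I n E F d N x S) :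
    IsTranscendenceBasis ℂ (fun p : Σ i, Fin (n i) => x p.1 p.2) := by
  rw [D.alg_indep.isTranscendenceBasis_iff_isAlgebraic]
  set X' : (Σ i, Fin (n i)) → K := fun p => x p.1 p.2 with hX
  refine MP_4329d7_ag_sq.isAlgebraic_adjoin _ ?_
  have hmem : ∀ i j, x i j ∈ IntermediateField.adjoin ℂ (Set.range X') := fun i j =>
    IntermediateField.subset_adjoin ℂ _ ⟨⟨i, j⟩, rfl⟩
  have hal : ∀ y ∈ IntermediateField.adjoin ℂ (Set.range X'),
      IsAlgebraic (IntermediateField.adjoin ℂ (Set.range X')) y := by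
    intro y hy
    have : y = algebraMap (IntermediateField.adjoin ℂ (Set.range X')) K ⟨y, hy⟩ := rfl
    rw [this]
    exact isAlgebraic_algebraMap _
  have hhom : ∀ s, Uni.hom x s ∈ IntermediateField.adjoin ℂ (Set.range X') := by
    rintro ⟨i, j⟩
    refine Fin.cases ?_ (fun j => ?_) j
    · simp only [Uni.hom, Fin.cons_zero]
      exact one_mem _
    · simp only [Uni.hom, Fin.cons_succ]
      exact hmem i j
  refine MP_4329d7_ag_sq.alg_of_gen _ D.gen fun t ht => ?_
  rcases ht with ⟨p, rfl⟩ | ⟨c, hc⟩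
  · exact hal _ (hmem _ _)
  · refine IsAlgebraic.of_pow D.N_pos ?_
    rw [D.rad t c hc]
    refine hal _ (prod_mem fun e _ => pow_mem ?_ _)
    rw [aeval_def, eval₂_eq']
    refine sum_mem fun μ _ => mul_mem (IntermediateField.algebraMap_mem _ _) ?_
    exact prod_mem fun s _ => pow_mem (hhom s) _

/-- See the header of the file. -/
theorem exists_formS (D : SncData K I n E F d N x S) (M : ℕ) (A : E → ℕ)
    (hA : ∀ i, ∑ e, A e * d e i + (n i + 1) * M ≤ M * ∑ e, d e i)
    (hb : ∀ b : E → ℕ, SBlock F N S b → M ≤ ∑ e, A e * b e) :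
    ∃ T : TensorForm K (M * ∑ i, n i), IsPluricanonical M (∑ i, n i) T ∧ IsRegular T ∧ T ≠ 0 := by
  classical
  set l : E → K := fun e => aeval (Uni.hom x) (F e) with hl
  have hlne : ∀ e, l e ≠ 0 := fun e => D.aeval_ne_zero e
  have hH := D.hom_ne_zero
  set c : K := (∏ e, l e ^ A e) / (∏ e, l e) ^ M with hc
  have hc0 : c ≠ 0 := div_ne_zero (Finset.prod_ne_zero_iff.2 fun e _ => pow_ne_zero _ (hlne e))
    (pow_ne_zero _ (Finset.prod_ne_zero_iff.2 fun e _ => hlne e))
  have hcardι : Fintype.card (Σ i, Fin (n i)) = ∑ i, n i := by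
    rw [Fintype.card_sigma]
    exact Finset.sum_congr rfl fun i _ => Fintype.card_fin _
  let e : Fin (M * ∑ i, n i) ≃ Fin M × (Σ i, Fin (n i)) :=
    finProdFinEquiv.symm.trans (Equiv.prodCongr (Equiv.refl _)
      (Fintype.equivFinOfCardEq hcardι).symm)
  refine ⟨mForm e (fun p : Σ i, Fin (n i) => x p.1 p.2) c,
    mForm_isPluricanonical M _ (Fintype.equivFinOfCardEq hcardι) _ c, ?_,
    mForm_ne_zero e _ D.isTranscendenceBasis c hc0⟩
  intro v hv
  -- the coordinates of maximal value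
  have hj : ∀ i, ∃ j0, ∀ j, v (Uni.hom x ⟨i, j⟩) ≤ v (Uni.hom x ⟨i, j0⟩) := fun i =>
    Finite.exists_max (fun j => v (Uni.hom x ⟨i, j⟩))
  choose j0 hj0 using hj
  set h : I → K := fun i => Uni.hom x ⟨i, j0 i⟩ with hh
  have hh0 : ∀ i, h i ≠ 0 := fun i => hH _
  have hvh : ∀ i, v (h i) ≠ 0 := fun i => (v.ne_zero_iff).2 (hh0 i)
  have hvh1 : ∀ i, 1 ≤ v (h i) := by
    intro i
    have h1 := hj0 i 0
    have h2 : Uni.hom x ⟨i, 0⟩ = 1 := by simp [Uni.hom]
    rwa [h2, map_one] at h1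
  set ξ : Co I n → K := fun s => Uni.hom x s / h s.1 with hξ
  have hξ0 : ∀ s, ξ s ≠ 0 := fun s => div_ne_zero (hH s) (hh0 _)
  have hxξ : ∀ s, Uni.hom x s = h s.1 * ξ s := fun s => (mul_div_cancel₀ _ (hh0 _)).symm
  have hξ1 : ∀ s, v (ξ s) ≤ 1 := by
    intro s
    rw [hξ]
    simp only [map_div₀]
    exact div_le_one_of_le₀ (hj0 s.1 s.2) zero_le
  have hpt : ∀ i, ∃ j, v (ξ ⟨i, j⟩) = 1 := fun i => ⟨j0 i, by
    rw [hξ]
    simp only [map_div₀]
    exact div_self (hvh i)⟩
  set y : E → K := fun e => aeval ξ (F e) with hy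
  have hly : ∀ e, l e = (∏ i, h i ^ d e i) * y e := by
    intro e
    rw [hl, hy]
    simp only
    rw [← multihom_scale (D.hom e)]
    congr 1
    exact congrArg aeval (funext hxξ)
  have hy0 : ∀ e, y e ≠ 0 := by
    intro e h0
    have h1 := hlne e
    rw [hly, h0, mul_zero] at h1
    exact h1 rfl
  have hy1 : ∀ e, v (y e) ≤ 1 := fun e => aeval_le_one v hv ξ hξ1 (F e)
  obtain ⟨G, δ, hG, hJ, hG0, hprod, hGu, P, hP, hPF⟩ :=
    exists_local v hv D.hom D.snc ξ hξ1 hpt hy0
  have hval : v (c * ((∏ s : Co I n, h s.1) * ∏ s, aeval ξ (G s)) ^ M) ≤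
      ∏ e, v (y e) ^ A e := by
    have e0 : ∏ s : Co I n, v (h s.1) = ∏ i, v (h i) ^ (n i + 1) := by
      rw [Fintype.prod_sigma]
      refine Finset.prod_congr rfl fun i _ => ?_
      simp
    have e1 : v (c * ((∏ s : Co I n, h s.1) * ∏ s, aeval ξ (G s)) ^ M) =
        (∏ e, v (y e) ^ A e) * ((∏ i, v (h i) ^ (∑ e, A e * d e i + (n i + 1) * M)) /
          ∏ i, v (h i) ^ (M * ∑ e, d e i)) := by
      have e2 : (∏ i, v (h i) ^ (M * ∑ e, d e i)) = ∏ e, (∏ i, v (h i) ^ d e i) ^ M := by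
        simp only [← Finset.prod_pow]
        rw [Finset.prod_comm]
        refine Finset.prod_congr rfl fun i _ => ?_
        rw [mul_comm M, pow_mul, ← Finset.prod_pow_eq_pow_sum, ← Finset.prod_pow]
      have e3 : (∏ i, v (h i) ^ (∑ e, A e * d e i + (n i + 1) * M)) =
          (∏ e, (∏ i, v (h i) ^ d e i) ^ A e) * (∏ i, v (h i) ^ (n i + 1)) ^ M := by
        have e8 : ∀ i, v (h i) ^ (∑ e, A e * d e i + (n i + 1) * M) =
            v (h i) ^ (∑ e, A e * d e i) * v (h i) ^ ((n i + 1) * M) := fun i => pow_add _ _ _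
        simp only [e8, Finset.prod_mul_distrib, ← Finset.prod_pow]
        congr 1
        · rw [Finset.prod_comm]
          refine Finset.prod_congr rfl fun i _ => ?_
          rw [← Finset.prod_pow_eq_pow_sum]
          refine Finset.prod_congr rfl fun e _ => ?_
          rw [← pow_mul, mul_comm (d e i)]
        · exact Finset.prod_congr rfl fun i _ => pow_mul _ _ _
      have e4 : ∏ e, (∏ i, v (h i) ^ d e i) ^ M ≠ 0 := Finset.prod_ne_zero_iff.2 fun e _ =>
        pow_ne_zero _ (Finset.prod_ne_zero_iff.2 fun i _ => pow_ne_zero _ (hvh i))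
      have e5 : ∏ e, v (y e) ^ M ≠ 0 := Finset.prod_ne_zero_iff.2 fun e _ =>
        pow_ne_zero _ ((v.ne_zero_iff).2 (hy0 e))
      have e6 : ∀ e, v (l e) = (∏ i, v (h i) ^ d e i) * v (y e) := by
        intro e
        rw [hly e]
        simp only [map_mul, map_prod, map_pow]
      have e7 : ∏ s, v (aeval ξ (G s)) = ∏ e, v (y e) := hprod
      rw [hc, map_mul, map_div₀, map_pow, map_pow, map_mul, map_prod, map_prod, map_prod,
        map_prod, e7, e0, e2, e3]
      simp only [map_pow, e6, mul_pow, Finset.prod_mul_distrib, ← Finset.prod_pow] at e4 e5 ⊢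
      field_simp
    rw [e1]
    refine mul_le_of_le_one_right' ?_
    refine div_le_one_of_le₀ ?_ zero_le
    refine Finset.prod_le_prod' fun i _ => ?_
    exact pow_le_pow_right' (hvh1 i) (hA i)
  refine mForm_regularAtD e v hv x c h hh0 ξ hξ0 hxξ δ G hG hG0 hJ ?_
  by_cases hall : ∀ e, v (y e) = 1
  · left
    refine ⟨hGu hall, hval.trans ?_⟩
    simp [hall]
  right
  push Not at hall
  obtain ⟨e0, he0⟩ := hall
  have he0' : v (y e0) < 1 := lt_of_le_of_ne (hy1 e0) he0
  obtain ⟨t, ht0, ht1, htmax⟩ := MP_4329d7_ag_sq.exists_uniformizer v (hy0 e0) he0'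
  have hvt : v t ≠ 0 := (v.ne_zero_iff).2 ht0
  refine ⟨t, ht0, ht1, htmax, hval.trans ?_⟩
  have hinj := zpow_right_injective₀ (zero_lt_iff.2 hvt) ht1.ne
  have hex := fun e => repdet_exists_zpow v ht0 ht1 htmax (hy0 e)
  choose m u hu hmu using hex
  have hwm : ∀ e, v (y e) = v t ^ (m e) := by
    intro e
    rw [hmu e, map_mul, hu e, mul_one, map_zpow₀]
  have hm0 : ∀ e, 0 ≤ m e := by
    intro e
    by_contra hcon
    have h1 := one_lt_zpow_of_neg₀ (zero_lt_iff.2 hvt) ht1 (not_le.1 hcon)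
    rw [← hwm e] at h1
    exact absurd (hy1 e) (not_le.2 h1)
  set b : E → ℕ := fun e => (m e).toNat with hbdef
  have hbm : ∀ e, (b e : ℤ) = m e := fun e => Int.toNat_of_nonneg (hm0 e)
  have hwb : ∀ e, v (y e) = v t ^ (b e) := by
    intro e
    rw [hwm e, ← hbm e, zpow_natCast]
  have hblock : SBlock F N S b := by
    refine ⟨?_, ?_, P, hP, ?_⟩
    · intro h0
      have h1 := hwb e0
      rw [h0, Pi.zero_apply, pow_zero] at h1
      exact he0 h1
    · intro z c' hz
      have hrad := D.rad z c' hz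
      choose dd hd using D.deg z c' hz
      have hz0 : z ≠ 0 := by
        intro h0
        rw [h0, zero_pow D.N_pos.ne'] at hrad
        exact (Finset.prod_ne_zero_iff.2 fun e _ => pow_ne_zero _ (hlne e)) hrad.symm
      set H : K := ∏ i, h i ^ dd i with hH'
      have hH0 : H ≠ 0 := Finset.prod_ne_zero_iff.2 fun i _ => pow_ne_zero _ (hh0 i)
      obtain ⟨k, u', hu', hk⟩ := repdet_exists_zpow v ht0 ht1 htmax (div_ne_zero hz0 hH0)
      have h1 : v (z / H) ^ N = ∏ e, v (y e) ^ c' e := by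
        have h2 : (z / H) ^ N = ∏ e, y e ^ c' e := by
          rw [div_pow, hrad, div_eq_iff (pow_ne_zero _ hH0)]
          have h3 : ∀ e, aeval (Uni.hom x) (F e) = (∏ i, h i ^ d e i) * y e := hly
          simp only [h3, mul_pow, Finset.prod_mul_distrib]
          rw [mul_comm]
          congr 1
          rw [hH']
          simp only [← Finset.prod_pow]
          rw [Finset.prod_comm]
          refine Finset.prod_congr rfl fun i _ => ?_
          rw [← pow_mul, mul_comm (dd i) N, ← hd i, ← Finset.prod_pow_eq_pow_sum]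
          refine Finset.prod_congr rfl fun e _ => ?_
          rw [← pow_mul, mul_comm (d e i)]
        rw [← map_pow, h2]
        simp only [map_prod, map_pow]
      have h2 : v (z / H) = v t ^ k := by rw [hk, map_mul, hu', mul_one, map_zpow₀]
      rw [h2] at h1
      have h3 : ∏ e, v (y e) ^ c' e = v t ^ (∑ e, (b e : ℤ) * (c' e : ℤ)) := by
        simp only [hwb]
        have h4 : ∑ e, (b e : ℤ) * (c' e : ℤ) = ((∑ e, b e * c' e : ℕ) : ℤ) := by
          push_cast; rfl
        rw [h4, zpow_natCast, ← Finset.prod_pow_eq_pow_sum]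
        exact Finset.prod_congr rfl fun e _ => (pow_mul _ _ _).symm
      rw [h3, ← zpow_natCast, ← zpow_mul] at h1
      have h5 := hinj h1
      have h6 : ((∑ e, b e * c' e : ℕ) : ℤ) = (N : ℤ) * k := by
        push_cast
        rw [← h5]
        ring
      exact Int.natCast_dvd_natCast.1 ⟨k, h6⟩
    · intro e he
      refine hPF e ?_
      change v (y e) < 1
      rw [hwb]
      exact pow_lt_one₀ zero_le ht1 he
  have hMb := hb b hblock
  have h6 : ∏ e, v (y e) ^ A e = v t ^ (∑ e, A e * b e) := by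
    simp only [hwb]
    rw [← Finset.prod_pow_eq_pow_sum]
    refine Finset.prod_congr rfl fun e _ => ?_
    rw [← pow_mul, mul_comm]
  rw [h6]
  exact pow_le_pow_right_of_le_one' ht1.le hMb

end cover

end Pool.Agent.Work.Snc
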