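import Mathlib
import Pool.Agent.Work.MP_4329d7_ag_uni.LP

/-!
The alternative weights / packing with degrees (after helper51's `weights_or_packing`).
-/

namespace Pool.Agent.Work.Snc

open Pool.Agent.Work.Uni

theorem weights_or_packing_deg {E I : Type} [Fintype E] [DecidableEq E] [Fintype I]
    (d : E → I → ℕ) (κ : I → ℤ) (Bs : Finset (E → ℕ)) (N : ℕ) (hN : 0 < N)
    (hsing : ∀ p, (Pi.single p N : E → ℕ) ∈ Bs) :
    (∃ (M : ℕ) (A : E → ℕ), 0 < M ∧ (∀ i, ∑ e, (A e : ℤ) * d e i ≤ κ i * M) ∧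
      ∀ b ∈ Bs, M ≤ ∑ p, A p * b p) ∨
    (∃ (lam : (E → ℕ) → ℕ) (m : I → ℕ), (∀ p, ∑ b ∈ Bs, lam b * b p = ∑ i, d p i * m i) ∧
      ∑ i, κ i * m i < ∑ b ∈ Bs, (lam b : ℤ)) := by
  classical
  -- the functionals
  let e := Fintype.equivFin (I ⊕ Bs)
  let F : I ⊕ Bs → ((E → ℚ) × ℚ) →ₗ[ℚ] ℚ := fun s => match s with
    | Sum.inl i => (∑ p, (d p i : ℚ) • (LinearMap.proj p).comp (LinearMap.fst ℚ (E → ℚ) ℚ)) -
        (κ i : ℚ) • LinearMap.snd ℚ (E → ℚ) ℚ
    | Sum.inr b => LinearMap.snd ℚ (E → ℚ) ℚ -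
        ∑ p, ((b.1 p : ℕ) : ℚ) • (LinearMap.proj p).comp (LinearMap.fst ℚ (E → ℚ) ℚ)
  have hFl : ∀ i (x : (E → ℚ) × ℚ), F (Sum.inl i) x =
      ∑ p, (d p i : ℚ) * x.1 p - κ i * x.2 := by
    intro i x
    simp [F, LinearMap.sum_apply]
  have hFr : ∀ (b : Bs) (x : (E → ℚ) × ℚ), F (Sum.inr b) x = x.2 - ∑ p, (b.1 p : ℚ) * x.1 p := by
    intro b x
    simp [F, LinearMap.sum_apply]
  by_cases hex : ∃ x, (∀ i, F (e.symm i) x ≤ 0) ∧ 0 < LinearMap.snd ℚ (E → ℚ) ℚ x
  · left
    obtain ⟨⟨A, s⟩, h1, hs⟩ := hex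
    have hs' : 0 < s := hs
    have hl : ∀ i, ∑ p, (d p i : ℚ) * A p ≤ κ i * s := by
      intro i
      have := h1 (e (Sum.inl i))
      rw [Equiv.symm_apply_apply, hFl] at this
      simpa using this
    have hr : ∀ b ∈ Bs, s ≤ ∑ p, (b p : ℚ) * A p := by
      intro b hb
      have := h1 (e (Sum.inr ⟨b, hb⟩))
      rw [Equiv.symm_apply_apply, hFr] at this
      simpa using this
    have hA : ∀ p, 0 ≤ A p := by
      intro p
      have := hr _ (hsing p)
      rw [Finset.sum_eq_single p] at this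
      · rw [Pi.single_eq_same] at this
        have hN' : (0 : ℚ) < N := by exact_mod_cast hN
        by_contra hc
        have h3 : (N : ℚ) * A p < 0 := mul_neg_of_pos_of_neg hN' (not_le.1 hc)
        linarith
      · intro q _ hq
        rw [Pi.single_eq_of_ne hq]
        simp
      · intro h
        exact absurd (Finset.mem_univ p) h
    obtain ⟨D, z, hD, hz⟩ := lp_common_den (fun o : Option E => o.elim s A) (by
      intro o
      cases o with
      | none => exact hs'.le
      | some p => exact hA p)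
    have hD' : (0 : ℚ) < D := by exact_mod_cast hD
    have hzs : ((z none : ℕ) : ℚ) = s * D := hz none
    have hzp : ∀ p, ((z (some p) : ℕ) : ℚ) = A p * D := fun p => hz (some p)
    refine ⟨z none, fun p => z (some p), ?_, ?_, ?_⟩
    · have : (0 : ℚ) < (z none : ℕ) := by
        rw [hzs]
        exact mul_pos hs' hD'
      exact_mod_cast this
    · intro i
      have : ((∑ p, ((z (some p) : ℕ) : ℤ) * d p i : ℤ) : ℚ) ≤ ((κ i * (z none : ℕ) : ℤ) : ℚ) := by
        push_cast
        rw [hzs]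
        calc (∑ p, ((z (some p) : ℕ) : ℚ) * (d p i : ℚ)) = (∑ p, (d p i : ℚ) * A p) * D := by
              rw [Finset.sum_mul]
              exact Finset.sum_congr rfl fun p _ => by rw [hzp p]; ring
          _ ≤ (κ i * s) * D := mul_le_mul_of_nonneg_right (hl i) hD'.le
          _ = κ i * (s * D) := by ring
      exact_mod_cast this
    · intro b hb
      have : ((z none : ℕ) : ℚ) ≤ ((∑ p, z (some p) * b p : ℕ) : ℚ) := by
        push_cast
        rw [hzs]
        calc s * D ≤ (∑ p, (b p : ℚ) * A p) * D := mul_le_mul_of_nonneg_right (hr b hb) hD'.le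
          _ = ∑ p, ((z (some p) : ℕ) : ℚ) * (b p : ℚ) := by
              rw [Finset.sum_mul]
              exact Finset.sum_congr rfl fun p _ => by rw [hzp p]; ring
      exact_mod_cast this
  · right
    obtain ⟨c, hc0, hc⟩ := farkas (fun i => F (e.symm i)) (LinearMap.snd ℚ (E → ℚ) ℚ) hex
    -- the coefficients
    have hsum : LinearMap.snd ℚ (E → ℚ) ℚ =
        ∑ i, c (e (Sum.inl i)) • F (Sum.inl i) + ∑ b : Bs, c (e (Sum.inr b)) • F (Sum.inr b) := by
      rw [hc, ← Equiv.sum_comp e, Fintype.sum_sum_type]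
      simp only [Equiv.symm_apply_apply]
    obtain ⟨D, z, hD, hz⟩ := lp_common_den (fun s : I ⊕ Bs => c (e s)) (fun s => hc0 _)
    have hD' : (0 : ℚ) < D := by exact_mod_cast hD
    have hzl : ∀ i, ((z (Sum.inl i) : ℕ) : ℚ) = c (e (Sum.inl i)) * D := fun i => hz _
    have hzr : ∀ b, ((z (Sum.inr b) : ℕ) : ℚ) = c (e (Sum.inr b)) * D := fun b => hz _
    have hev : ∀ x : (E → ℚ) × ℚ, x.2 = ∑ i, c (e (Sum.inl i)) * (∑ p, (d p i : ℚ) * x.1 p -
        κ i * x.2) + ∑ b : Bs, c (e (Sum.inr b)) * (x.2 - ∑ p, (b.1 p : ℚ) * x.1 p) := by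
      intro x
      have h1 := LinearMap.congr_fun hsum x
      simp only [LinearMap.add_apply, LinearMap.sum_apply, LinearMap.smul_apply, smul_eq_mul, hFl,
        hFr] at h1
      exact h1
    let lam : (E → ℕ) → ℕ := fun b => if hb : b ∈ Bs then z (Sum.inr ⟨b, hb⟩) else 0
    have hlam : ∀ b : Bs, lam b.1 = z (Sum.inr b) := by
      intro b
      simp only [lam, dif_pos b.2, Subtype.coe_eta]
    refine ⟨lam, fun i => z (Sum.inl i), ?_, ?_⟩
    · intro p
      have h1 := hev (Pi.single p 1, 0)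
      have h2 : ∀ i, (∑ q, (d q i : ℚ) * (Pi.single p 1 : E → ℚ) q) = d p i := by
        intro i
        rw [Finset.sum_eq_single p]
        · rw [Pi.single_eq_same, mul_one]
        · intro q _ hq
          rw [Pi.single_eq_of_ne hq]
          simp
        · intro h
          exact absurd (Finset.mem_univ p) h
      have h3 : ∀ b : Bs, (∑ q, (b.1 q : ℚ) * (Pi.single p 1 : E → ℚ) q) = b.1 p := by
        intro b
        rw [Finset.sum_eq_single p]
        · rw [Pi.single_eq_same, mul_one]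
        · intro q _ hq
          rw [Pi.single_eq_of_ne hq]
          simp
        · intro h
          exact absurd (Finset.mem_univ p) h
      simp only [h2, h3, mul_zero, sub_zero, zero_sub, mul_neg, Finset.sum_neg_distrib] at h1
      have h4 : ((∑ b ∈ Bs, lam b * b p : ℕ) : ℚ) =
          ((∑ i, d p i * z (Sum.inl i) : ℕ) : ℚ) := by
        rw [← Finset.sum_coe_sort Bs]
        push_cast
        calc (∑ b : Bs, ((lam b.1 : ℕ) : ℚ) * (b.1 p : ℚ))
            = (∑ b : Bs, c (e (Sum.inr b)) * (b.1 p : ℚ)) * D := by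
              rw [Finset.sum_mul]
              exact Finset.sum_congr rfl fun b _ => by rw [hlam, hzr]; ring
          _ = (∑ i, c (e (Sum.inl i)) * (d p i : ℚ)) * D := by
              congr 1
              linarith
          _ = ∑ i, (d p i : ℚ) * ((z (Sum.inl i) : ℕ) : ℚ) := by
              rw [Finset.sum_mul]
              exact Finset.sum_congr rfl fun i _ => by rw [hzl]; ring
      exact_mod_cast h4
    · have h1 := hev (0, 1)
      simp only [Pi.zero_apply, mul_zero, Finset.sum_const_zero, zero_sub, mul_one, sub_zero]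
        at h1
      have h4 : ((∑ i, κ i * ((z (Sum.inl i) : ℕ) : ℤ) : ℤ) : ℚ) <
          ((∑ b ∈ Bs, (lam b : ℤ) : ℤ) : ℚ) := by
        rw [← Finset.sum_coe_sort Bs]
        push_cast
        have e1 : (∑ i, (κ i : ℚ) * ((z (Sum.inl i) : ℕ) : ℚ)) =
            (∑ i, c (e (Sum.inl i)) * κ i) * D := by
          rw [Finset.sum_mul]
          exact Finset.sum_congr rfl fun i _ => by rw [hzl]; ring
        have e2 : (∑ b : Bs, ((lam b.1 : ℕ) : ℚ)) = (∑ b : Bs, c (e (Sum.inr b))) * D := by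
          rw [Finset.sum_mul]
          exact Finset.sum_congr rfl fun b _ => by rw [hlam, hzr]
        rw [e1, e2]
        apply mul_lt_mul_of_pos_right _ hD'
        have e3 : (∑ i, c (e (Sum.inl i)) * -(κ i : ℚ)) = -∑ i, c (e (Sum.inl i)) * κ i := by
          rw [← Finset.sum_neg_distrib]
          exact Finset.sum_congr rfl fun i _ => by ring
        rw [e3] at h1
        linarith
      exact_mod_cast h4

end Pool.Agent.Work.Snc
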