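import Mathlib
import Pool.Agent.Work.MP_4329d7_ag_uni.Wqo

/-!
Uniform weights with degrees (helper44): if there are weights then there are weights whose common
denominator depends only on the total dimension (not on the divisors, their degrees and the set
of blocks).
-/

namespace Pool.Agent.Work.Snc

open Finset Pool.Agent.Work.Uni

section dom

variable {v : ℕ}

/-- the integer vectors on the support of `a` below the hyperplane `a ⬝ b = c` -/
def low (a : Fin v → ℚ) (c : ℚ) : Set (Fin v → ℕ) :=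
  {b | (∀ e, a e = 0 → b e = 0) ∧ ∑ e, a e * b e < c}

theorem low_finite (a : Fin v → ℚ) (ha : ∀ e, 0 ≤ a e) (c : ℚ) : (low a c).Finite := by
  refine (Set.Finite.pi' fun e => Set.finite_Iic ⌊c / a e⌋₊).subset ?_
  intro b hb e
  rw [Set.mem_Iic]
  by_cases h : a e = 0
  · rw [hb.1 e h]
    exact Nat.zero_le _
  · have h0 : 0 < a e := lt_of_le_of_ne (ha e) (Ne.symm h)
    refine Nat.le_floor ?_
    rw [le_div_iff₀ h0, mul_comm]
    refine le_trans ?_ hb.2.le
    exact single_le_sum (f := fun e => a e * (b e : ℚ))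
      (fun e _ => mul_nonneg (ha e) (Nat.cast_nonneg _)) (mem_univ e)

/-- the same as a list -/
noncomputable def lowL (a : {a : Fin v → ℚ // ∀ e, 0 ≤ a e}) (c : ℚ) : List (Fin v → ℕ) :=
  (low_finite a.1 a.2 c).toFinset.toList

theorem mem_lowL (a : {a : Fin v → ℚ // ∀ e, 0 ≤ a e}) (c : ℚ) (b : Fin v → ℕ) :
    b ∈ lowL a c ↔ b ∈ low a.1 c := by
  simp only [lowL, mem_toList, Set.Finite.mem_toFinset]

theorem dom_of_sublist (a a' : {a : Fin v → ℚ // ∀ e, 0 ≤ a e})
    (hs : ∀ e, a.1 e = 0 ↔ a'.1 e = 0) (c : ℚ)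
    (h : List.SublistForall₂ (· ≤ ·) (lowL a c) (lowL a' c)) (b : Fin v → ℕ)
    (hb : c ≤ ∑ e, a'.1 e * (b e : ℚ)) : c ≤ ∑ e, a.1 e * (b e : ℚ) := by
  by_contra hcon
  push Not at hcon
  let b' : Fin v → ℕ := fun e => if a.1 e = 0 then 0 else b e
  have h1 : ∑ e, a.1 e * (b' e : ℚ) = ∑ e, a.1 e * (b e : ℚ) := by
    refine sum_congr rfl fun e _ => ?_
    by_cases h0 : a.1 e = 0
    · rw [h0, zero_mul, zero_mul]
    · simp only [b', if_neg h0]
  have h2 : ∑ e, a'.1 e * (b' e : ℚ) = ∑ e, a'.1 e * (b e : ℚ) := by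
    refine sum_congr rfl fun e _ => ?_
    by_cases h0 : a.1 e = 0
    · rw [(hs e).1 h0, zero_mul, zero_mul]
    · simp only [b', if_neg h0]
  have h3 : b' ∈ lowL a c := by
    rw [mem_lowL]
    refine ⟨fun e he => if_pos he, ?_⟩
    rw [h1]
    exact hcon
  obtain ⟨y, hy, hle⟩ := SublistForall₂.exists_of_mem h b' h3
  rw [mem_lowL] at hy
  have h4 : ∑ e, a'.1 e * (b' e : ℚ) ≤ ∑ e, a'.1 e * (y e : ℚ) := by
    refine sum_le_sum fun e _ => ?_
    exact mul_le_mul_of_nonneg_left (by exact_mod_cast hle e) (a'.2 e)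
  rw [h2] at h4
  exact absurd (hb.trans h4) (not_le.2 hy.2)

/-- `A` as a nonnegative vector -/
def posA (A : Wt v) : {a : Fin v → ℚ // ∀ e, 0 ≤ a e} := ⟨A.1, fun e => (A.2 e).1⟩

/-- `1 - A` as a nonnegative vector -/
def posX (A : Wt v) : {a : Fin v → ℚ // ∀ e, 0 ≤ a e} :=
  ⟨fun e => 1 - A.1 e, fun e => sub_nonneg.2 (A.2 e).2⟩

/-- `A` dominates `A'` -/
def DomD (R : ℕ) (A A' : Wt v) : Prop :=
  (∀ e, A.1 e = 0 ↔ A'.1 e = 0) ∧
  (∀ b : Fin v → ℕ, 1 ≤ ∑ e, A'.1 e * (b e : ℚ) → 1 ≤ ∑ e, A.1 e * (b e : ℚ)) ∧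
  ∀ c : Fin (R + 1), ∀ b : Fin v → ℕ, ((c : ℕ) : ℚ) ≤ ∑ e, (1 - A'.1 e) * (b e : ℚ) →
    ((c : ℕ) : ℚ) ≤ ∑ e, (1 - A.1 e) * (b e : ℚ)

theorem wqo_list : WellQuasiOrdered
    (List.SublistForall₂ (· ≤ ·) : List (Fin v → ℕ) → List (Fin v → ℕ) → Prop) := by
  have hpwo : (Set.univ : Set (Fin v → ℕ)).PartiallyWellOrderedOn (· ≤ ·) := fun s =>
    wellQuasiOrdered_le (fun n => (s n).1)
  intro f
  exact Set.PartiallyWellOrderedOn.partiallyWellOrderedOn_sublistForall₂
    (· ≤ ·) hpwo (fun n => ⟨f n, fun _ _ => Set.mem_univ _⟩)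

theorem wqo_domD (R : ℕ) : WellQuasiOrdered (DomD (v := v) R) := by
  classical
  intro f
  obtain ⟨g, hg⟩ := (Finite.wellQuasiOrdered
    (Eq : (Fin v → Bool × Bool) → _ → Prop)).exists_monotone_subseq
    (fun j => fun e => (decide ((f j).1 e = 0), decide (1 - (f j).1 e = 0)))
  have : IsPreorder (List (Fin v → ℕ)) (List.SublistForall₂ (· ≤ ·)) :=
    { refl := fun a => List.SublistForall₂.is_refl.refl a
      trans := fun a b c => List.SublistForall₂.is_trans.trans a b c }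
  have hpi := WellQuasiOrdered.pi (ι := Option (Fin (R + 1)))
    (α := fun _ => List (Fin v → ℕ)) (r := fun _ => List.SublistForall₂ (· ≤ ·))
    (fun _ => wqo_list)
  obtain ⟨i, j, hij, h⟩ := hpi fun n => fun o =>
    o.elim (lowL (posA (f (g n))) 1) fun c => lowL (posX (f (g n))) ((c : ℕ) : ℚ)
  have hinfo := fun e => congrFun (hg i j hij.le) e
  have hs0 : ∀ e, (f (g i)).1 e = 0 ↔ (f (g j)).1 e = 0 := by
    intro e
    have := congrArg Prod.fst (hinfo e)
    simpa using this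
  have hs1 : ∀ e, 1 - (f (g i)).1 e = 0 ↔ 1 - (f (g j)).1 e = 0 := by
    intro e
    have := congrArg Prod.snd (hinfo e)
    simpa using this
  refine ⟨g i, g j, g.strictMono hij, hs0, fun b hb => ?_, fun c b hb => ?_⟩
  · exact dom_of_sublist (posA (f (g i))) (posA (f (g j))) hs0 1 (h none) b hb
  · exact dom_of_sublist (posX (f (g i))) (posX (f (g j))) hs1 _ (h (some c)) b hb

/-- a common denominator for a finite dominating set -/
theorem exists_denomD (v R : ℕ) : ∃ M : ℕ, 2 ≤ M ∧ ∀ A : Fin v → ℚ, (∀ e, 0 ≤ A e ∧ A e ≤ 1) →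
    ∃ A' : Fin v → ℕ, (∀ e, A' e ≤ M) ∧
      (∀ b : Fin v → ℕ, 1 ≤ ∑ e, A e * (b e : ℚ) → M ≤ ∑ e, A' e * b e) ∧
      (∀ e, 0 < A e → 0 < A' e) ∧
      ∀ (b : Fin v → ℕ) (c : ℕ), c ≤ R → (c : ℚ) ≤ ∑ e, (1 - A e) * (b e : ℚ) →
        c * M ≤ ∑ e, (M - A' e) * b e := by
  classical
  obtain ⟨F, hF⟩ := exists_finite_dom (wqo_domD (v := v) R)
  have hMpos : 0 < ∏ A ∈ F, ∏ e, (A.1 e).den :=
    prod_pos fun A _ => prod_pos fun e _ => (A.1 e).den_pos
  refine ⟨2 * ∏ A ∈ F, ∏ e, (A.1 e).den, by omega, fun A hA => ?_⟩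
  set M := 2 * ∏ A ∈ F, ∏ e, (A.1 e).den with hM
  obtain ⟨D, hD, hdom⟩ := hF ⟨A, hA⟩
  have hnat : ∀ e, ∃ k : ℕ, (k : ℚ) = M * D.1 e := by
    intro e
    have hdvd : (D.1 e).den ∣ M := by
      rw [hM]
      refine Dvd.dvd.mul_left ?_ _
      exact (dvd_prod_of_mem (fun e => (D.1 e).den) (mem_univ e)).trans
        (dvd_prod_of_mem (fun A : Wt v => ∏ e, (A.1 e).den) hD)
    obtain ⟨c, hc⟩ := hdvd
    refine ⟨c * (D.1 e).num.toNat, ?_⟩
    have hnum : (((D.1 e).num.toNat : ℕ) : ℚ) = ((D.1 e).num : ℚ) := by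
      have : 0 ≤ (D.1 e).num := Rat.num_nonneg.2 (D.2 e).1
      have h2 := Int.toNat_of_nonneg this
      exact_mod_cast h2
    rw [Nat.cast_mul, hnum, hc, Nat.cast_mul]
    have hden : ((D.1 e).den : ℚ) * D.1 e = (D.1 e).num := by
      rw [mul_comm]
      exact Rat.mul_den_eq_num _
    rw [mul_comm ((D.1 e).den : ℚ) c, mul_assoc, hden]
  choose A' hA' using hnat
  have hM0 : (0 : ℚ) < M := by
    have : 0 < M := by omega
    exact_mod_cast this
  have hle : ∀ e, A' e ≤ M := by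
    intro e
    have h1 : (A' e : ℚ) ≤ M := by
      rw [hA']
      exact mul_le_of_le_one_right hM0.le (D.2 e).2
    exact_mod_cast h1
  refine ⟨A', hle, ?_, ?_, ?_⟩
  · intro b hb
    have h1 := hdom.2.1 b hb
    have h2 : (M : ℚ) ≤ ∑ e, (A' e : ℚ) * b e := by
      calc (M : ℚ) = M * 1 := (mul_one _).symm
        _ ≤ M * ∑ e, D.1 e * b e := mul_le_mul_of_nonneg_left h1 hM0.le
        _ = ∑ e, (A' e : ℚ) * b e := by
          rw [mul_sum]
          exact sum_congr rfl fun e _ => by rw [hA', mul_assoc]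
    exact_mod_cast h2
  · intro e he
    have h2 : D.1 e ≠ 0 := fun h0 => he.ne' ((hdom.1 e).1 h0)
    have h3 : (0 : ℚ) < A' e := by
      rw [hA']
      exact mul_pos hM0 (lt_of_le_of_ne (D.2 e).1 (Ne.symm h2))
    exact_mod_cast h3
  · intro b c hc hs
    have h1 := hdom.2.2 ⟨c, Nat.lt_succ_of_le hc⟩ b hs
    have h2 : ((c * M : ℕ) : ℚ) ≤ ((∑ e, (M - A' e) * b e : ℕ) : ℚ) := by
      push_cast
      calc (c : ℚ) * M = M * c := mul_comm _ _
        _ ≤ M * ∑ e, (1 - D.1 e) * (b e : ℚ) := mul_le_mul_of_nonneg_left h1 hM0.le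
        _ = ∑ e, ((M - A' e : ℕ) : ℚ) * (b e : ℚ) := by
          rw [mul_sum]
          exact sum_congr rfl fun e _ => by rw [Nat.cast_sub (hle e), hA']; ring
    exact_mod_cast h2

end dom

/-- the same for all finite types with at most `v` elements -/
theorem exists_denomD' (v R : ℕ) : ∃ M : ℕ, 2 ≤ M ∧
    ∀ (V : Type) [Fintype V], Fintype.card V ≤ v → ∀ A : V → ℚ, (∀ e, 0 ≤ A e ∧ A e ≤ 1) →
    ∃ A' : V → ℕ, (∀ e, A' e ≤ M) ∧
      (∀ b : V → ℕ, 1 ≤ ∑ e, A e * (b e : ℚ) → M ≤ ∑ e, A' e * b e) ∧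
      (∀ e, 0 < A e → 0 < A' e) ∧
      ∀ (b : V → ℕ) (c : ℕ), c ≤ R → (c : ℚ) ≤ ∑ e, (1 - A e) * (b e : ℚ) →
        c * M ≤ ∑ e, (M - A' e) * b e := by
  classical
  obtain ⟨M, hM, h⟩ := exists_denomD v R
  refine ⟨M, hM, fun V _ hV A hA => ?_⟩
  let ι : V → Fin v := fun e => Fin.castLE hV (Fintype.equivFin V e)
  have hι : Function.Injective ι := (Fin.castLE_injective hV).comp (Fintype.equivFin V).injective
  let A1 : Fin v → ℚ := Function.extend ι A 0
  have hA1 : ∀ e, A1 (ι e) = A e := fun e => hι.extend_apply _ _ _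
  have hA1' : ∀ j, j ∉ Set.range ι → A1 j = 0 := fun j hj =>
    Function.extend_apply' _ _ _ (fun ⟨e, he⟩ => hj ⟨e, he⟩)
  obtain ⟨B, hB1, hB2, hB3, hB4⟩ := h A1 (fun j => by
    by_cases hj : j ∈ Set.range ι
    · obtain ⟨e, rfl⟩ := hj
      rw [hA1]
      exact hA e
    · rw [hA1' j hj]
      norm_num)
  have hb1 : ∀ (b : V → ℕ) e, Function.extend ι b 0 (ι e) = b e := fun b e =>
    hι.extend_apply _ _ _
  have hb1' : ∀ (b : V → ℕ) j, j ∉ Set.range ι → Function.extend ι b 0 j = 0 := fun b j hj =>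
    Function.extend_apply' _ _ _ (fun ⟨e, he⟩ => hj ⟨e, he⟩)
  refine ⟨fun e => B (ι e), fun e => hB1 _, fun b hb => ?_, fun e he => hB3 _ (by rwa [hA1]),
    fun b c hc hs => ?_⟩
  · have h1 : ∑ e, A e * (b e : ℚ) = ∑ j, A1 j * ((Function.extend ι b 0 j : ℕ) : ℚ) :=
      Fintype.sum_of_injective ι hι _ _ (fun j hj => by rw [hA1' j hj, zero_mul])
        (fun e => by rw [hA1, hb1])
    have h2 : ∑ e, B (ι e) * b e = ∑ j, B j * Function.extend ι b 0 j :=
      Fintype.sum_of_injective ι hι _ _ (fun j hj => by rw [hb1' b j hj, mul_zero])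
        (fun e => by rw [hb1])
    rw [h2]
    exact hB2 _ (by rw [← h1]; exact hb)
  · have h1 : ∑ e, (1 - A e) * (b e : ℚ) =
        ∑ j, (1 - A1 j) * ((Function.extend ι b 0 j : ℕ) : ℚ) :=
      Fintype.sum_of_injective ι hι _ _ (fun j hj => by rw [hb1' b j hj, Nat.cast_zero, mul_zero])
        (fun e => by rw [hA1, hb1])
    have h2 : ∑ e, (M - B (ι e)) * b e = ∑ j, (M - B j) * Function.extend ι b 0 j :=
      Fintype.sum_of_injective ι hι _ _ (fun j hj => by rw [hb1' b j hj, mul_zero])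
        (fun e => by rw [hb1])
    rw [h2]
    exact hB4 _ c hc (by rw [← h1]; exact hs)

section

variable {I E : Type} [Fintype I] [DecidableEq I] [Fintype E] [DecidableEq E]

/-- rational weights, in terms of the deficits `1 - A` -/
structure RatWtD (n : I → ℕ) (d : E → I → ℕ) (B : Set (E → ℕ)) (A : E → ℚ) : Prop where
  box : ∀ e, 0 ≤ A e ∧ A e ≤ 1
  fac : ∀ i, ((n i + 1 : ℕ) : ℚ) ≤ ∑ e, (1 - A e) * (d e i : ℚ)
  blk : ∀ b ∈ B, 1 ≤ ∑ e, A e * (b e : ℚ)

/-- weights with denominator `M` -/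
structure NatWtD (n : I → ℕ) (d : E → I → ℕ) (B : Set (E → ℕ)) (M : ℕ) (A : E → ℕ) : Prop where
  box : ∀ e, A e ≤ M
  fac : ∀ i, (n i + 1) * M ≤ ∑ e, (M - A e) * d e i
  blk : ∀ b ∈ B, M ≤ ∑ e, A e * b e

omit [Fintype I] [DecidableEq I] [DecidableEq E] in
theorem NatWtD.smul {n : I → ℕ} {d : E → I → ℕ} {B : Set (E → ℕ)} {M : ℕ} {A : E → ℕ}
    (h : NatWtD n d B M A) (k : ℕ) : NatWtD n d B (k * M) (fun e => k * A e) where
  box := fun e => Nat.mul_le_mul_left _ (h.box e)
  fac := fun i => by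
    calc (n i + 1) * (k * M) = k * ((n i + 1) * M) := by ring
      _ ≤ k * ∑ e, (M - A e) * d e i := Nat.mul_le_mul_left _ (h.fac i)
      _ = _ := by rw [mul_sum]; exact sum_congr rfl fun e _ => by rw [← Nat.mul_sub, mul_assoc]
  blk := fun b hb => by
    calc k * M ≤ k * ∑ e, A e * b e := Nat.mul_le_mul_left _ (h.blk b hb)
      _ = _ := by rw [mul_sum]; exact sum_congr rfl fun e _ => by ring

omit [Fintype I] [DecidableEq I] in
/-- the case in which every factor that is not settled by `V` has a large degree outside -/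
theorem case_manyD {v R M : ℕ} (hM2 : 2 ≤ M)
    (hM : ∀ (V : Type) [Fintype V], Fintype.card V ≤ v → ∀ A : V → ℚ,
      (∀ e, 0 ≤ A e ∧ A e ≤ 1) → ∃ A' : V → ℕ, (∀ e, A' e ≤ M) ∧
      (∀ b : V → ℕ, 1 ≤ ∑ e, A e * (b e : ℚ) → M ≤ ∑ e, A' e * b e) ∧
      (∀ e, 0 < A e → 0 < A' e) ∧
      ∀ (b : V → ℕ) (c : ℕ), c ≤ R → (c : ℚ) ≤ ∑ e, (1 - A e) * (b e : ℚ) →
        c * M ≤ ∑ e, (M - A' e) * b e)
    (n : I → ℕ) (hR : ∀ i, n i + 1 ≤ R) (d : E → I → ℕ) (B : Set (E → ℕ))
    (A : E → ℚ) (hA : RatWtD n d B A) (V : Finset E) (J : Finset I) (hV : V.card ≤ v)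
    (hVJ : ∀ i, i ∉ J → ((n i + 1 : ℕ) : ℚ) ≤ ∑ e ∈ V, (1 - A e) * (d e i : ℚ))
    (hmany : ∀ i ∈ J, (n i + 1) * M ≤ ∑ e ∈ univ.filter fun e => e ∉ V ∧ A e < 1, d e i) :
    ∃ A' : E → ℕ, NatWtD n d B M A' := by
  classical
  obtain ⟨C, hC1, hC2, hC3, hC4⟩ := hM V (by rwa [Fintype.card_coe]) (fun e => A e.1)
    (fun e => hA.box _)
  let A' : E → ℕ := fun e => if h : e ∈ V then C ⟨e, h⟩ else if A e < 1 then M - 1 else M
  have hAV : ∀ e (h : e ∈ V), A' e = C ⟨e, h⟩ := fun e h => by simp only [A', dif_pos h]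
  have hAW : ∀ e, e ∉ V → A e < 1 → A' e = M - 1 := fun e h h' => by
    simp only [A', dif_neg h, if_pos h']
  have hAO : ∀ e, e ∉ V → ¬ A e < 1 → A' e = M := fun e h h' => by
    simp only [A', dif_neg h, if_neg h']
  have hle : ∀ e, A' e ≤ M := by
    intro e
    by_cases h : e ∈ V
    · rw [hAV e h]
      exact hC1 _
    · by_cases h' : A e < 1
      · rw [hAW e h h']
        omega
      · rw [hAO e h h']
  have hge : ∀ e, e ∉ V → M - 1 ≤ A' e := by
    intro e h
    by_cases h' : A e < 1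
    · rw [hAW e h h']
    · rw [hAO e h h']
      omega
  refine ⟨A', hle, fun i => ?_, fun b hb => ?_⟩
  · by_cases hi : i ∈ J
    · refine (hmany i hi).trans ?_
      calc ∑ e ∈ univ.filter fun e => e ∉ V ∧ A e < 1, d e i
          = ∑ e ∈ univ.filter fun e => e ∉ V ∧ A e < 1, (M - A' e) * d e i := by
            refine sum_congr rfl fun e he => ?_
            obtain ⟨-, h1, h2⟩ := mem_filter.1 he
            rw [hAW e h1 h2, show M - (M - 1) = 1 by omega, one_mul]
        _ ≤ ∑ e, (M - A' e) * d e i :=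
            sum_le_sum_of_subset (filter_subset _ _)
    · have h1 := hVJ i hi
      rw [← sum_coe_sort V] at h1
      have h2 := hC4 (fun e => d e.1 i) (n i + 1) (hR i) h1
      refine h2.trans ?_
      calc ∑ e : V, (M - C e) * d e.1 i = ∑ e ∈ V, (M - A' e) * d e i := by
            rw [← sum_coe_sort V]
            exact sum_congr rfl fun e _ => by rw [hAV e.1 e.2]
        _ ≤ ∑ e, (M - A' e) * d e i := sum_le_sum_of_subset (subset_univ _)
  · have hsplit : ∑ e, A' e * b e = ∑ e ∈ V, A' e * b e + ∑ e ∈ Vᶜ, A' e * b e :=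
      (sum_add_sum_compl V _).symm
    rw [hsplit]
    rcases Nat.lt_or_ge 1 (∑ e ∈ Vᶜ, b e) with h2 | h2
    · -- at least two outside `V`
      have h3 : (M - 1) * ∑ e ∈ Vᶜ, b e ≤ ∑ e ∈ Vᶜ, A' e * b e := by
        rw [mul_sum]
        refine sum_le_sum fun e he => Nat.mul_le_mul_right _ (hge e (mem_compl.1 he))
      have h4 : (M - 1) * 2 ≤ (M - 1) * ∑ e ∈ Vᶜ, b e := Nat.mul_le_mul_left _ h2
      omega
    · have hAb := hA.blk b hb
      rw [← sum_add_sum_compl V] at hAb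
      rcases Nat.eq_zero_or_pos (∑ e ∈ Vᶜ, b e) with h0 | h0
      · -- supported on `V`
        have hz : ∀ e ∈ Vᶜ, b e = 0 := sum_eq_zero_iff.1 h0
        rw [sum_eq_zero (s := Vᶜ) (fun e he => by rw [hz e he, Nat.cast_zero, mul_zero]),
          add_zero, ← sum_coe_sort V] at hAb
        have := hC2 (fun e => b e.1) hAb
        refine le_trans this (le_trans (le_of_eq ?_) (Nat.le_add_right _ _))
        rw [← sum_coe_sort V]
        exact sum_congr rfl fun e _ => by rw [hAV e.1 e.2]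
      · -- exactly one outside `V`
        have h1 : ∑ e ∈ Vᶜ, b e = 1 := by omega
        obtain ⟨e0, he0, hbe0⟩ : ∃ e ∈ Vᶜ, 0 < b e := by
          by_contra hcon
          push Not at hcon
          rw [sum_eq_zero fun e he => Nat.le_zero.1 (hcon e he)] at h1
          exact absurd h1 (by norm_num)
        have hle1 : b e0 ≤ ∑ e ∈ Vᶜ, b e := single_le_sum (fun _ _ => Nat.zero_le _) he0
        have hb1 : b e0 = 1 := by omega
        have hother : ∀ e ∈ Vᶜ, e ≠ e0 → b e = 0 := by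
          intro e he hne
          have := add_le_sum (f := b) (s := Vᶜ) (fun _ _ => Nat.zero_le _) he0 he hne.symm
          omega
        have hs1 : ∑ e ∈ Vᶜ, A' e * b e = A' e0 := by
          rw [sum_eq_single_of_mem e0 he0 fun e he hne => by rw [hother e he hne, mul_zero],
            hb1, mul_one]
        have hs2 : ∑ e ∈ Vᶜ, A e * (b e : ℚ) = A e0 := by
          rw [sum_eq_single_of_mem e0 he0 fun e he hne => by
            rw [hother e he hne, Nat.cast_zero, mul_zero], hb1, Nat.cast_one, mul_one]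
        rw [hs1]
        rw [hs2] at hAb
        have heV : e0 ∉ V := mem_compl.1 he0
        by_cases hW : A e0 < 1
        · rw [hAW e0 heV hW]
          have h5 : 0 < ∑ e ∈ V, A e * (b e : ℚ) := by linarith
          obtain ⟨e1, he1, hp⟩ : ∃ e ∈ V, 0 < A e * (b e : ℚ) := by
            by_contra hcon
            push Not at hcon
            exact absurd (sum_nonpos hcon) (not_le.2 h5)
          have hb0 : (0 : ℚ) ≤ b e1 := Nat.cast_nonneg _
          have hAe : 0 < A e1 := by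
            by_contra hcon
            push Not at hcon
            exact absurd hp (not_lt.2 (mul_nonpos_of_nonpos_of_nonneg hcon hb0))
          have hbe : 0 < b e1 := by
            by_contra hcon
            have : b e1 = 0 := by omega
            rw [this, Nat.cast_zero, mul_zero] at hp
            exact absurd hp (lt_irrefl _)
          have hC := hC3 ⟨e1, he1⟩ hAe
          have h6 : 1 ≤ A' e1 * b e1 := by
            rw [hAV e1 he1]
            exact Nat.mul_pos hC hbe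
          have h7 : A' e1 * b e1 ≤ ∑ e ∈ V, A' e * b e :=
            single_le_sum (f := fun e => A' e * b e) (fun _ _ => Nat.zero_le _) he1
          omega
        · rw [hAO e0 heV hW]
          exact Nat.le_add_left _ _

end

/-- the induction on the number of the factors that are not settled by `V` -/
theorem unif_stepD {I : Type} [Fintype I] [DecidableEq I] (n : I → ℕ) (j : ℕ) :
    ∀ v : ℕ, ∃ M : ℕ, 0 < M ∧ ∀ (E : Type) [Fintype E] [DecidableEq E] (d : E → I → ℕ)
      (B : Set (E → ℕ)) (A : E → ℚ), RatWtD n d B A →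
      ∀ (V : Finset E) (J : Finset I), J.card ≤ j → V.card ≤ v →
      (∀ i, i ∉ J → ((n i + 1 : ℕ) : ℚ) ≤ ∑ e ∈ V, (1 - A e) * (d e i : ℚ)) →
      ∃ A' : E → ℕ, NatWtD n d B M A' := by
  classical
  have hR : ∀ i, n i + 1 ≤ ∑ i, (n i + 1) := fun i =>
    single_le_sum (f := fun i => n i + 1) (fun _ _ => Nat.zero_le _) (mem_univ i)
  induction j with
  | zero =>
    intro v
    obtain ⟨M, hM2, hM⟩ := exists_denomD' v (∑ i, (n i + 1))
    refine ⟨M, by omega, fun E _ _ d B A hA V J hJ hV hVJ => ?_⟩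
    have hJ0 : J = ∅ := card_eq_zero.1 (by omega)
    exact case_manyD hM2 hM n hR d B A hA V J hV hVJ (by
      rw [hJ0]
      intro i hi
      exact absurd hi (notMem_empty _))
  | succ j ih =>
    intro v
    obtain ⟨M, hM2, hM⟩ := exists_denomD' v (∑ i, (n i + 1))
    obtain ⟨M', hM', ih'⟩ := ih (v + (∑ i, (n i + 1)) * M)
    refine ⟨M' * M, Nat.mul_pos hM' (by omega), fun E _ _ d B A hA V J hJ hV hVJ => ?_⟩
    by_cases hmany : ∀ i ∈ J, (n i + 1) * M ≤
        ∑ e ∈ univ.filter fun e => e ∉ V ∧ A e < 1, d e i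
    · obtain ⟨A', hA'⟩ := case_manyD hM2 hM n hR d B A hA V J hV hVJ hmany
      exact ⟨_, hA'.smul M'⟩
    · push Not at hmany
      obtain ⟨i, hi, hlt⟩ := hmany
      set T := univ.filter fun e => (e ∉ V ∧ A e < 1) ∧ 0 < d e i with hT
      have hTcard : T.card ≤ ∑ e ∈ univ.filter fun e => e ∉ V ∧ A e < 1, d e i := by
        rw [hT, ← filter_filter, card_eq_sum_ones]
        refine le_trans (sum_le_sum fun e he => ?_) (sum_le_sum_of_subset (filter_subset _ _))
        exact (mem_filter.1 he).2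
      obtain ⟨A', hA'⟩ := ih' E d B A hA (V ∪ T) (J.erase i)
        (by rw [card_erase_of_mem hi]; omega)
        (by
          refine (card_union_le _ _).trans (Nat.add_le_add hV (hTcard.trans (hlt.le.trans ?_)))
          exact Nat.mul_le_mul_right _ (hR i))
        (by
          intro i' hi'
          by_cases h : i' = i
          · subst h
            refine (hA.fac i').trans (le_of_eq ?_)
            symm
            refine sum_subset (subset_univ _) fun e _ he => ?_
            rw [mem_union, not_or] at he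
            by_cases hAe : A e < 1
            · have : ¬ 0 < d e i' := fun h => he.2 (mem_filter.2 ⟨mem_univ _, ⟨he.1, hAe⟩, h⟩)
              have : d e i' = 0 := by omega
              rw [this, Nat.cast_zero, mul_zero]
            · have : A e = 1 := le_antisymm (hA.box e).2 (not_lt.1 hAe)
              rw [this, sub_self, zero_mul]
          · refine (hVJ i' fun h' => hi' (mem_erase.2 ⟨h, h'⟩)).trans ?_
            exact sum_le_sum_of_subset_of_nonneg subset_union_left fun e _ _ =>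
              mul_nonneg (sub_nonneg.2 (hA.box e).2) (Nat.cast_nonneg _))
      refine ⟨fun e => M * A' e, ?_⟩
      rw [mul_comm M' M]
      exact hA'.smul M

/-- uniform weights: the denominator depends only on the total dimension -/
theorem unif_weightsD (D : ℕ) :
    ∃ M : ℕ, 0 < M ∧ ∀ (I : Type) [Fintype I] [DecidableEq I] (n : I → ℕ), (∀ i, 0 < n i) →
      ∑ i, n i = D → ∀ (E : Type) [Fintype E] [DecidableEq E] (d : E → I → ℕ)
      (B : Set (E → ℕ)) (A : E → ℚ), RatWtD n d B A → ∃ A' : E → ℕ, NatWtD n d B M A' := by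
  classical
  choose Mf hpos hMf using fun (r : ℕ) (m : Fin r → ℕ) => unif_stepD m r 0
  refine ⟨∏ r ∈ range (D + 1), ∏ m : Fin r → Fin (D + 1), Mf r fun i => m i,
    prod_pos fun r _ => prod_pos fun m _ => hpos _ _, fun I _ _ n hn hD E _ _ d B A hA => ?_⟩
  set M := ∏ r ∈ range (D + 1), ∏ m : Fin r → Fin (D + 1), Mf r fun i => m i with hM
  let e : I ≃ Fin (Fintype.card I) := Fintype.equivFin I
  have hr : Fintype.card I < D + 1 := by
    rw [← hD, Nat.lt_succ_iff, ← card_univ, card_eq_sum_ones]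
    exact sum_le_sum fun i _ => hn i
  have hm : ∀ i, n i < D + 1 := by
    intro i
    rw [← hD, Nat.lt_succ_iff]
    exact single_le_sum (fun _ _ => Nat.zero_le _) (mem_univ i)
  let m : Fin (Fintype.card I) → Fin (D + 1) := fun j => ⟨n (e.symm j), hm _⟩
  obtain ⟨A', hA'⟩ := hMf (Fintype.card I) (fun j => (m j : ℕ)) E
    (fun x j => d x (e.symm j)) B A ⟨hA.box, fun j => hA.fac _, hA.blk⟩ ∅ univ
    (by rw [card_univ, Fintype.card_fin]) (by rw [card_empty])
    (fun i hi => absurd (mem_univ i) hi)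
  have h1 : NatWtD n d B (Mf (Fintype.card I) fun j => (m j : ℕ)) A' := by
    refine ⟨hA'.box, fun i => ?_, hA'.blk⟩
    have := hA'.fac (e i)
    simpa only [m, e.symm_apply_apply] using this
  have hdvd : (Mf (Fintype.card I) fun j => (m j : ℕ)) ∣ M := by
    rw [hM]
    exact (dvd_prod_of_mem (fun m : Fin (Fintype.card I) → Fin (D + 1) =>
      Mf (Fintype.card I) fun i => (m i : ℕ)) (mem_univ m)).trans
      (dvd_prod_of_mem (fun r => ∏ m : Fin r → Fin (D + 1), Mf r fun i => (m i : ℕ))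
        (mem_range.2 hr))
  obtain ⟨k, hk⟩ := hdvd
  refine ⟨fun e => k * A' e, ?_⟩
  rw [hk, mul_comm]
  exact h1.smul k

end Pool.Agent.Work.Snc
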