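import Mathlib
import Pool.Agent.Work.MP_4329d7_ag_snc.CritP
import Pool.Agent.Work.MP_4329d7_ag_snc.EqP
import Pool.Agent.Work.MP_4329d7_ag_snc.LPDeg
import Pool.Agent.Work.MP_4329d7_ag_snc.Unif
import Pool.Agent.Work.MP_4329d7_ag_snc.FormsC
import Pool.Agent.Work.MP_4329d7_ag_uni.LPExt

/-!
Theorem U+: assembly (helper44, after helper5).
-/

namespace Pool.Agent.Work.Snc

open Pool.Agent.Work.MP_4329d7_ag.FF Pool.Agent.Work.Uni

section blocks

variable {K : Type} [Field K] [Algebra ℂ K] {I : Type} [Fintype I] [DecidableEq I]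
  {n : I → ℕ} {E : Type} [Fintype E] [DecidableEq E] {F : E → MvPolynomial (Co I n) ℂ}
  {d : E → I → ℕ} {N : ℕ} {x : (i : I) → Fin (n i) → K} {S : Set (K × (E → ℕ))}

theorem single_block (D : SncData K I n E F d N x S) (e : E) {k : ℕ} (hk : 0 < k)
    (h : ∀ z c, (z, c) ∈ S → N ∣ k * c e) : SBlock F N S (Pi.single e k) := by
  refine ⟨?_, ?_, ?_⟩
  · intro h0
    have := congrFun h0 e
    rw [Pi.single_eq_same, Pi.zero_apply] at this
    omega
  · intro z c hz
    rw [Finset.sum_eq_single e]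
    · rw [Pi.single_eq_same]
      exact h z c hz
    · intro e' _ he'
      rw [Pi.single_eq_of_ne he', zero_mul]
    · intro h
      exact absurd (Finset.mem_univ e) h
  · obtain ⟨P, hP, hPe⟩ := D.nonempty e
    refine ⟨P, hP, fun e' he' => ?_⟩
    have : e' = e := by
      by_contra hne
      exact he' (Pi.single_eq_of_ne hne _)
    rw [this]
    exact hPe

omit [DecidableEq E] in
/-- the ramification index -/
theorem exists_ram (D : SncData K I n E F d N x S) (e : E) :
    ∃ r : ℕ, 2 ≤ r ∧ (∀ z c, (z, c) ∈ S → N ∣ r * c e) ∧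
      ∀ k : ℕ, (∀ z c, (z, c) ∈ S → N ∣ k * c e) → r ∣ k := by
  classical
  have hex : ∃ r : ℕ, 0 < r ∧ ∀ z c, (z, c) ∈ S → N ∣ r * c e :=
    ⟨N, D.N_pos, fun z c _ => dvd_mul_right _ _⟩
  obtain ⟨hr0, hr⟩ := Nat.find_spec hex
  have hmin : ∀ k : ℕ, (∀ z c, (z, c) ∈ S → N ∣ k * c e) → Nat.find hex ∣ k := by
    intro k hk
    rw [Nat.dvd_iff_mod_eq_zero]
    by_contra hne
    have hlt := Nat.mod_lt k hr0
    refine Nat.find_min hex hlt ⟨Nat.pos_of_ne_zero hne, fun z c hz => ?_⟩
    have h1 := hk z c hz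
    have h2 := hr z c hz
    have h3 : (k % Nat.find hex) * c e + (Nat.find hex * c e) * (k / Nat.find hex) =
        k * c e := by
      conv_rhs => rw [← Nat.mod_add_div k (Nat.find hex)]
      ring
    rw [← h3] at h1
    exact (Nat.dvd_add_left (h2.mul_right _)).1 h1
  refine ⟨Nat.find hex, ?_, hr, hmin⟩
  by_contra hcon
  have h1 : Nat.find hex = 1 := by omega
  obtain ⟨z, c, hz, hn⟩ := D.branch e
  have h2 := hr z c hz
  rw [h1, one_mul] at h2
  exact hn h2

/-- the lattice of the abstract system -/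
def latP (N : ℕ) (S : Set (K × (E → ℕ))) (μ : (e : E) → (F e).support) :
    AddSubgroup (Pt F → ℤ) where
  carrier := {v | ∀ z c, (z, c) ∈ S → (N : ℤ) ∣ ∑ e, (c e : ℤ) *
    (v (Sum.inl ⟨e, none⟩) - v (Sum.inl ⟨e, some (μ e)⟩) + ∑ s, ((μ e).1 s : ℤ) * v (Sum.inr s))}
  zero_mem' := by
    intro z c _
    simp
  add_mem' := by
    intro v w hv hw z c hz
    have h2 : ∑ e, (c e : ℤ) * ((v + w) (Sum.inl ⟨e, none⟩) - (v + w) (Sum.inl ⟨e, some (μ e)⟩) +
        ∑ s, ((μ e).1 s : ℤ) * (v + w) (Sum.inr s)) =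
        (∑ e, (c e : ℤ) * (v (Sum.inl ⟨e, none⟩) - v (Sum.inl ⟨e, some (μ e)⟩) +
          ∑ s, ((μ e).1 s : ℤ) * v (Sum.inr s))) +
        ∑ e, (c e : ℤ) * (w (Sum.inl ⟨e, none⟩) - w (Sum.inl ⟨e, some (μ e)⟩) +
          ∑ s, ((μ e).1 s : ℤ) * w (Sum.inr s)) := by
      rw [← Finset.sum_add_distrib]
      refine Finset.sum_congr rfl fun e _ => ?_
      simp only [Pi.add_apply, mul_add, Finset.sum_add_distrib]
      ring
    rw [h2]
    exact dvd_add (hv z c hz) (hw z c hz)
  neg_mem' := by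
    intro v hv z c hz
    have h2 : ∑ e, (c e : ℤ) * ((-v) (Sum.inl ⟨e, none⟩) - (-v) (Sum.inl ⟨e, some (μ e)⟩) +
        ∑ s, ((μ e).1 s : ℤ) * (-v) (Sum.inr s)) =
        - ∑ e, (c e : ℤ) * (v (Sum.inl ⟨e, none⟩) - v (Sum.inl ⟨e, some (μ e)⟩) +
          ∑ s, ((μ e).1 s : ℤ) * v (Sum.inr s)) := by
      rw [← Finset.sum_neg_distrib]
      refine Finset.sum_congr rfl fun e _ => ?_
      simp only [Pi.neg_apply, mul_neg, Finset.sum_neg_distrib]
      ring
    rw [h2]
    exact (dvd_neg (α := ℤ)).2 (hv z c hz)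

omit [Field K] [Algebra ℂ K] [DecidableEq I] [DecidableEq E] in
theorem mem_latP {μ : (e : E) → (F e).support} {v : Pt F → ℤ} :
    v ∈ latP N S μ ↔ ∀ z c, (z, c) ∈ S → (N : ℤ) ∣ ∑ e, (c e : ℤ) *
      (v (Sum.inl ⟨e, none⟩) - v (Sum.inl ⟨e, some (μ e)⟩) +
        ∑ s, ((μ e).1 s : ℤ) * v (Sum.inr s)) := Iff.rfl

omit [Field K] [Algebra ℂ K] [DecidableEq E] in
theorem blk_latP {μ : (e : E) → (F e).support} (β : Pt F → ℕ) (h : BlkP F N S β) :
    (fun p => (β p : ℤ)) ∈ latP N S μ := by
  rw [mem_latP]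
  intro z c hz
  rcases h with ⟨b, hb, rfl⟩ | ⟨s, rfl⟩
  · have h1 := hb.2.1 z c hz
    have h2 : ∑ e, (c e : ℤ) * (((liftB F b (Sum.inl ⟨e, none⟩) : ℕ) : ℤ) -
        ((liftB F b (Sum.inl ⟨e, some (μ e)⟩) : ℕ) : ℤ) +
        ∑ s, ((μ e).1 s : ℤ) * ((liftB F b (Sum.inr s) : ℕ) : ℤ)) =
        ((∑ e, b e * c e : ℕ) : ℤ) := by
      push_cast
      refine Finset.sum_congr rfl fun e _ => ?_
      simp [liftB, mul_comm]
    rw [h2]
    exact_mod_cast h1
  · have h2 : ∑ e, (c e : ℤ) * (((liftC F s (Sum.inl ⟨e, none⟩) : ℕ) : ℤ) -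
        ((liftC F s (Sum.inl ⟨e, some (μ e)⟩) : ℕ) : ℤ) +
        ∑ s', ((μ e).1 s' : ℤ) * ((liftC F s (Sum.inr s') : ℕ) : ℤ)) = 0 := by
      refine Finset.sum_eq_zero fun e _ => ?_
      simp [liftC]
    rw [h2]
    exact dvd_zero _

theorem one_latP (D : SncData K I n E F d N x S) {μ : (e : E) → (F e).support} (i : E ⊕ I) :
    (fun p => if fac F p = i then (1 : ℤ) else 0) ∈ latP N S μ := by
  rw [mem_latP]
  intro z c hz
  rcases i with e0 | i
  · have h2 : ∑ e, (c e : ℤ) * ((if fac F (Sum.inl ⟨e, none⟩) = Sum.inl e0 then (1 : ℤ) else 0) -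
        (if fac F (Sum.inl ⟨e, some (μ e)⟩) = Sum.inl e0 then (1 : ℤ) else 0) +
        ∑ s, ((μ e).1 s : ℤ) * (if fac F (Sum.inr s) = Sum.inl e0 then (1 : ℤ) else 0)) = 0 := by
      refine Finset.sum_eq_zero fun e _ => ?_
      simp [fac]
    rw [h2]
    exact dvd_zero _
  · have h1 := D.deg z c hz i
    have h2 : ∑ e, (c e : ℤ) * ((if fac F (Sum.inl ⟨e, none⟩) = Sum.inr i then (1 : ℤ) else 0) -
        (if fac F (Sum.inl ⟨e, some (μ e)⟩) = Sum.inr i then (1 : ℤ) else 0) +
        ∑ s, ((μ e).1 s : ℤ) * (if fac F (Sum.inr s) = Sum.inr i then (1 : ℤ) else 0)) =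
        ((∑ e, c e * d e i : ℕ) : ℤ) := by
      push_cast
      refine Finset.sum_congr rfl fun e _ => ?_
      congr 1
      rw [← sum_monomial (D.hom e i) (μ e).2]
      push_cast
      rw [Fintype.sum_sigma, Finset.sum_eq_single i]
      · simp [fac]
      · intro i' _ hi'
        refine Finset.sum_eq_zero fun j _ => ?_
        simp [fac, hi']
      · intro h
        exact absurd (Finset.mem_univ i) h
    rw [h2]
    exact_mod_cast h1

omit [Field K] [Algebra ℂ K] [DecidableEq I] [DecidableEq E] in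
theorem single_latP {μ : (e : E) → (F e).support} (e : E) (k : ℕ)
    [DecidableEq (Pt F)]
    (h : (Pi.single (Sum.inl ⟨e, none⟩) (k : ℤ) : Pt F → ℤ) ∈ latP N S μ) :
    ∀ z c, (z, c) ∈ S → N ∣ k * c e := by
  intro z c hz
  have h1 := mem_latP.1 h z c hz
  have h2 : ∑ e', (c e' : ℤ) *
      ((Pi.single (Sum.inl ⟨e, none⟩) (k : ℤ) : Pt F → ℤ) (Sum.inl ⟨e', none⟩) -
      (Pi.single (Sum.inl ⟨e, none⟩) (k : ℤ) : Pt F → ℤ) (Sum.inl ⟨e', some (μ e')⟩) +
      ∑ s, ((μ e').1 s : ℤ) *
        (Pi.single (Sum.inl ⟨e, none⟩) (k : ℤ) : Pt F → ℤ) (Sum.inr s)) =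
      ((k * c e : ℕ) : ℤ) := by
    rw [Finset.sum_eq_single e]
    · have e1 : (Pi.single (Sum.inl ⟨e, none⟩) (k : ℤ) : Pt F → ℤ)
          (Sum.inl ⟨e, some (μ e)⟩) = 0 := Pi.single_eq_of_ne (by simp) _
      have e2 : ∀ s, (Pi.single (Sum.inl ⟨e, none⟩) (k : ℤ) : Pt F → ℤ) (Sum.inr s) = 0 :=
        fun s => Pi.single_eq_of_ne (by simp) _
      rw [Pi.single_eq_same, e1]
      simp only [e2, mul_zero, Finset.sum_const_zero, sub_zero, add_zero]
      push_cast
      ring
    · intro e' _ he'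
      have e0 : (Pi.single (Sum.inl ⟨e, none⟩) (k : ℤ) : Pt F → ℤ)
          (Sum.inl ⟨e', none⟩) = 0 := Pi.single_eq_of_ne (by
        intro h
        have h3 := congrArg (fun p : Pt F => fac F p) h
        simp only [fac, Sum.elim_inl, Sum.inl.injEq] at h3
        exact he' h3) _
      have e1 : (Pi.single (Sum.inl ⟨e, none⟩) (k : ℤ) : Pt F → ℤ)
          (Sum.inl ⟨e', some (μ e')⟩) = 0 := Pi.single_eq_of_ne (by
        intro h
        have h3 := congrArg (fun p : Pt F => fac F p) h
        simp only [fac, Sum.elim_inl, Sum.inl.injEq] at h3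
        exact he' h3) _
      have e2 : ∀ s, (Pi.single (Sum.inl ⟨e, none⟩) (k : ℤ) : Pt F → ℤ) (Sum.inr s) = 0 :=
        fun s => Pi.single_eq_of_ne (by simp) _
      rw [e0, e1]
      simp only [e2, mul_zero, Finset.sum_const_zero, sub_zero, add_zero]
    · intro h
      exact absurd (Finset.mem_univ e) h
  rw [h2] at h1
  exact_mod_cast h1

end blocks

/-- different types of an extreme packing are different vectors -/
theorem ext_inj {Ty Pt I : Type} [Fintype Ty] [DecidableEq Ty] {f : Pt → I} {b : Ty → Pt → ℕ}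
    {lam : Ty → ℕ} {m : I → ℕ} (h : IsExt f b lam m) {t t' : Ty} (hb : b t = b t') :
    t = t' := by
  by_contra hne
  let nu : Ty → ℕ := fun s => if s = t then 0 else if s = t' then lam t + lam t' else lam s
  have hpack : IsPack f b nu m := by
    intro p
    rw [← h.pack p]
    have hA : ∀ g : Ty → ℕ, ∑ s, g s = g t + g t' +
        ∑ s ∈ (Finset.univ.erase t).erase t', g s := by
      intro g
      rw [← Finset.add_sum_erase Finset.univ g (Finset.mem_univ t), add_assoc,
        Finset.add_sum_erase _ g (Finset.mem_erase.2 ⟨Ne.symm hne, Finset.mem_univ t'⟩)]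
    rw [hA, hA (fun s => lam s * b s p)]
    have h1 : nu t = 0 := if_pos rfl
    have h2 : nu t' = lam t + lam t' := by
      simp only [nu, if_neg (Ne.symm hne), if_true]
    have h3 : ∑ s ∈ (Finset.univ.erase t).erase t', nu s * b s p =
        ∑ s ∈ (Finset.univ.erase t).erase t', lam s * b s p := by
      refine Finset.sum_congr rfl fun s hs => ?_
      have hs1 : s ≠ t' := (Finset.mem_erase.1 hs).1
      have hs2 : s ≠ t := (Finset.mem_erase.1 (Finset.mem_erase.1 hs).2).1
      simp only [nu, if_neg hs1, if_neg hs2]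
    rw [h1, h2, h3, hb]
    ring
  obtain ⟨j, hj⟩ := h.uniq nu m hpack
  have h1 := hj t
  have h2 := hj t'
  have h3 : nu t = 0 := if_pos rfl
  have h4 : nu t' = lam t + lam t' := by
    simp only [nu, if_neg (Ne.symm hne), if_true]
  have h5 := h.pos t
  have h6 := h.pos t'
  rw [h3] at h1
  have h7 : j = 0 := by
    rcases Nat.eq_zero_or_pos j with h0 | h0
    · exact h0
    · have := Nat.mul_pos h0 h5
      omega
  rw [h7, zero_mul, h4] at h2
  omega

/-- If all rational curves given by roots are constant then there are weights `A` (with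
denominator `M`) with `∑ e, A e * d e i ≤ κ i * M` for every factor and `A · b ≥ M` for all
blocks `b`. -/
theorem weights_of_starP {K : Type} [Field K] [Algebra ℂ K]
    {I : Type} [Fintype I] [DecidableEq I] {n : I → ℕ} {E : Type} [Fintype E] [DecidableEq E]
    {F : E → MvPolynomial (Co I n) ℂ} {d : E → I → ℕ} {N : ℕ} {x : (i : I) → Fin (n i) → K}
    {S : Set (K × (E → ℕ))} (D : SncData K I n E F d N x S)
    {k : Type} [Field k] [Algebra ℂ k] [IsAlgClosed k] (c : Co I n → k)
    (hstar : StarP (BlkP F N S) (fac F) (coefP F c)) :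
    ∃ (M : ℕ) (A : E → ℕ), 0 < M ∧
      (∀ i, ∑ e, (A e : ℤ) * d e i ≤ (∑ e, (d e i : ℤ) - (n i + 1)) * M) ∧
      ∀ b : E → ℕ, SBlock F N S b → M ≤ ∑ e, A e * b e := by
  classical
  have : CharZero k := charZero_of_injective_algebraMap (algebraMap ℂ k).injective
  have ha := coefP_coef (F := F) c
  have hcrit := crit_of_starP (BlkP F N S) (fac F) (Sum.inl : E → E ⊕ I) (coefP F c) ha hstar
  set Bs : Finset (E → ℕ) :=
    (Fintype.piFinset fun _ => Finset.range (N + 1)).filter fun b => SBlock F N S b with hBs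
  have hmem : ∀ b, b ∈ Bs ↔ (∀ e, b e ≤ N) ∧ SBlock F N S b := by
    intro b
    rw [hBs, Finset.mem_filter, Fintype.mem_piFinset]
    simp only [Finset.mem_range, Nat.lt_succ_iff]
  have hsing : ∀ e, (Pi.single e N : E → ℕ) ∈ Bs := by
    intro e
    rw [hmem]
    refine ⟨fun e' => ?_, single_block D e D.N_pos fun _ _ _ => dvd_mul_right _ _⟩
    by_cases he : e' = e
    · subst he
      rw [Pi.single_eq_same]
    · rw [Pi.single_eq_of_ne he]
      exact Nat.zero_le _
  rcases weights_or_packing_deg d (fun i => ∑ e, (d e i : ℤ) - (n i + 1)) Bs N D.N_pos hsing with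
    ⟨M, A, hM, hA, hAb⟩ | ⟨lam, m, hpack, hdelta⟩
  · refine ⟨M, A, hM, hA, fun b hb => ?_⟩
    by_cases hle : ∀ e, b e ≤ N
    · exact hAb b ((hmem b).2 ⟨hle, hb⟩)
    · push Not at hle
      obtain ⟨e, he⟩ := hle
      have h1 := hAb _ (hsing e)
      rw [Finset.sum_eq_single e] at h1
      · rw [Pi.single_eq_same] at h1
        calc M ≤ A e * N := h1
          _ ≤ A e * b e := Nat.mul_le_mul_left _ he.le
          _ ≤ ∑ e, A e * b e :=
            Finset.single_le_sum (f := fun e => A e * b e) (fun _ _ => Nat.zero_le _)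
              (Finset.mem_univ e)
      · intro e' _ he'
        rw [Pi.single_eq_of_ne he', mul_zero]
      · intro he
        exact absurd (Finset.mem_univ e) he
  exfalso
  -- the packing of the abstract system
  have hliftBr : ∀ (b : E → ℕ) s, liftB F b (Sum.inr s) = 0 := fun _ _ => rfl
  have hliftBn : ∀ (b : E → ℕ) e, liftB F b (Sum.inl ⟨e, none⟩) = b e := fun _ _ => rfl
  have hliftBs : ∀ (b : E → ℕ) e μ, liftB F b (Sum.inl ⟨e, some μ⟩) = 0 := fun _ _ _ => rfl
  have hliftCr : ∀ s s', liftC F s (Sum.inr s') = if s' = s then 1 else 0 := fun _ _ => rfl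
  have hliftCn : ∀ s e, liftC F s (Sum.inl ⟨e, none⟩) = 0 := fun _ _ => rfl
  have hliftCs : ∀ s e (μ : (F e).support), liftC F s (Sum.inl ⟨e, some μ⟩) = μ.1 s :=
    fun _ _ _ => rfl
  have hBinj : Function.Injective (liftB F) := by
    intro b b' hb
    funext e
    rw [← hliftBn b e, hb, hliftBn]
  have hCinj : Function.Injective (liftC F) := by
    intro s s' hs
    by_contra hne
    have h1 := congrFun hs (Sum.inr s)
    rw [hliftCr, hliftCr, if_pos rfl, if_neg hne] at h1
    exact one_ne_zero h1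
  have hBC : ∀ b s, liftB F b ≠ liftC F s := by
    intro b s hbs
    have h1 := congrFun hbs (Sum.inr s)
    rw [hliftBr, hliftCr, if_pos rfl] at h1
    exact zero_ne_one h1
  let lam1 : (Pt F → ℕ) → ℕ := fun β => if h : ∃ s, β (Sum.inr s) ≠ 0 then m h.choose.1 else
    lam fun e => β (Sum.inl ⟨e, none⟩)
  have hlamB : ∀ b, lam1 (liftB F b) = lam b := by
    intro b
    have h1 : ¬ ∃ s, liftB F b (Sum.inr s) ≠ 0 := by
      push Not
      exact hliftBr b
    simp only [lam1, dif_neg h1]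
    rfl
  have hlamC : ∀ s, lam1 (liftC F s) = m s.1 := by
    intro s
    have h1 : ∃ s', liftC F s (Sum.inr s') ≠ 0 := ⟨s, by
      rw [hliftCr, if_pos rfl]
      exact one_ne_zero⟩
    have h2 : h1.choose = s := by
      by_contra hne
      have h3 := h1.choose_spec
      rw [hliftCr, if_neg hne] at h3
      exact h3 rfl
    simp only [lam1, dif_pos h1, h2]
  set B1 : Finset (Pt F → ℕ) := Bs.image (liftB F) ∪ Finset.univ.image (liftC F) with hB1
  have hB1m : ∀ β ∈ B1, BlkP F N S β := by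
    intro β hβ
    rw [hB1, Finset.mem_union, Finset.mem_image, Finset.mem_image] at hβ
    rcases hβ with ⟨b, hb, rfl⟩ | ⟨s, -, rfl⟩
    · exact Or.inl ⟨b, ((hmem b).1 hb).2, rfl⟩
    · exact Or.inr ⟨s, rfl⟩
  have hB1sum : ∀ g : (Pt F → ℕ) → ℕ, ∑ β ∈ B1, g β = ∑ b ∈ Bs, g (liftB F b) +
      ∑ s, g (liftC F s) := by
    intro g
    rw [hB1, Finset.sum_union, Finset.sum_image (fun a _ b _ h => hBinj h),
      Finset.sum_image (fun a _ b _ h => hCinj h)]
    rw [Finset.disjoint_left]
    intro β h1 h2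
    obtain ⟨b, -, rfl⟩ := Finset.mem_image.1 h1
    obtain ⟨s, -, hs⟩ := Finset.mem_image.1 h2
    exact hBC b s hs.symm
  have hf : Function.Surjective (fac F) := by
    rintro (e | i)
    · exact ⟨Sum.inl ⟨e, none⟩, rfl⟩
    · exact ⟨Sum.inr ⟨i, 0⟩, rfl⟩
  obtain ⟨Ty, _, b, lam', m', hb, hext, hlt⟩ := exists_ext (fac F) hf
    (Sum.elim (fun _ => 1) (fun _ => 0) : E ⊕ I → ℕ) B1
    (by
      intro β hβ h0
      rcases hB1m β hβ with ⟨b, hb, rfl⟩ | ⟨s, rfl⟩
      · refine hb.1 (funext fun e => ?_)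
        rw [← hliftBn b e, h0]
        rfl
      · have h1 := congrFun h0 (Sum.inr s)
        rw [hliftCr, if_pos rfl] at h1
        exact one_ne_zero h1)
    lam1 (Sum.elim (fun e => ∑ i, d e i * m i) m)
    (by
      intro p
      rw [hB1sum]
      simp only [hlamB, hlamC]
      rcases p with ⟨e, _ | μ⟩ | s
      · simp only [hliftBn, hliftCn, mul_zero, Finset.sum_const_zero, add_zero]
        exact hpack e
      · simp only [hliftBs, hliftCs, mul_zero, Finset.sum_const_zero, zero_add]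
        change ∑ s : Co I n, m s.1 * μ.1 s = ∑ i, d e i * m i
        rw [Fintype.sum_sigma]
        refine Finset.sum_congr rfl fun i _ => ?_
        rw [← sum_monomial (D.hom e i) μ.2, Finset.sum_mul]
        exact Finset.sum_congr rfl fun j _ => mul_comm _ _
      · simp only [hliftBr, mul_zero, Finset.sum_const_zero, zero_add]
        rw [Finset.sum_eq_single s]
        · rw [hliftCr, if_pos rfl, mul_one]
          rfl
        · intro s' _ hs'
          rw [hliftCr, if_neg (Ne.symm hs'), mul_zero]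
        · intro h
          exact absurd (Finset.mem_univ s) h)
    (by
      rw [hB1sum]
      simp only [hlamB, hlamC, Fintype.sum_sum_type, Sum.elim_inl, Sum.elim_inr, one_mul,
        zero_mul, Finset.sum_const_zero, add_zero]
      have h1 : ∑ s : Co I n, m s.1 = ∑ i, (n i + 1) * m i := by
        rw [Fintype.sum_sigma]
        refine Finset.sum_congr rfl fun i _ => ?_
        simp
      rw [h1]
      have h2 : ∑ i, (∑ e, (d e i : ℤ) - (n i + 1)) * (m i : ℤ) =
          ((∑ e, ∑ i, d e i * m i : ℕ) : ℤ) - ((∑ i, (n i + 1) * m i : ℕ) : ℤ) := by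
        push_cast
        rw [Finset.sum_comm, ← Finset.sum_sub_distrib]
        refine Finset.sum_congr rfl fun i _ => ?_
        rw [sub_mul, Finset.sum_mul]
      rw [h2] at hdelta
      have h3 : ((∑ b ∈ Bs, lam b : ℕ) : ℤ) = ∑ b ∈ Bs, (lam b : ℤ) := by push_cast; rfl
      rw [← h3] at hdelta
      omega)
  have hBlk : ∀ t, BlkP F N S (b t) := fun t => hB1m _ (hb t)
  obtain ⟨hc1, hc2⟩ := hcrit Ty b lam' m' hBlk hext
  have hlt' : ∑ e, m' (Sum.inl e) < ∑ t, lam' t := by
    simpa [Fintype.sum_sum_type] using hlt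
  have heq : ∑ t, lam' t = ∑ e, m' (Sum.inl e) + 1 := by omega
  have hJ := hc2 heq
  -- a block of multiplicity one
  have hy0 : ∃ y0, lam' y0 = 1 ∧ ∃ b0, SBlock F N S b0 ∧ b y0 = liftB F b0 := by
    by_contra hcon
    push Not at hcon
    have hone : ∀ t, lam' t = 1 → ∃ s, b t = liftC F s := by
      intro t ht
      rcases hBlk t with ⟨b0, hb0, h1⟩ | h1
      · exact absurd h1 (hcon t ht b0 hb0)
      · exact h1
    have hme : ∀ e, m' (Sum.inl e) ≠ 1 := by
      intro e he
      have h1 := hext.pack (Sum.inl ⟨e, none⟩)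
      change ∑ t, lam' t * b t (Sum.inl ⟨e, none⟩) = m' (Sum.inl e) at h1
      rw [he] at h1
      obtain ⟨t, ht⟩ : ∃ t, 0 < lam' t * b t (Sum.inl ⟨e, none⟩) := by
        by_contra hall
        push Not at hall
        rw [Finset.sum_eq_zero fun t _ => Nat.le_zero.1 (hall t)] at h1
        exact absurd h1 (by norm_num)
      have h2 : lam' t * b t (Sum.inl ⟨e, none⟩) ≤ 1 := by
        rw [← h1]
        exact Finset.single_le_sum (f := fun t => lam' t * b t (Sum.inl ⟨e, none⟩))
          (fun _ _ => Nat.zero_le _) (Finset.mem_univ t)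
      have h3 : lam' t = 1 := Nat.eq_one_of_mul_eq_one_right (le_antisymm h2 ht)
      obtain ⟨s, hs⟩ := hone t h3
      rw [hs, hliftCn, mul_zero] at ht
      exact lt_irrefl _ ht
    have h1 := hJ 1 le_rfl
    have h2 := hJ 2 (by norm_num)
    have h3 : ∑ e, min (m' (Sum.inl e)) 2 = 2 * ∑ e, min (m' (Sum.inl e)) 1 := by
      rw [Finset.mul_sum]
      refine Finset.sum_congr rfl fun e _ => ?_
      have := hme e
      omega
    have h4 : ∑ t, min (lam' t) 2 + (Finset.univ.filter fun t => lam' t = 1).card =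
        2 * ∑ t, min (lam' t) 1 := by
      rw [Finset.card_filter, ← Finset.sum_add_distrib, Finset.mul_sum]
      refine Finset.sum_congr rfl fun t _ => ?_
      have := hext.pos t
      split_ifs with h5
      · omega
      · omega
    have h5 : (Finset.univ.filter fun t => lam' t = 1).card = 1 := by omega
    obtain ⟨t1, ht1⟩ := Finset.card_eq_one.1 h5
    have ht1' : lam' t1 = 1 := by
      have : t1 ∈ Finset.univ.filter fun t => lam' t = 1 := by
        rw [ht1]
        exact Finset.mem_singleton_self _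
      exact (Finset.mem_filter.1 this).2
    have huniq : ∀ t, lam' t = 1 → t = t1 := by
      intro t ht
      have : t ∈ Finset.univ.filter fun t => lam' t = 1 :=
        Finset.mem_filter.2 ⟨Finset.mem_univ _, ht⟩
      rw [ht1] at this
      exact Finset.mem_singleton.1 this
    obtain ⟨s1, hs1⟩ := hone t1 ht1'
    have hcoord : ∀ t s, b t (Sum.inr s) ≠ 0 → b t = liftC F s := by
      intro t s hts
      rcases hBlk t with ⟨b0, hb0, h1⟩ | ⟨s', h1⟩
      · rw [h1, hliftBr] at hts
        exact absurd rfl hts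
      · rw [h1, hliftCr] at hts
        by_cases h6 : s = s'
        · rw [h6]
          exact h1
        · rw [if_neg h6] at hts
          exact absurd rfl hts
    have hm1 : m' (Sum.inr s1.1) = 1 := by
      have h6 := hext.pack (Sum.inr s1)
      change ∑ t, lam' t * b t (Sum.inr s1) = m' (Sum.inr s1.1) at h6
      rw [← h6, Finset.sum_eq_single t1]
      · rw [ht1', hs1, hliftCr, if_pos rfl]
      · intro t _ ht
        by_contra hne
        have h7 : b t (Sum.inr s1) ≠ 0 := fun h0 => hne (by rw [h0, mul_zero])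
        exact ht (ext_inj hext ((hcoord t s1 h7).trans hs1.symm))
      · intro h
        exact absurd (Finset.mem_univ t1) h
    obtain ⟨j2, hj2⟩ : ∃ j2 : Fin (n s1.1 + 1), j2 ≠ s1.2 := by
      have := D.n_pos s1.1
      have : Nontrivial (Fin (n s1.1 + 1)) := Fin.nontrivial_iff_two_le.2 (by omega)
      exact exists_ne _
    have h6 := hext.pack (Sum.inr ⟨s1.1, j2⟩)
    change ∑ t, lam' t * b t (Sum.inr ⟨s1.1, j2⟩) = m' (Sum.inr s1.1) at h6
    rw [hm1] at h6
    obtain ⟨t, ht⟩ : ∃ t, 0 < lam' t * b t (Sum.inr ⟨s1.1, j2⟩) := by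
      by_contra hall
      push Not at hall
      rw [Finset.sum_eq_zero fun t _ => Nat.le_zero.1 (hall t)] at h6
      exact absurd h6 (by norm_num)
    have h7 : lam' t * b t (Sum.inr ⟨s1.1, j2⟩) ≤ 1 :=
      (Finset.single_le_sum (f := fun t => lam' t * b t (Sum.inr ⟨s1.1, j2⟩))
        (fun _ _ => Nat.zero_le _) (Finset.mem_univ t)).trans h6.le
    have h8 : lam' t = 1 := Nat.eq_one_of_mul_eq_one_right (le_antisymm h7 ht)
    have h9 : t = t1 := huniq t h8
    have h10 : b t = liftC F ⟨s1.1, j2⟩ := hcoord t _ (fun h0 => by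
      rw [h0, mul_zero] at ht
      exact lt_irrefl _ ht)
    rw [h9, hs1] at h10
    have h11 := hCinj h10
    apply hj2
    obtain ⟨i1, j1⟩ := s1
    simp only [Sigma.mk.injEq, heq_eq_eq, true_and] at h11
    exact h11.symm
  obtain ⟨y0, hy0, b0, hb0, hby0⟩ := hy0
  -- a point of the block
  obtain ⟨e, he⟩ : ∃ e, b0 e ≠ 0 := by
    by_contra hcon
    push Not at hcon
    exact hb0.1 (funext hcon)
  obtain ⟨r, hr2, hr, hrmin⟩ := exists_ram D e
  let b1 : E → ℕ := fun e' => r * b0 e' - if e' = e then r else 0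
  have hb1 : ∀ e', (if e' = e then r else 0) + b1 e' = r * b0 e' := by
    intro e'
    simp only [b1]
    split_ifs with h1
    · subst h1
      have : r ≤ r * b0 e' := Nat.le_mul_of_pos_right _ (Nat.pos_of_ne_zero he)
      omega
    · omega
  have hb1S : SBlock F N S b1 := by
    refine ⟨?_, ?_, ?_⟩
    · intro h0
      have h1 : ∀ e', b0 e' = if e' = e then 1 else 0 := by
        intro e'
        have h2 := hb1 e'
        rw [h0, Pi.zero_apply, add_zero] at h2
        split_ifs at h2 ⊢ with h3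
        · exact Nat.eq_of_mul_eq_mul_left (by omega : 0 < r) (by omega)
        · have h4 : r * b0 e' = r * 0 := by omega
          exact Nat.eq_of_mul_eq_mul_left (by omega : 0 < r) h4
      obtain ⟨z, c, hz, hn⟩ := D.branch e
      have h2 := hb0.2.1 z c hz
      simp only [h1] at h2
      rw [Finset.sum_eq_single e (fun e' _ he' => by rw [if_neg he', zero_mul])
        (fun h => absurd (Finset.mem_univ e) h), if_pos rfl, one_mul] at h2
      exact hn h2
    · intro z c hz
      have h1 : ∑ e', b1 e' * c e' + r * c e = r * ∑ e', b0 e' * c e' := by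
        have h2 : r * c e = ∑ e', (if e' = e then r else 0) * c e' := by
          rw [Finset.sum_eq_single e (fun e' _ he' => by rw [if_neg he', zero_mul])
            (fun h => absurd (Finset.mem_univ e) h), if_pos rfl]
        rw [h2, ← Finset.sum_add_distrib, Finset.mul_sum]
        refine Finset.sum_congr rfl fun e' _ => ?_
        rw [← add_mul, add_comm, hb1, mul_assoc]
      have h2 : N ∣ ∑ e', b1 e' * c e' + r * c e := by
        rw [h1]
        exact (hb0.2.1 z c hz).mul_left _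
      exact (Nat.dvd_add_left (hr z c hz)).1 h2
    · obtain ⟨P, hP, hPe⟩ := hb0.2.2
      refine ⟨P, hP, fun e' he' => hPe e' fun h0 => he' ?_⟩
      have h2 := hb1 e'
      rw [h0, mul_zero] at h2
      omega
  have hsupp : ∀ e, Nonempty (F e).support := by
    intro e
    obtain ⟨μ, hμ⟩ := MvPolynomial.support_nonempty.2 (D.ne_zero e)
    exact ⟨⟨μ, hμ⟩⟩
  let μ : (e : E) → (F e).support := fun e => (hsupp e).some
  refine eq_caseP (BlkP F N S) (latP N S μ) blk_latP (fac F) (Sum.inl : E → E ⊕ I)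
    (coefP F c) ha hstar hcrit (one_latP D) Ty b lam' m' hBlk hext heq
    y0 hy0 (Sum.inl ⟨e, none⟩) r (liftB F b1) hr2 ?_ (Or.inl ⟨b1, hb1S, rfl⟩) ?_ ?_
  · refine Or.inl ⟨Pi.single e r, single_block D e (by omega) hr, ?_⟩
    funext p
    rcases p with ⟨e', _ | μ'⟩ | s
    · rw [hliftBn]
      by_cases h1 : e' = e
      · subst h1
        rw [Pi.single_eq_same, Pi.single_eq_same]
      · rw [Pi.single_eq_of_ne h1, Pi.single_eq_of_ne]
        intro h2
        have h3 := congrArg (fun p : Pt F => fac F p) h2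
        simp only [fac, Sum.elim_inl, Sum.inl.injEq] at h3
        exact h1 h3
    · rw [hliftBs]
      refine Pi.single_eq_of_ne ?_ _
      intro h2
      simp only [Sum.inl.injEq, Sigma.mk.injEq] at h2
      obtain ⟨h3, h4⟩ := h2
      subst h3
      simp at h4
    · rw [hliftBr]
      exact Pi.single_eq_of_ne (by simp) _
  · intro p
    rw [hby0]
    rcases p with ⟨e', _ | μ'⟩ | s
    · rw [hliftBn, hliftBn, ← hb1 e']
      congr 1
      by_cases h1 : e' = e
      · subst h1
        simp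
      · rw [if_neg h1, if_neg]
        intro h2
        have h3 := congrArg (fun p : Pt F => fac F p) h2
        simp only [fac, Sum.elim_inl, Sum.inl.injEq] at h3
        exact h1 h3
    · have hne : (Sum.inl ⟨e', some μ'⟩ : Pt F) ≠ Sum.inl ⟨e, none⟩ := by
        intro h2
        simp only [Sum.inl.injEq, Sigma.mk.injEq] at h2
        obtain ⟨h3, h4⟩ := h2
        subst h3
        simp at h4
      rw [hliftBs, hliftBs, if_neg hne, mul_zero, add_zero]
    · have hne : (Sum.inr s : Pt F) ≠ Sum.inl ⟨e, none⟩ := by simp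
      rw [hliftBr, hliftBr, if_neg hne, mul_zero, add_zero]
  · intro c hc
    exact hrmin c (single_latP e c hc)

/-- If `K` is not uniruled then there are weights. -/
theorem weights_of_not_uniruledS {K : Type} [Field K] [Algebra ℂ K] [Algebra.EssFiniteType ℂ K]
    {I : Type} [Fintype I] [DecidableEq I] {n : I → ℕ} {E : Type} [Fintype E] [DecidableEq E]
    {F : E → MvPolynomial (Co I n) ℂ} {d : E → I → ℕ} {N : ℕ} {x : (i : I) → Fin (n i) → K}
    {S : Set (K × (E → ℕ))} (D : SncData K I n E F d N x S) (hK : ¬ Uniruled K) :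
    ∃ (M : ℕ) (A : E → ℕ), 0 < M ∧
      (∀ i, ∑ e, (A e : ℤ) * d e i ≤ (∑ e, (d e i : ℤ) - (n i + 1)) * M) ∧
      ∀ b : E → ℕ, SBlock F N S b → M ≤ ∑ e, A e * b e :=
  weights_of_starP D (k := AlgebraicClosure K) _
    (starP_of_not_uniruled D hK (IsScalarTower.toAlgHom ℂ K (AlgebraicClosure K)))

end Pool.Agent.Work.Snc
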