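import Mathlib
import Pool.Agent.Work.MP_4329d7_ag_snc.Main

/-!
Theorem U+ with one exponent for all abelian covers of products of projective spaces of total
dimension `m` branched along simple normal crossing divisors (helper44).
-/

namespace Pool.Agent.Work.Snc

open Pool.Agent.Work.MP_4329d7_ag.FF Pool.Agent.Work.Uni

/-- rational weights from weights -/
theorem ratWtD_of_weights {I : Type} {n : I → ℕ} {E : Type} [Fintype E]
    {d : E → I → ℕ} {B : Set (E → ℕ)} {M0 : ℕ} (hM0 : 0 < M0) (A : E → ℕ)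
    (hA : ∀ i, ∑ e, (A e : ℤ) * d e i ≤ (∑ e, (d e i : ℤ) - (n i + 1)) * M0)
    (hAb : ∀ b : E → ℕ, b ∈ B → M0 ≤ ∑ e, A e * b e) :
    RatWtD n d B (fun e => min ((A e : ℚ) / M0) 1) := by
  classical
  have hM0' : (0 : ℚ) < M0 := by exact_mod_cast hM0
  refine ⟨fun e => ⟨?_, min_le_right _ _⟩, fun i => ?_, fun b hb => ?_⟩
  · exact le_min (div_nonneg (Nat.cast_nonneg _) hM0'.le) zero_le_one
  · have h1 : ∑ e, (A e : ℚ) * d e i ≤ (∑ e, (d e i : ℚ) - (n i + 1)) * M0 := by
      exact_mod_cast hA i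
    calc ((n i + 1 : ℕ) : ℚ) ≤ ∑ e, (d e i : ℚ) - (∑ e, (A e : ℚ) * d e i) / M0 := by
          rw [le_sub_comm, div_le_iff₀ hM0']
          push_cast
          exact h1
      _ = ∑ e, (1 - (A e : ℚ) / M0) * (d e i : ℚ) := by
          rw [Finset.sum_div, ← Finset.sum_sub_distrib]
          exact Finset.sum_congr rfl fun e _ => by ring
      _ ≤ ∑ e, (1 - min ((A e : ℚ) / M0) 1) * (d e i : ℚ) := by
          refine Finset.sum_le_sum fun e _ => mul_le_mul_of_nonneg_right ?_ (Nat.cast_nonneg _)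
          exact sub_le_sub_left (min_le_left _ _) _
  · by_cases hall : ∀ e, b e ≠ 0 → (A e : ℚ) / M0 ≤ 1
    · have h1 : (M0 : ℚ) ≤ ∑ e, (A e : ℚ) * b e := by exact_mod_cast hAb b hb
      have h2 : ∑ e, min ((A e : ℚ) / M0) 1 * (b e : ℚ) = (∑ e, (A e : ℚ) * b e) / M0 := by
        rw [Finset.sum_div]
        refine Finset.sum_congr rfl fun e _ => ?_
        by_cases h0 : b e = 0
        · simp [h0]
        · rw [min_eq_left (hall e h0)]
          ring
      rw [h2, le_div_iff₀ hM0', one_mul]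
      exact h1
    · push Not at hall
      obtain ⟨e, he0, he1⟩ := hall
      have h1 : (1 : ℚ) ≤ min ((A e : ℚ) / M0) 1 * (b e : ℚ) := by
        rw [min_eq_right he1.le, one_mul]
        exact_mod_cast Nat.one_le_iff_ne_zero.2 he0
      refine h1.trans ?_
      exact Finset.single_le_sum (f := fun e => min ((A e : ℚ) / M0) 1 * (b e : ℚ))
        (fun e _ => mul_nonneg (le_min (div_nonneg (Nat.cast_nonneg _) hM0'.le) zero_le_one)
          (Nat.cast_nonneg _)) (Finset.mem_univ e)

/-- weights with denominator `M` give a pluricanonical form of order `M` -/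
theorem exists_form_of_natWtD {K : Type} [Field K] [Algebra ℂ K] {I : Type} [Fintype I]
    [DecidableEq I] {n : I → ℕ} {E : Type} [Fintype E] {F : E → MvPolynomial (Co I n) ℂ}
    {d : E → I → ℕ} {N : ℕ} {x : (i : I) → Fin (n i) → K} {S : Set (K × (E → ℕ))}
    (D : SncData K I n E F d N x S) {M : ℕ} {A : E → ℕ}
    (hA : NatWtD n d {b | SBlock F N S b} M A) :
    ∃ T : TensorForm K (M * ∑ i, n i), IsPluricanonical M (∑ i, n i) T ∧ IsRegular T ∧ T ≠ 0 := by
  refine exists_formS D M A (fun i => ?_) (fun b hb => hA.blk b hb)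
  have h1 := hA.fac i
  have h2 : ∑ e, (M - A e) * d e i + ∑ e, A e * d e i = M * ∑ e, d e i := by
    rw [← Finset.sum_add_distrib, Finset.mul_sum]
    refine Finset.sum_congr rfl fun e _ => ?_
    rw [← add_mul, Nat.sub_add_cancel (hA.box e)]
  omega

/-- if the pluricanonical forms of order `M` are zero then there are nonconstant rational curves
given by roots -/
theorem not_starP (m : ℕ) : ∃ M : ℕ, 0 < M ∧
    ∀ (K : Type) [Field K] [Algebra ℂ K]
    (I : Type) [Fintype I] [DecidableEq I] (n : I → ℕ) (E : Type) [Fintype E] [DecidableEq E]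
    (F : E → MvPolynomial (Co I n) ℂ) (d : E → I → ℕ) (N : ℕ) (x : (i : I) → Fin (n i) → K)
    (S : Set (K × (E → ℕ))), SncData K I n E F d N x S → ∑ i, n i = m →
    (∀ T : TensorForm K (M * m), IsPluricanonical M m T → IsRegular T → T = 0) →
    ∀ (k : Type) [Field k] [Algebra ℂ k] [IsAlgClosed k] (c : Co I n → k),
      ¬ StarP (BlkP F N S) (fac F) (coefP F c) := by
  classical
  obtain ⟨M, hM, hunif⟩ := unif_weightsD m
  refine ⟨M, hM, fun K _ _ I _ _ n E _ _ F d N x S D hm hT k _ _ _ c hstar => ?_⟩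
  obtain ⟨M0, A, hM0, hA, hAb⟩ := weights_of_starP D c hstar
  obtain ⟨A', hA'⟩ := hunif I n D.n_pos hm E d _ _ (ratWtD_of_weights hM0 A hA hAb)
  subst hm
  obtain ⟨T, hTp, hTr, hT0⟩ := exists_form_of_natWtD D hA'
  exact hT0 (hT T hTp hTr)

theorem main_sncData (m : ℕ) : ∃ M : ℕ, 0 < M ∧
    ∀ (K : Type) [Field K] [Algebra ℂ K] [Algebra.EssFiniteType ℂ K]
    (I : Type) [Fintype I] [DecidableEq I] (n : I → ℕ) (E : Type) [Fintype E] [DecidableEq E]
    (F : E → MvPolynomial (Co I n) ℂ) (d : E → I → ℕ) (N : ℕ) (x : (i : I) → Fin (n i) → K)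
    (S : Set (K × (E → ℕ))), SncData K I n E F d N x S → ∑ i, n i = m →
    (∀ T : TensorForm K (M * m), IsPluricanonical M m T → IsRegular T → T = 0) →
    Uniruled K := by
  obtain ⟨M, hM, h⟩ := not_starP m
  refine ⟨M, hM, fun K _ _ _ I _ _ n E _ _ F d N x S D hm hT => ?_⟩
  by_contra hK
  exact h K I n E F d N x S D hm hT (AlgebraicClosure K) _
    (starP_of_not_uniruled D hK (IsScalarTower.toAlgHom ℂ K (AlgebraicClosure K)))

end Pool.Agent.Work.Snc
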