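import Mathlib
import Pool.Agent.Work.MP_4329d7_ag_snc.Final

/-!
One exponent for the abelian covers of products of projective spaces branched along simple normal
crossing divisors: for every `m` there is `M > 0` such that every function field `K` of an abelian
cover of a product of projective spaces of total dimension `m`, branched along a simple normal
crossing divisor whose components have arbitrary multidegrees, is uniruled as soon as its
pluricanonical forms of order `M` are all zero.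
-/

namespace Pool.Agent.Results.MP_4329d7_ag.SncCovers

open Pool.Agent.Work.MP_4329d7_ag.FF Pool.Agent.Work.Uni Pool.Agent.Work.Snc MvPolynomial

theorem result (m : ℕ) : ∃ M : ℕ, 0 < M ∧
    ∀ (K : Type) [Field K] [Algebra ℂ K] [Algebra.EssFiniteType ℂ K]
    (I : Type) [Fintype I] [DecidableEq I] (n : I → ℕ) (_ : ∀ i, 0 < n i) (_ : ∑ i, n i = m)
    (E : Type) [Fintype E] (F : E → MvPolynomial (Σ i, Fin (n i + 1)) ℂ) (d : E → I → ℕ)
    (_ : ∀ e i, (F e).IsWeightedHomogeneous (fun s => if s.1 = i then 1 else 0) (d e i))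
    (_ : ∀ P : (Σ i, Fin (n i + 1)) → ℂ, (∀ i, ∃ j, P ⟨i, j⟩ ≠ 0) →
      LinearIndependent ℂ (fun e : {e // eval P (F e) = 0} => fun s => eval P (pderiv s (F e.1))))
    (_ : ∀ e, ∃ P : (Σ i, Fin (n i + 1)) → ℂ, (∀ i, ∃ j, P ⟨i, j⟩ ≠ 0) ∧ eval P (F e) = 0)
    (x : (i : I) → Fin (n i) → K)
    (_ : AlgebraicIndependent ℂ (fun p : Σ i, Fin (n i) => x p.1 p.2))
    (N : ℕ) (_ : 0 < N) (S : Set (K × (E → ℕ)))
    (_ : ∀ z c, (z, c) ∈ S → z ^ N = ∏ e, aeval (fun s : Σ i, Fin (n i + 1) =>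
      (Fin.cons 1 (x s.1) : Fin (n s.1 + 1) → K) s.2) (F e) ^ c e)
    (_ : ∀ z c, (z, c) ∈ S → ∀ i, N ∣ ∑ e, c e * d e i)
    (_ : IntermediateField.adjoin ℂ
      (Set.range (fun p : Σ i, Fin (n i) => x p.1 p.2) ∪ {z | ∃ c, (z, c) ∈ S}) = ⊤)
    (_ : ∀ e, ∃ z c, (z, c) ∈ S ∧ ¬ N ∣ c e)
    (_ : ∀ T : TensorForm K (M * m), IsPluricanonical M m T → IsRegular T → T = 0),
    Uniruled K := by
  classical
  obtain ⟨M, hM, h⟩ := main_sncData m
  refine ⟨M, hM, fun K _ _ _ I _ _ n hn hm E _ F d hF hsnc hne x hx N hN S hrad hdeg hgen hbr hT =>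
    h K I n E F d N x S ⟨hN, hn, hF, hsnc, hne, hx, hrad, hdeg, hgen, hbr⟩ hm hT⟩

end Pool.Agent.Results.MP_4329d7_ag.SncCovers
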